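import Pool.Agent.Lib.MP_16bc4e_al.Nielsen

namespace Pool.Agent.Lib.MP_16bc4e_al

open FreeGroup hiding map_inv map_mul map_one norm_one

variable {X : Type*} [DecidableEq X]

def img (a b x : X × Bool) : List (X × Bool) :=
  if x = a then [a, bar b] else if x = bar a then [b, bar a] else [x]

/-- reduced form of the image under `a ↦ a b⁻¹` -/
def tr (a b : X × Bool) : List (X × Bool) → List (X × Bool)
  | [] => []
  | [x] => img a b x
  | x :: y :: r => if x = a ∧ y = b then a :: tr a b r
      else if x = bar b ∧ y = bar a then bar a :: tr a b r else img a b x ++ tr a b (y :: r)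

lemma mk_img (a b x : X × Bool) : mk (img a b x) = nuH a (bar b) (mk [x]) := by
  unfold img
  split_ifs with h1 h2
  · rw [h1, nuH_self, mul_mk]; rfl
  · rw [h2, nuH_bar, bar_bar, mul_mk]; rfl
  · rw [nuH_other]
    intro h
    rcases eq_or_bar x a h with h | h
    · exact h1 h
    · exact h2 h

lemma mk_tr (a b : X × Bool) (h : b.1 ≠ a.1) :
    ∀ w : List (X × Bool), mk (tr a b w) = nuH a (bar b) (mk w)
  | [] => by simp [tr, ← one_eq_mk]
  | [x] => by rw [tr, mk_img]
  | x :: y :: r => by
    have ih1 := mk_tr a b h r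
    have ih2 := mk_tr a b h (y :: r)
    rw [tr]
    split_ifs with h1 h2
    · obtain ⟨rfl, rfl⟩ := h1
      rw [mk_cons x, ih1, mk_cons x (y :: r), mk_cons y r, map_mul, map_mul, nuH_self,
        nuH_other x _ y h, mk_bar]
      group
    · obtain ⟨rfl, rfl⟩ := h2
      rw [mk_cons (bar a), ih1, mk_cons (bar b) (bar a :: r), mk_cons (bar a) r, map_mul, map_mul,
        nuH_bar, bar_bar, nuH_other a _ (bar b) h, mk_bar b]
      group
    · rw [← mul_mk, ih2, mk_img, mk_cons x (y :: r), map_mul]

lemma head_tr (a b x : X × Bool) (h : b.1 ≠ a.1) (r : List (X × Bool)) :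
    (tr a b (x :: r)).head? =
      some (if x = bar a then b else if x = bar b ∧ r.head? = some (bar a) then bar a else x) := by
  have h1 : a ≠ bar a := (bar_ne a).symm
  have h2 : a ≠ bar b := fun e => h (by rw [e]; rfl)
  have h3 : bar b ≠ bar a := fun e => h (by rw [bar_inj e])
  cases r with
  | nil =>
    simp only [tr, img]
    split_ifs <;> simp_all
  | cons y r =>
    simp only [tr, img]
    split_ifs <;> simp_all

lemma last_img (a b x : X × Bool) : (img a b x).getLast? =
    some (if x = a then bar b else x) := by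
  unfold img
  split_ifs <;> simp_all

lemma red_img (a b x : X × Bool) (h : b.1 ≠ a.1) : IsReduced (img a b x) := by
  unfold img
  split_ifs
  · rw [isReduced_cons_cons']
    exact ⟨fun e => h (by rw [bar_inj e]), IsReduced.singleton⟩
  · rw [isReduced_cons_cons']
    exact ⟨fun e => h (by rw [bar_inj e]), IsReduced.singleton⟩
  · exact IsReduced.singleton

lemma red_tr (a b : X × Bool) (h : b.1 ≠ a.1) :
    ∀ w : List (X × Bool), IsReduced w → IsReduced (tr a b w)
  | [], _ => by simp [tr]
  | [x], _ => red_img a b x h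
  | x :: y :: r, hw => by
    have h1 : bar a ≠ a := bar_ne a
    have h2 : b ≠ bar a := fun e => h (by rw [e]; rfl)
    have h3 : b ≠ a := fun e => h (by rw [e])
    rw [isReduced_cons_cons'] at hw
    have hr := isReduced_cons.1 hw.2
    have ih1 := red_tr a b h r hr.1
    have ih2 := red_tr a b h (y :: r) hw.2
    rw [tr]
    split_ifs with c1 c2
    · obtain ⟨rfl, rfl⟩ := c1
      rw [isReduced_cons]
      refine ⟨ih1, fun z hz => ?_⟩
      cases r with
      | nil => simp [tr] at hz
      | cons z' r =>
        rw [head_tr _ _ _ h, Option.mem_def, Option.some.injEq] at hz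
        have := hr.2 z' rfl
        subst hz
        split_ifs with d1 d2
        · exact h2
        · exact absurd d2.1 this
        · exact d1
    · obtain ⟨rfl, rfl⟩ := c2
      rw [isReduced_cons]
      refine ⟨ih1, fun z hz => ?_⟩
      cases r with
      | nil => simp [tr] at hz
      | cons z' r =>
        rw [head_tr _ _ _ h, Option.mem_def, Option.some.injEq] at hz
        have := hr.2 z' rfl
        rw [bar_bar] at this ⊢
        subst hz
        split_ifs with d1 d2
        · exact h3
        · exact h1
        · exact this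
    · rw [isReduced_append]
      refine ⟨red_img a b x h, ih2, fun p hp q hq => ?_⟩
      rw [last_img, Option.mem_def, Option.some.injEq] at hp
      rw [head_tr _ _ _ h, Option.mem_def, Option.some.injEq] at hq
      subst hp hq
      have := hw.1
      split_ifs with d1 d2 d3 d4 d5
      · subst d2; exact absurd d1 this
      · intro e; exact c2 ⟨by rw [e, bar_bar], d1⟩
      · rw [bar_bar]; exact h2.symm
      · intro e; exact d4 (bar_inj e).symm
      · rw [bar_bar]; intro e; exact c1 ⟨d5, e⟩
      · exact this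

/-- indicator of the two-letter words `a b` and `b⁻¹ a⁻¹` -/
def ind (a b x y : X × Bool) : ℕ :=
  (if x = a ∧ y = b then 1 else 0) + (if x = bar b ∧ y = bar a then 1 else 0)

/-- number of occurrences of a generator -/
def occ (x : X) (w : List (X × Bool)) : ℕ := (w.map fun a => if a.1 = x then 1 else 0).sum

lemma len_img (a b x : X × Bool) : (img a b x).length = 1 + if x.1 = a.1 then 1 else 0 := by
  unfold img
  split_ifs with h1 h2 h3 h4 h5
  · rfl
  · exact absurd (by rw [h1]) h2
  · rfl
  · exact absurd (by rw [h3]; rfl) h4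
  · rcases eq_or_bar x a h5 with h | h
    · exact absurd h h1
    · exact absurd h h3
  · rfl

lemma PS_cons_of_zero {β : Type*} (f : β → β → ℕ) (y : β) (r : List β) (h : ∀ z, f y z = 0) :
    PS f (y :: r) = PS f r := by
  cases r with
  | nil => simp [PS]
  | cons z r => rw [PS, h, zero_add]

lemma len_tr (a b : X × Bool) (h : b.1 ≠ a.1) : ∀ w : List (X × Bool),
    (tr a b w).length + 2 * PS (ind a b) w = w.length + occ a.1 w
  | [] => by simp [tr, PS, occ]
  | [x] => by simp [tr, PS, occ, len_img]
  | x :: y :: r => by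
    have h1 : bar a ≠ a := bar_ne a
    have h1' : b ≠ bar b := (bar_ne b).symm
    have h2 : a ≠ bar b := fun e => h (by rw [e]; rfl)
    have h3 : b ≠ a := fun e => h (by rw [e])
    have h4 : bar a ≠ bar b := fun e => h (by rw [bar_inj e])
    have ih1 := len_tr a b h r
    have ih2 := len_tr a b h (y :: r)
    rw [tr, PS]
    split_ifs with c1 c2
    · obtain ⟨rfl, rfl⟩ := c1
      rw [PS_cons_of_zero _ y r (fun z => by simp [ind, h3, h1'])]
      simp only [occ, List.map_cons, List.sum_cons, List.length_cons, ind, h, h2] at ih1 ⊢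
      simp only [and_self, if_true, false_and, if_false]
      omega
    · obtain ⟨rfl, rfl⟩ := c2
      rw [PS_cons_of_zero _ (bar a) r (fun z => by simp [ind, h1, h4])]
      simp only [occ, List.map_cons, List.sum_cons, List.length_cons, ind, bar_fst, h,
        h2.symm] at ih1 ⊢
      simp only [and_self, if_true, false_and, if_false]
      omega
    · rw [List.length_append, len_img]
      simp only [occ, List.map_cons, List.sum_cons, List.length_cons, ind, if_neg c1,
        if_neg c2] at ih2 ⊢
      omega

lemma norm_nu (a b : X × Bool) (h : b.1 ≠ a.1) (w : List (X × Bool)) (hw : IsReduced w) :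
    norm (nuH a (bar b) (mk w)) + 2 * PS (ind a b) w = w.length + occ a.1 w := by
  rw [← mk_tr a b h, IsReduced.norm_mk (red_tr a b h w hw), len_tr a b h]

/-- cyclic pair sum -/
def DD {β : Type*} (f : β → β → ℕ) (w : List β) : ℤ := (PS f (w ++ w) : ℤ) - PS f w

lemma PS_sum {β κ : Type*} (s : Finset κ) (f : κ → β → β → ℕ) : ∀ w : List β,
    PS (fun x y => ∑ k ∈ s, f k x y) w = ∑ k ∈ s, PS (f k) w
  | [] => by simp [PS]
  | [x] => by simp [PS]
  | x :: y :: r => by
    simp only [PS, PS_sum s f (y :: r), Finset.sum_add_distrib]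

lemma PS_mul {β : Type*} (c : ℕ) (f : β → β → ℕ) : ∀ w : List β,
    PS (fun x y => c * f x y) w = c * PS f w
  | [] => by simp [PS]
  | [x] => by simp [PS]
  | x :: y :: r => by
    simp only [PS, PS_mul c f (y :: r), mul_add]

lemma PS_add {β : Type*} (f g : β → β → ℕ) : ∀ w : List β,
    PS (fun x y => f x y + g x y) w = PS f w + PS g w
  | [] => by simp [PS]
  | [x] => by simp [PS]
  | x :: y :: r => by
    simp only [PS, PS_add f g (y :: r)]; omega

lemma PS_fst {β : Type*} (g : β → ℕ) : ∀ (w : List β) (z : β), w.getLast? = some z →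
    PS (fun x _ => g x) w + g z = (w.map g).sum
  | [], z, h => by simp at h
  | [x], z, h => by simp at h; simp [PS, h]
  | x :: y :: r, z, h => by
    have := PS_fst g (y :: r) z (by simpa using h)
    simp only [PS, List.map_cons, List.sum_cons] at this ⊢
    omega

lemma PS_snd {β : Type*} (g : β → ℕ) : ∀ (w : List β) (z : β),
    PS (fun _ y => g y) (z :: w) = (w.map g).sum
  | [], z => by simp [PS]
  | y :: r, z => by simp only [PS, PS_snd g r y, List.map_cons, List.sum_cons]

lemma DD_fst {β : Type*} (g : β → ℕ) (w : List β) : DD (fun x _ => g x) w = (w.map g).sum := by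
  unfold DD
  rcases List.eq_nil_or_concat w with rfl | ⟨l, z, rfl⟩
  · simp [PS]
  · have h1 := PS_fst g (l.concat z) z (by simp)
    have h2 := PS_fst g (l.concat z ++ l.concat z) z (by
      rw [List.concat_eq_append, ← List.append_assoc, List.getLast?_concat])
    rw [List.map_append, List.sum_append] at h2
    omega

lemma DD_snd {β : Type*} (g : β → ℕ) (w : List β) : DD (fun _ y => g y) w = (w.map g).sum := by
  unfold DD
  cases w with
  | nil => simp [PS]
  | cons z l =>
    rw [List.cons_append, PS_snd, PS_snd]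
    simp only [List.map_append, List.sum_append, List.map_cons, List.sum_cons]
    omega

lemma PS_ind_bar (a : X × Bool) : ∀ w : List (X × Bool), IsReduced w → PS (ind a (bar a)) w = 0
  | [], _ => rfl
  | [x], _ => rfl
  | x :: y :: r, h => by
    rw [isReduced_cons_cons'] at h
    rw [PS, PS_ind_bar a _ h.2]
    have : ¬ (x = a ∧ y = bar a) := fun c => h.1 (by rw [c.1, c.2])
    simp [ind, this]

lemma sum_occ [Fintype X] (g : X → ℕ) (w : List (X × Bool)) :
    ∑ x, g x * occ x w = (w.map fun a => g a.1).sum := by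
  induction w with
  | nil => simp [occ]
  | cons a w ih =>
    simp only [occ, List.map_cons, List.sum_cons, mul_add, Finset.sum_add_distrib] at ih ⊢
    rw [ih]
    simp

lemma occ_append (x : X) (v w : List (X × Bool)) : occ x (v ++ w) = occ x v + occ x w := by
  simp [occ]

lemma lam_eq_int {Y : Type*} [DecidableEq Y] (g : FreeGroup Y) :
    (lam g : ℤ) = norm (g * g) - norm g := by
  have := norm_le_sq g
  unfold lam; omega

lemma sum_ind [Fintype X] (a : X × Bool) (w : List (X × Bool)) :
    ∑ b, DD (ind a b) w = occ a.1 w := by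
  have h1 : ∑ b, DD (ind a b) w = DD (fun x y => ∑ b, ind a b x y) w := by
    unfold DD
    rw [PS_sum, PS_sum, Finset.sum_sub_distrib]
    push_cast; rfl
  have h2 : (fun x y => ∑ b, ind a b x y) =
      fun x y : X × Bool => (if x = a then 1 else 0) + (if y = bar a then 1 else 0) := by
    funext x y
    unfold ind
    rw [Finset.sum_add_distrib]
    congr 1
    · by_cases h : x = a <;> simp [h]
    · by_cases h : y = bar a
      · simp only [h, and_true, if_true]
        rw [Finset.sum_eq_single (bar x)]
        · simp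
        · intro b _ hb; rw [if_neg]; intro e; exact hb (by rw [e, bar_bar])
        · simp
      · simp [h]
  have h3 := DD_fst (fun x : X × Bool => if x = a then 1 else 0) w
  have h4 := DD_snd (fun y : X × Bool => if y = bar a then 1 else 0) w
  rw [h1, h2]
  unfold DD at h3 h4 ⊢
  rw [PS_add, PS_add]
  have h5 : occ a.1 w = (w.map fun x : X × Bool => if x = a then 1 else 0).sum +
      (w.map fun y : X × Bool => if y = bar a then 1 else 0).sum := by
    unfold occ
    rw [← List.sum_map_add]
    congr 2
    funext x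
    by_cases h : x.1 = a.1
    · rcases eq_or_bar x a h with rfl | rfl
      · simp [(bar_ne x).symm]
      · simp [bar_ne a]
    · have e1 : x ≠ a := fun e => h (by rw [e])
      have e2 : x ≠ bar a := fun e => h (by rw [e]; rfl)
      simp [h, e1, e2]
  omega

lemma DD_expand [Fintype X] (c : X × Bool → X × Bool → ℕ)
    (hc : ∀ a b, c (bar b) (bar a) = c a b) (w : List (X × Bool)) :
    2 * DD c w = ∑ p : (X × Bool) × (X × Bool), c p.1 p.2 * DD (ind p.1 p.2) w := by
  have h2 : (fun x y => 2 * c x y) =
      fun x y => ∑ p : (X × Bool) × (X × Bool), c p.1 p.2 * ind p.1 p.2 x y := by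
    funext x y
    unfold ind
    simp only [mul_add, Finset.sum_add_distrib]
    rw [Finset.sum_eq_single (x, y), Finset.sum_eq_single (bar y, bar x)]
    · simp [hc]; omega
    · rintro ⟨a, b⟩ _ hb; rw [if_neg, mul_zero]
      rintro ⟨rfl, rfl⟩; simp at hb
    · simp
    · rintro ⟨a, b⟩ _ hb; rw [if_neg, mul_zero]
      rintro ⟨rfl, rfl⟩; simp at hb
    · simp
  have h3 : ∀ l, 2 * PS c l = ∑ p : (X × Bool) × (X × Bool), c p.1 p.2 * PS (ind p.1 p.2) l := by
    intro l
    rw [← PS_mul, h2, PS_sum]
    exact Finset.sum_congr rfl fun p _ => PS_mul _ _ _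
  have h4 := congrArg (Nat.cast : ℕ → ℤ) (h3 (w ++ w))
  have h5 := congrArg (Nat.cast : ℕ → ℤ) (h3 w)
  push_cast at h4 h5
  unfold DD
  simp only [mul_sub, Finset.sum_sub_distrib]
  rw [h4, h5]

theorem wh_invariants [Fintype X] {w1 w2 : List (X × Bool)} (h1 : IsCyclicallyReduced w1)
    (h2 : IsCyclicallyReduced w2)
    (h : ∀ φ : MulAut (FreeGroup X), lam (φ (mk w1)) = lam (φ (mk w2))) :
    (∀ x, occ x w1 = occ x w2) ∧ ∀ a b, DD (ind a b) w1 = DD (ind a b) w2 := by
  have f : ∀ (w : List (X × Bool)), IsCyclicallyReduced w → ∀ (a b : X × Bool) (hab : b.1 ≠ a.1),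
      (lam (nu a (bar b) hab (mk w)) : ℤ) + 2 * DD (ind a b) w = w.length + occ a.1 w := by
    intro w hw a b hab
    have e1 := norm_nu a b hab w hw.isReduced
    have e2 := norm_nu a b hab (w ++ w) (cyc_append hw)
    rw [← mul_mk, map_mul, List.length_append, occ_append] at e2
    rw [lam_eq_int, nu_apply]
    unfold DD
    omega
  have l : w1.length = w2.length := by
    have := h 1
    rwa [MulAut.one_apply, MulAut.one_apply, lam_cyc h1, lam_cyc h2] at this
  have g : ∀ a b : X × Bool, b.1 ≠ a.1 →
      (occ a.1 w1 : ℤ) - 2 * DD (ind a b) w1 = occ a.1 w2 - 2 * DD (ind a b) w2 := by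
    intro a b hab
    have e1 := f w1 h1 a b hab
    have e2 := f w2 h2 a b hab
    have e3 := h (nu a (bar b) hab)
    omega
  have sym : ∀ a b : X × Bool, ind (bar b) (bar a) = ind a b := by
    intro a b; funext x y; simp only [ind, bar_bar]; omega
  have o : ∀ x, occ x w1 = occ x w2 := by
    intro x
    have d : ∀ y, (occ x w1 : ℤ) - occ y w1 = occ x w2 - occ y w2 := by
      intro y
      by_cases hxy : y = x
      · subst hxy; omega
      · have e1 := g (x, true) (y, true) hxy
        have e2 := g (bar (y, true)) (bar (x, true)) (Ne.symm hxy)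
        rw [sym] at e2
        simp only [bar_fst] at e1 e2
        omega
    have s1 := congrArg (Nat.cast : ℕ → ℤ) (sum_occ (fun _ => 1) w1)
    have s2 := congrArg (Nat.cast : ℕ → ℤ) (sum_occ (fun _ => 1) w2)
    simp only [one_mul, List.map_const', List.sum_replicate, smul_eq_mul, mul_one] at s1 s2
    push_cast at s1 s2
    have s3 : ∑ y, ((occ x w1 : ℤ) - occ y w1) = ∑ y, ((occ x w2 : ℤ) - occ y w2) :=
      Finset.sum_congr rfl fun y _ => d y
    rw [Finset.sum_sub_distrib, Finset.sum_sub_distrib, s1, s2, l, Finset.sum_const,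
      Finset.sum_const, nsmul_eq_mul, nsmul_eq_mul, sub_left_inj] at s3
    have : (0 : ℤ) < (Finset.univ : Finset X).card := by
      exact_mod_cast Finset.card_pos.2 ⟨x, Finset.mem_univ x⟩
    exact_mod_cast mul_left_cancel₀ this.ne' s3
  refine ⟨o, fun a b => ?_⟩
  have p : ∀ b, b ≠ a → DD (ind a b) w1 = DD (ind a b) w2 := by
    intro b hb
    by_cases hab : b.1 = a.1
    · rw [(eq_or_bar b a hab).resolve_left hb]
      unfold DD
      rw [PS_ind_bar a _ (cyc_append h1), PS_ind_bar a _ (cyc_append h2),
        PS_ind_bar a _ h1.isReduced, PS_ind_bar a _ h2.isReduced]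
    · have := g a b hab
      have := o a.1
      omega
  by_cases hb : b = a
  · subst hb
    have s1 := sum_ind b w1
    have s2 := sum_ind b w2
    rw [← Finset.add_sum_erase _ _ (Finset.mem_univ b)] at s1 s2
    have s3 : ∑ x ∈ Finset.univ.erase b, DD (ind b x) w1 =
        ∑ x ∈ Finset.univ.erase b, DD (ind b x) w2 :=
      Finset.sum_congr rfl fun x hx => p x (Finset.mem_erase.1 hx).1
    have := o b.1
    omega
  · exact p b hb

theorem lam_eq_of_inj [Fintype X] (u v : FreeGroup X)
    (h : ∀ φ : MulAut (FreeGroup X), lam (φ u) = lam (φ v))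
    (ψ : FreeGroup X →* FreeGroup ℕ) (hψ : Function.Injective ψ) : lam (ψ u) = lam (ψ v) := by
  obtain ⟨α, hα⟩ := exists_NR ψ hψ
  set χ := ψ.comp (α : FreeGroup X →* FreeGroup X) with hχ
  obtain ⟨t1, w1, c1, e1, -⟩ := exists_cyc (α⁻¹ u)
  obtain ⟨t2, w2, c2, e2, -⟩ := exists_cyc (α⁻¹ v)
  have k : ∀ φ : MulAut (FreeGroup X), lam (φ (mk w1)) = lam (φ (mk w2)) := by
    intro φ
    have := h (φ * α⁻¹)
    rwa [MulAut.mul_apply, MulAut.mul_apply, e1, e2, map_mul, map_mul, map_mul, map_mul, map_inv,
      map_inv, lam_conj, lam_conj] at this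
  obtain ⟨o, d⟩ := wh_invariants c1 c2 k
  have a1 : ψ u = χ (α⁻¹ u) := by simp [hχ]
  have a2 : ψ v = χ (α⁻¹ v) := by simp [hχ]
  rw [a1, a2, e1, e2, map_mul, map_mul, map_mul, map_mul, map_inv, map_inv, lam_conj, lam_conj]
  have f : ∀ w : List (X × Bool), IsCyclicallyReduced w → (lam (χ (mk w)) : ℤ) + 2 * DD (canc χ) w =
      ∑ x, norm (χ (of x)) * occ x w := by
    intro w hw
    have n1 := hα.norm_eq w hw.isReduced
    have n2 := hα.norm_eq (w ++ w) (cyc_append hw)
    rw [← mul_mk, map_mul, List.map_append, List.sum_append] at n2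
    rw [lam_eq_int, sum_occ]
    simp only [norm_letter_eq] at n1 n2
    unfold DD
    omega
  have f1 := f w1 c1
  have f2 := f w2 c2
  rw [DD_expand _ (canc_symm χ)] at f1 f2
  simp only [o, d] at f1
  omega

end Pool.Agent.Lib.MP_16bc4e_al
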