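import Pool.Agent.Lib.MP_16bc4e_al.Conn
import Pool.Agent.Lib.MP_16bc4e_al.Whitehead

namespace Pool.Agent.Lib.MP_16bc4e_al

open FreeGroup hiding map_inv map_mul map_one norm_one

abbrev Wd : Type := List (ℕ × Bool)

def sub (T : List Wd) (w : Wd) : Wd :=
  w.flatMap fun a => cond a.2 (T.getD a.1 []) (invRev (T.getD a.1 []))

def lamW (w : Wd) : ℕ := (reduce (w ++ w)).length - (reduce w).length

def keep (n : ℕ) (w : Wd) : Wd := w.filter fun a => a.1 < n

def ok (n : ℕ) (T : List Wd) : Prop := ∀ i < n, reduce (keep n (T.getD i [])) = [(i, true)]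

def cw {n : ℕ} (w : List (Fin n × Bool)) : Wd := w.map fun x => (x.1.val, x.2)

def tab (c : ℕ) : List Wd := (Encodable.decode c : Option (List Wd)).getD []

/-- bound for the code of a list -/
def bL (M k : ℕ) : ℕ := Nat.rec 0 (fun _ b => Nat.pair M b + 1) k

def bC (n N : ℕ) : ℕ := bL (bL (Nat.pair N 1) N) n + 1

def bAll (n l : ℕ) : ℕ := bC n (bN n (bH (bM n (2 * l + (n + 3)))))

def Test (n : ℕ) (p : List (Fin n × Bool) × List (Fin n × Bool)) : Prop :=
  ∀ c < bAll n (p.1.length + p.2.length),
    ok n (tab c) → lamW (sub (tab c) (cw p.1)) = lamW (sub (tab c) (cw p.2))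

section prim

open Primrec

lemma prim_reduce : Primrec (reduce : Wd → Wd) := by
  have h : Primrec₂ fun (_ : Wd) (q : (ℕ × Bool) × Wd × Wd) =>
      (List.casesOn q.2.2 [q.1] fun hd tl =>
        if q.1.1 = hd.1 ∧ q.1.2 = not hd.2 then tl else q.1 :: hd :: tl : Wd) := by
    have a1 : Primrec fun z : (Wd × (ℕ × Bool) × Wd × Wd) × (ℕ × Bool) × Wd => z.1.2.1 :=
      fst.comp (snd.comp fst)
    have a2 : Primrec fun z : (Wd × (ℕ × Bool) × Wd × Wd) × (ℕ × Bool) × Wd => z.2.1 :=
      fst.comp snd
    exact list_casesOn (f := fun z : Wd × (ℕ × Bool) × Wd × Wd => z.2.2.2)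
      (g := fun z => [z.2.1])
      (h := fun z y => if z.2.1.1 = y.1.1 ∧ z.2.1.2 = not y.1.2 then y.2 else z.2.1 :: y.1 :: y.2)
      (snd.comp (snd.comp snd)) (list_cons.comp (fst.comp snd) (const []))
      (Primrec.ite ((Primrec.eq.comp (fst.comp a1) (fst.comp a2)).and
        (Primrec.eq.comp (snd.comp a1) (Primrec.not.comp (snd.comp a2)))) (snd.comp snd)
        (list_cons.comp a1 (list_cons.comp a2 (snd.comp snd))))
  exact (list_rec Primrec.id (const []) h).of_eq fun l => rfl

lemma prim_invRev : Primrec (invRev : Wd → Wd) :=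
  (list_reverse.comp (list_map Primrec.id
    ((pair fst (Primrec.not.comp snd)).comp snd).to₂)).of_eq fun _ => rfl

lemma prim_sub : Primrec₂ sub := by
  have a : Primrec fun z : (List Wd × Wd) × ℕ × Bool => z.1.1.getD z.2.1 [] :=
    (list_getD []).comp (fst.comp fst) (fst.comp snd)
  exact list_flatMap (f := fun z : List Wd × Wd => z.2)
    (g := fun z a => cond a.2 (z.1.getD a.1 []) (invRev (z.1.getD a.1 []))) snd
    (Primrec.cond (snd.comp snd) a (prim_invRev.comp a))

lemma prim_lamW : Primrec lamW :=
  nat_sub.comp (list_length.comp (prim_reduce.comp (list_append.comp Primrec.id Primrec.id)))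
    (list_length.comp prim_reduce)

lemma prim_keep (n : ℕ) : Primrec (keep n) :=
  listFilter (p := fun a : ℕ × Bool => a.1 < n) (nat_lt.comp fst (const n))

lemma prim_ok (n : ℕ) : PrimrecPred (ok n) := by
  have h : PrimrecRel fun (i : ℕ) (T : List Wd) => reduce (keep n (T.getD i [])) = [(i, true)] :=
    Primrec.eq.comp (prim_reduce.comp ((prim_keep n).comp ((list_getD []).comp snd fst)))
      (list_cons.comp (pair fst (const true)) (const []))
  exact (h.forall_mem_list.comp (const (List.range n)) Primrec.id).of_eq fun T => by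
    simp only [ok, List.mem_range, id]

lemma prim_cw (n : ℕ) : Primrec (cw (n := n)) :=
  list_map Primrec.id ((pair (fin_val.comp fst) snd).comp snd).to₂

lemma prim_tab : Primrec tab := option_getD.comp Primrec.decode (const [])

lemma prim_bL : Primrec₂ bL :=
  nat_rec (f := fun _ : ℕ => 0) (g := fun M q => Nat.pair M q.2 + 1) (const 0)
    (succ.comp (Primrec₂.natPair.comp fst (snd.comp snd))).to₂

lemma prim_pow : Primrec₂ ((· ^ ·) : ℕ → ℕ → ℕ) := Primrec₂.unpaired'.1 Nat.Primrec.pow

lemma prim_bAll (n : ℕ) : Primrec (bAll n) := by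
  have h1 : Primrec (bC n) := succ.comp (prim_bL.comp
    (prim_bL.comp (Primrec₂.natPair.comp Primrec.id (const 1)) Primrec.id) (const n))
  have h2 : Primrec (bN n) := nat_add.comp (nat_add.comp (const n) Primrec.id)
    (nat_double.comp (nat_double_succ.comp (nat_mul.comp Primrec.id nat_double_succ)))
  have h3 : Primrec bH := nat_mul.comp Primrec.id (nat_double_succ.comp (prim_pow.comp (const 8)
    (nat_mul.comp (prim_pow.comp (const 2) (nat_add.comp nat_double
      (nat_mul.comp (const 16) (nat_mul.comp Primrec.id Primrec.id))))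
      (succ.comp (nat_mul.comp (const 4) Primrec.id)))))
  have h4 : Primrec (bM n) := nat_add.comp (nat_add.comp (nat_mul.comp (const 4)
    (nat_mul.comp (const n) (nat_mul.comp Primrec.id (nat_mul.comp Primrec.id (const 4)))))
    (nat_mul.comp Primrec.id (const 2))) (const 2)
  exact h1.comp (h2.comp (h3.comp (h4.comp (nat_add.comp nat_double (const (n + 3))))))

lemma prim_Test (n : ℕ) : PrimrecPred (Test n) := by
  have h : PrimrecRel fun (c : ℕ) (p : List (Fin n × Bool) × List (Fin n × Bool)) =>
      ¬ ok n (tab c) ∨ lamW (sub (tab c) (cw p.1)) = lamW (sub (tab c) (cw p.2)) :=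
    ((prim_ok n).comp (prim_tab.comp fst)).not.or (Primrec.eq.comp
      (prim_lamW.comp (prim_sub.comp (prim_tab.comp fst) ((prim_cw n).comp (fst.comp snd))))
      (prim_lamW.comp (prim_sub.comp (prim_tab.comp fst) ((prim_cw n).comp (snd.comp snd)))))
  refine (h.forall_mem_list.comp (list_range.comp ((prim_bAll n).comp
    (nat_add.comp (list_length.comp fst) (list_length.comp snd)))) Primrec.id).of_eq fun p => ?_
  simp only [Test, List.mem_range, id, ← imp_iff_not_or]

end prim

lemma pair_mono {a b c d : ℕ} (h1 : a ≤ c) (h2 : b ≤ d) : Nat.pair a b ≤ Nat.pair c d := by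
  have e1 : Nat.pair a b ≤ Nat.pair c b := by
    rcases h1.eq_or_lt with rfl | h
    · rfl
    · exact (Nat.pair_lt_pair_left b h).le
  have e2 : Nat.pair c b ≤ Nat.pair c d := by
    rcases h2.eq_or_lt with rfl | h
    · rfl
    · exact (Nat.pair_lt_pair_right c h).le
  exact e1.trans e2

lemma encode_le {β : Type} [Encodable β] (M : ℕ) : ∀ (k : ℕ) (l : List β), l.length ≤ k →
    (∀ a ∈ l, Encodable.encode a ≤ M) → Encodable.encode l ≤ bL M k
  | _, [], _, _ => Nat.zero_le _
  | 0, _ :: _, h, _ => absurd h (by simp)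
  | k + 1, a :: l, h, h' => by
    rw [Encodable.encode_list_cons]
    exact Nat.succ_le_succ (pair_mono (h' a List.mem_cons_self) (encode_le M k l (by simpa using h)
      fun b hb => h' b (List.mem_cons_of_mem _ hb)))

variable {n : ℕ}

def psi (n : ℕ) (T : List Wd) : FreeGroup (Fin n) →* FreeGroup ℕ :=
  FreeGroup.lift fun x => mk (T.getD x [])

lemma psi_mk (T : List Wd) : ∀ w : List (Fin n × Bool), psi n T (mk w) = mk (sub T (cw w))
  | [] => by simp [← one_eq_mk, sub, cw]
  | (x, s) :: w => by
    rw [mk_cons, map_mul, psi_mk T w]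
    simp only [sub, cw, List.map_cons, List.flatMap_cons]
    rw [← mul_mk]
    congr 1
    cases s
    · rw [mk_false, map_inv, cond_false, ← inv_mk]; simp [psi]
    · rw [mk_true, cond_true]; simp [psi]

lemma lam_mk (w : Wd) : lam (mk w) = lamW w := by
  unfold lam lamW FreeGroup.norm
  rw [mul_mk, toWord_mk, toWord_mk]

lemma emb_rho : ∀ w : Wd, emb n (rho n (mk w)) = mk (keep n w)
  | [] => by simp [← one_eq_mk, keep]
  | (k, s) :: w => by
    rw [mk_cons, map_mul, map_mul, emb_rho w]
    unfold keep
    by_cases h : k < n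
    · rw [List.filter_cons_of_pos (by simpa using h), mk_cons (k, s) (List.filter _ _)]
      congr 1
      cases s
      · rw [mk_false]; simp [rho, emb, h]
      · rw [mk_true]; simp [rho, emb, h]
    · rw [List.filter_cons_of_neg (by simpa using h), rho_big _ (by simpa using h)]
      simp

lemma ok_iff (T : List Wd) : ok n T ↔ ∀ x : Fin n, rho n (psi n T (of x)) = of x := by
  have key : ∀ x : Fin n, reduce (keep n (T.getD x [])) = [(x.val, true)] ↔
      rho n (psi n T (of x)) = of x := by
    intro x
    rw [← toWord_mk, ← emb_rho, ← toWord_of, toWord_inj, psi, lift_apply_of]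
    constructor
    · intro h
      have := congrArg (rho n) h
      rw [rho_emb] at this
      rw [this]
      exact rho_emb (of x)
    · intro h; rw [h]; rfl
  exact ⟨fun h x => (key x).1 (h x x.2), fun h i hi => (key ⟨i, hi⟩).2 (h _)⟩

lemma exists_inp (x0 : Fin n) (φ : MulAut (FreeGroup (Fin n))) (u v : List (Fin n × Bool)) :
    ∃ I : Inp n, I.m = 2 * (u.length + v.length) + (n + 3) ∧ (∀ w, I.φ w = φ w) ∧
      (∀ w', w' <:+ u ++ u → ∃ i < I.m, I.g i = mk w') ∧
      (∀ w', w' <:+ v ++ v → ∃ i < I.m, I.g i = mk w') := by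
  let L := (u ++ u).tails ++ ((v ++ v).tails ++ (List.finRange n).map fun x => [(x, true)])
  have hL : L.length + 1 = 2 * (u.length + v.length) + (n + 3) := by
    simp [L]; omega
  let g : ℕ → FreeGroup (Fin n) := fun i =>
    if i = 0 then 1 else if mk (L.getD (i - 1) []) = 1 then of x0 else mk (L.getD (i - 1) [])
  have key : ∀ w ∈ L, ∃ i < L.length + 1, g i = mk w := by
    intro w hw
    by_cases h : mk w = 1
    · exact ⟨0, by omega, h.symm⟩
    · obtain ⟨i, h1, h2⟩ := List.getElem_of_mem hw
      refine ⟨i + 1, by omega, ?_⟩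
      have : L.getD i [] = w := by rw [List.getD_eq_getElem _ _ h1, h2]
      simp only [g, Nat.add_sub_cancel, this, if_neg h]
      simp
  refine ⟨⟨L.length + 1, g, φ.toMonoidHom, x0, φ.injective, by omega, rfl, ?_, ?_⟩, hL,
    fun _ => rfl, fun w h => key w ?_, fun w h => key w ?_⟩
  · intro i _ h
    by_contra hn
    simp only [g, if_neg hn] at h
    split_ifs at h with h1
    · exact of_ne_one _ h
    · exact h1 h
  · intro x
    exact key [(x, true)] (by simp [L])
  · exact List.mem_append_left _ ((List.mem_tails _ _).2 h)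
  · exact List.mem_append_right _ (List.mem_append_left _ ((List.mem_tails _ _).2 h))

theorem test_iff (p : List (Fin n × Bool) × List (Fin n × Bool)) :
    Test n p ↔ TransEquiv (mk p.1) (mk p.2) := by
  obtain ⟨u, v⟩ := p
  unfold TransEquiv
  simp only [cyclen_eq]
  constructor
  · intro h φ
    by_contra hn
    have x0 : Fin n := by
      cases u with
      | cons a _ => exact a.1
      | nil =>
        cases v with
        | cons a _ => exact a.1
        | nil => exact absurd rfl hn
    obtain ⟨I, a1, a2, a3, a4⟩ := exists_inp x0 φ u v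
    obtain ⟨Ψ, b1, b2, b3⟩ := witness I u v a3 a4 (by rwa [a2, a2])
    let T : List Wd := (List.finRange n).map fun x => (Ψ (of x)).toWord
    have e : psi n T = Ψ := by
      ext1 x
      simp [psi, T, mk_toWord]
    have hc : tab (Encodable.encode T) = T := by simp [tab]
    have := h (Encodable.encode T) ?_ (by rw [hc, ok_iff, e]; exact fun x => b1 _)
    · rw [hc, ← lam_mk, ← lam_mk, ← psi_mk, ← psi_mk, e] at this
      exact b3 this
    · rw [bAll, ← a1]
      apply Nat.lt_succ_of_le
      apply encode_le _ _ _ (by simp [T])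
      intro w hw
      obtain ⟨x, -, rfl⟩ := List.mem_map.1 hw
      apply encode_le _ _ _ (b2 x).1
      rintro ⟨k, s⟩ ha
      exact pair_mono ((b2 x).2 _ ha).le (by cases s <;> simp)
  · intro h c _ hc
    rw [← lam_mk, ← lam_mk, ← psi_mk, ← psi_mk]
    apply lam_eq_of_inj _ _ h
    have : (rho n).comp (psi n (tab c)) = MonoidHom.id _ := by
      ext1 x
      exact (ok_iff _).1 hc x
    exact Function.LeftInverse.injective (g := rho n) fun w => DFunLike.congr_fun this w

theorem decidable_te (n : ℕ) : PrimrecPred fun p : List (Fin n × Bool) × List (Fin n × Bool) =>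
    TransEquiv (mk p.1) (mk p.2) := (prim_Test n).of_eq test_iff

end Pool.Agent.Lib.MP_16bc4e_al
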