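import Pool.Agent.Lib.MP_16bc4e_al.Pot

namespace Pool.Agent.Lib.MP_16bc4e_al

open FreeGroup hiding map_inv map_mul map_one norm_one

variable {n : ℕ}

/-- the embedding of `F_n` -/
def emb (n : ℕ) : FreeGroup (Fin n) →* FreeGroup ℕ := FreeGroup.map Fin.val

/-- the retraction onto `F_n` -/
def rho (n : ℕ) : FreeGroup ℕ →* FreeGroup (Fin n) :=
  FreeGroup.lift fun k => if h : k < n then of ⟨k, h⟩ else 1

/-- doubling of the extra letters -/
def theta (n : ℕ) : FreeGroup ℕ →* FreeGroup ℕ :=
  FreeGroup.lift fun k => if k < n then of k else of k * of k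

/-- number of extra letters -/
def cnt (n : ℕ) (w : FreeGroup ℕ) : ℕ := w.toWord.countP fun a => n ≤ a.1

lemma rho_emb (a : FreeGroup (Fin n)) : rho n (emb n a) = a := by
  have : (rho n).comp (emb n) = MonoidHom.id _ := by
    ext x
    simp [rho, emb]
  exact DFunLike.congr_fun this a

lemma rho_theta (a : FreeGroup ℕ) : rho n (theta n a) = rho n a := by
  have : (rho n).comp (theta n) = rho n := by
    ext x
    by_cases h : x < n <;> simp [rho, theta, h]
  exact DFunLike.congr_fun this a

lemma rho_big (b : ℕ × Bool) (h : n ≤ b.1) : rho n (mk [b]) = 1 := by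
  obtain ⟨k, s⟩ := b
  have : ¬ k < n := by simpa using h
  cases s
  · rw [mk_false]; simp [rho, this]
  · rw [mk_true]; simp [rho, this]

lemma toWord_emb (a : FreeGroup (Fin n)) :
    (emb n a).toWord = a.toWord.map fun x => (x.1.val, x.2) := by
  have h : IsReduced (a.toWord.map fun x => (x.1.val, x.2)) := by
    have := isReduced_toWord (x := a)
    unfold FreeGroup.IsReduced at this ⊢
    rw [List.isChain_map]
    exact this.imp fun x y h1 h2 => h1 (Fin.ext h2)
  rw [← IsReduced.toWord_mk h]
  conv_lhs => rw [← mk_toWord (x := a)]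
  rfl

lemma norm_emb (a : FreeGroup (Fin n)) : norm (emb n a) = norm a := by
  unfold FreeGroup.norm
  rw [toWord_emb, List.length_map]

lemma emb_small (a : FreeGroup (Fin n)) : ∀ x ∈ (emb n a).toWord, x.1 < n := by
  intro x hx
  rw [toWord_emb] at hx
  obtain ⟨y, -, rfl⟩ := List.mem_map.1 hx
  exact y.1.2

def dbl (n : ℕ) (a : ℕ × Bool) : List (ℕ × Bool) := if a.1 < n then [a] else [a, a]

lemma theta_mk : ∀ l : List (ℕ × Bool), theta n (mk l) = mk (l.flatMap (dbl n))
  | [] => by simp [← one_eq_mk]
  | (k, s) :: l => by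
    rw [mk_cons, map_mul, theta_mk l, List.flatMap_cons, ← mul_mk]
    congr 1
    unfold dbl
    by_cases h : k < n
    · cases s
      · simp only [h, if_true, mk_false]; simp [theta, h]
      · simp only [h, if_true, mk_true]; simp [theta, h]
    · cases s
      · simp only [h, if_false, mk_cons (k, false) [_], mk_false]; simp [theta, h]
      · simp only [h, if_false, mk_cons (k, true) [_], mk_true]; simp [theta, h]

lemma head_dbl : ∀ l : List (ℕ × Bool), (l.flatMap (dbl n)).head? = l.head?
  | [] => rfl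
  | a :: l => by unfold dbl; rw [List.flatMap_cons]; split_ifs <;> rfl

lemma red_dbl : ∀ l : List (ℕ × Bool), IsReduced l → IsReduced (l.flatMap (dbl n))
  | [], _ => by simp
  | a :: l, h => by
    rw [isReduced_cons] at h
    have h1 : IsReduced (a :: l.flatMap (dbl n)) := by
      rw [isReduced_cons, head_dbl]
      exact ⟨red_dbl l h.1, h.2⟩
    rw [List.flatMap_cons, dbl]
    split_ifs
    · exact h1
    · exact isReduced_cons_cons'.2 ⟨(bar_ne a).symm, h1⟩

lemma length_dbl : ∀ l : List (ℕ × Bool),
    (l.flatMap (dbl n)).length = l.length + l.countP fun a => n ≤ a.1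
  | [] => rfl
  | a :: l => by
    rw [List.flatMap_cons, List.length_append, length_dbl l, List.countP_cons, dbl]
    by_cases h : a.1 < n
    · have : ¬ n ≤ a.1 := by omega
      simp [h, this]; omega
    · have : n ≤ a.1 := by omega
      simp [h, this]; omega

lemma toWord_theta (w : FreeGroup ℕ) : (theta n w).toWord = w.toWord.flatMap (dbl n) := by
  conv_lhs => rw [← mk_toWord (x := w), theta_mk]
  exact IsReduced.toWord_mk (red_dbl _ isReduced_toWord)

lemma norm_theta (w : FreeGroup ℕ) : norm (theta n w) = norm w + cnt n w := by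
  unfold FreeGroup.norm cnt
  rw [toWord_theta, length_dbl]

lemma cnt_le (w : FreeGroup ℕ) : cnt n w ≤ norm w := List.countP_le_length

lemma toWord_emb_mul (a : FreeGroup (Fin n)) (w : FreeGroup ℕ)
    (h : ∀ y ∈ w.toWord.head?, n ≤ y.1) :
    (emb n a * w).toWord = (emb n a).toWord ++ w.toWord := by
  have h1 : IsReduced ((emb n a).toWord ++ w.toWord) := by
    rw [isReduced_append]
    refine ⟨isReduced_toWord, isReduced_toWord, fun x hx y hy e => ?_⟩
    have := emb_small a x (List.mem_of_mem_getLast? hx)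
    have := h y hy
    rw [e, bar_fst] at this
    omega
  rw [← IsReduced.toWord_mk h1, ← mul_mk, mk_toWord, mk_toWord]

lemma cnt_emb (a : FreeGroup (Fin n)) : cnt n (emb n a) = 0 := by
  unfold cnt
  rw [List.countP_eq_zero]
  intro x hx
  have := emb_small a x hx
  simpa using this

/-- a conjugate of an extra letter -/
def om {γ : Type*} (n : ℕ) (b : γ → ℕ × Bool) (τ : γ → FreeGroup (Fin n)) (c : γ) :
    FreeGroup ℕ := emb n (τ c) * mk [b c] * (emb n (τ c))⁻¹

lemma cnt_path {γ : Type*} (b : γ → ℕ × Bool) (τ : γ → FreeGroup (Fin n))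
    (hb : ∀ c, n ≤ (b c).1) (hi : ∀ c c', (b c).1 = (b c').1 → τ c = τ c' → c = c')
    (a : FreeGroup (Fin n)) : ∀ (l : List γ) (c : γ), List.IsChain (· ≠ ·) (c :: l) →
      ∃ w : FreeGroup ℕ, ((c :: l).map (om n b τ)).prod * emb n a = emb n (τ c) * w ∧
        w.toWord.head? = some (b c) ∧ cnt n w = l.length + 1 := by
  have key : ∀ (c : γ) (R : FreeGroup ℕ), R.toWord.head? ≠ some (bar (b c)) →
      (mk [b c] * R).toWord.head? = some (b c) ∧ cnt n (mk [b c] * R) = cnt n R + 1 := by
    intro c R h
    rcases letter_mul_cases (b c) R with h1 | h1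
    · unfold cnt
      rw [h1.2, List.countP_cons]
      simp [hb c]
    · exact absurd (by rw [h1]; rfl) h
  intro l
  induction l with
  | nil =>
    intro c _
    have := key c (emb n ((τ c)⁻¹ * a)) (fun h => by
      have := emb_small _ _ (List.mem_of_mem_head? h)
      have := hb c
      rw [bar_fst] at *
      omega)
    refine ⟨_, ?_, this.1, by rw [this.2, cnt_emb]; rfl⟩
    simp [om, mul_assoc]
  | cons c' l ih =>
    intro c h
    rw [List.isChain_cons_cons] at h
    obtain ⟨w, h1, h2, h3⟩ := ih c' h.2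
    have h4 := toWord_emb_mul ((τ c)⁻¹ * τ c') w (fun y hy => by
      rw [h2] at hy
      rw [← Option.some.inj hy]; exact hb c')
    have := key c (emb n ((τ c)⁻¹ * τ c') * w) (fun h5 => by
      rw [h4] at h5
      by_cases h6 : (τ c)⁻¹ * τ c' = 1
      · rw [h6, map_one, toWord_one, List.nil_append, h2] at h5
        have h7 := congrArg Prod.fst (Option.some.inj h5)
        exact h.1 (hi _ _ h7.symm (inv_mul_eq_one.1 h6))
      · have h7 : (emb n ((τ c)⁻¹ * τ c')).toWord ≠ [] := by
          rw [toWord_emb]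
          simpa using h6
        rw [List.head?_append_of_ne_nil _ h7] at h5
        have := emb_small _ _ (List.mem_of_mem_head? h5)
        have := hb c
        rw [bar_fst] at *
        omega)
    refine ⟨_, ?_, this.1, ?_⟩
    · rw [List.map_cons, List.prod_cons, mul_assoc, h1]
      simp [om, mul_assoc]
    · rw [this.2]
      have h5 := cnt_emb ((τ c)⁻¹ * τ c')
      unfold cnt at h3 h5 ⊢
      rw [h4, List.countP_append, h3, h5]
      simp

lemma cnt_path' {γ : Type*} (b : γ → ℕ × Bool) (τ : γ → FreeGroup (Fin n))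
    (hb : ∀ c, n ≤ (b c).1) (hi : ∀ c c', (b c).1 = (b c').1 → τ c = τ c' → c = c')
    (a : FreeGroup (Fin n)) (l : List γ) (h : l.Nodup) :
    cnt n ((l.map (om n b τ)).prod * emb n a) = l.length := by
  cases l with
  | nil => simp [cnt_emb]
  | cons c l =>
    obtain ⟨w, h1, h2, h3⟩ := cnt_path b τ hb hi a l c (List.Pairwise.isChain h)
    have h4 := toWord_emb_mul (τ c) w (fun y hy => by
      rw [h2] at hy
      rw [← Option.some.inj hy]; exact hb c)
    have h5 := cnt_emb (τ c)
    unfold cnt at h3 h5 ⊢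
    rw [h1, h4, List.countP_append, h3, h5]
    simp

/-- elements whose reduced words use letters below `N` -/
def LtS (N : ℕ) : Subgroup (FreeGroup ℕ) where
  carrier := {w | ∀ a ∈ w.toWord, a.1 < N}
  mul_mem' := by
    intro a b ha hb x hx
    rcases List.mem_append.1 ((toWord_mul_sublist a b).subset hx) with h | h
    · exact ha x h
    · exact hb x h
  one_mem' := by intro x hx; simp at hx
  inv_mem' := by
    intro a ha x hx
    rw [toWord_inv, invRev_eq, List.mem_reverse] at hx
    obtain ⟨y, h, rfl⟩ := List.mem_map.1 hx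
    exact ha y h

lemma emb_mem {N : ℕ} (h : n ≤ N) (a : FreeGroup (Fin n)) : emb n a ∈ LtS N :=
  fun x hx => lt_of_lt_of_le (emb_small a x hx) h

lemma letter_mem {N : ℕ} (b : ℕ × Bool) (h : b.1 < N) : mk [b] ∈ LtS N := by
  intro x hx
  rw [IsReduced.toWord_mk IsReduced.singleton] at hx
  rw [List.mem_singleton.1 hx]
  exact h

lemma theta_mem {N : ℕ} {w : FreeGroup ℕ} (h : w ∈ LtS N) : theta n w ∈ LtS N := by
  intro x hx
  rw [toWord_theta, List.mem_flatMap] at hx
  obtain ⟨y, h1, h2⟩ := hx
  have : x = y := by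
    unfold dbl at h2
    split_ifs at h2 <;> simpa using h2
  rw [this]
  exact h y h1

lemma norm_prod_le {β : Type*} [DecidableEq β] (H : ℕ) : ∀ l : List (FreeGroup β),
    (∀ a ∈ l, norm a ≤ H) → norm l.prod ≤ l.length * H
  | [], _ => by simp
  | a :: l, h => by
    have h1 := norm_prod_le H l (fun b hb => h b (List.mem_cons_of_mem _ hb))
    have h2 := h a List.mem_cons_self
    have h3 := norm_mul_le a l.prod
    rw [List.prod_cons, List.length_cons, add_mul]
    omega

lemma exists_code {γ : Type*} [Countable γ] (s : Finset γ) :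
    ∃ f : γ → ℕ, Function.Injective f ∧ ∀ c ∈ s, f c < s.card := by
  classical
  obtain ⟨e, he⟩ := exists_injective_nat γ
  refine ⟨fun c => if h : c ∈ s then (s.equivFin ⟨c, h⟩ : ℕ) else s.card + e c, ?_, ?_⟩
  · intro c c' h
    by_cases h1 : c ∈ s <;> by_cases h2 : c' ∈ s <;> simp only [h1, h2, dif_pos, dif_neg,
      not_false_iff] at h
    · simpa using s.equivFin.injective (Fin.ext h)
    · have := (s.equivFin ⟨c, h1⟩).2; omega
    · have := (s.equivFin ⟨c', h2⟩).2; omega
    · exact he (by omega)
  · intro c hc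
    simp only [hc, dif_pos]
    exact (s.equivFin ⟨c, hc⟩).2

end Pool.Agent.Lib.MP_16bc4e_al
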