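import Pool.Agent.Lib.MP_16bc4e_al.Forget

namespace Pool.Agent.Lib.MP_16bc4e_al

variable {ι : Type} [DecidableEq ι]

structure HC (X : Sys ι) (j1 : ι) (s1 : Bool) (j2 : ι) (s2 : Bool) : Prop where
  ne : j1 ≠ j2
  len2 : X.len j2 = 0
  a1 : ∀ s, X.act (j1, s)
  a2 : X.act (j2, s2)
  a3 : ¬ X.act (j2, !s2)
  alone : ∀ β, X.act β → X.line β = X.line (j2, s2) → β = (j2, s2)

/-- split band `j1` into two consecutive bands through the line of the marker `(j2, s2)` -/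
def Sys.unC (X : Sys ι) (j1 : ι) (s1 : Bool) (j2 : ι) (s2 : Bool) : Sys ι where
  act β := X.act β ∨ β = (j2, !s2)
  line β := if β = (j2, !s2) then X.line (j1, s1) else if β = (j1, s1) then X.line (j2, s2)
    else X.line β
  dir β := if β = (j2, !s2) then X.dir (j1, s1) else if β = (j1, s1) then X.dir (j2, s2)
    else X.dir β
  x0 β := if β = (j2, !s2) then X.x0 (j1, s1) else if β = (j1, s1) then X.x0 (j2, s2)
    else X.x0 β
  len i := if i = j2 then X.len j1 else X.len i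

variable {X Y : Sys ι} {j1 j2 : ι} {s1 s2 : Bool}

omit [DecidableEq ι] in
lemma HC.sim (h : HC X j1 s1 j2 s2) (hs : Sim X Y) (hv : Y.Val) : HC Y j1 s1 j2 s2 :=
  ⟨h.ne, hs.len_zero hv _ h.len2, fun s => (hs.act _).1 (h.a1 s), (hs.act _).1 h.a2,
    fun h' => h.a3 ((hs.act _).2 h'), fun β a l =>
      h.alone β ((hs.act _).2 a) ((hs.line _ _ ((hs.act _).2 a) h.a2).2 l)⟩

lemma HC.cases (β : ι × Bool) (j1 : ι) (s1 : Bool) (j2 : ι) (s2 : Bool) :
    β = (j2, !s2) ∨ β = (j1, s1) ∨ β = (j2, s2) ∨ (β.1 ≠ j2 ∧ β ≠ (j1, s1)) := by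
  obtain ⟨i, s⟩ := β
  by_cases h1 : i = j2
  · subst h1; cases s <;> cases s2 <;> simp
  · by_cases h2 : (i, s) = (j1, s1)
    · simp [h2]
    · simp [h1, h2]

lemma HC.pos (h : HC X j1 s1 j2 s2) (e : Ep ι) : (X.unC j1 s1 j2 s2).pos e =
    if e.1 = (j2, !s2) then X.pos ((j1, s1), e.2)
    else if e.1 = (j1, s1) ∨ e.1 = (j2, s2) then
      (if e.2 then X.pt (j2, s2) (X.len j1) else X.x0 (j2, s2))
    else X.pos e := by
  obtain ⟨β, r⟩ := e
  have hne := h.ne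
  rcases HC.cases β j1 s1 j2 s2 with rfl | rfl | rfl | ⟨h1, h2⟩
  · simp [Sys.pos, Sys.pt, Sys.unC]
  · simp [Sys.pos, Sys.pt, Sys.unC, hne]
  · simp [Sys.pos, Sys.pt, Sys.unC, hne.symm]
  · have h3 : β ≠ (j2, !s2) := by rintro rfl; exact h1 rfl
    have h4 : β ≠ (j2, s2) := by rintro rfl; exact h1 rfl
    simp [Sys.pos, Sys.pt, Sys.unC, h1, h2, h3, h4]

lemma HC.val (h : HC X j1 s1 j2 s2) (hv : X.Val) : (X.unC j1 s1 j2 s2).Val := by
  intro j s hj
  by_cases h1 : j = j2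
  · subst h1
    by_cases h2 : s = s2
    · subst h2; exact Or.inl h.a2
    · right; cases s <;> cases s2 <;> simp_all
  · simp only [Sys.unC, if_neg h1] at hj
    exact Or.inl (hv j s hj)

lemma HC.line_mid (h : HC X j1 s1 j2 s2) (β : ι × Bool) (ha : (X.unC j1 s1 j2 s2).act β) :
    (X.unC j1 s1 j2 s2).line β = X.line (j2, s2) ↔ β = (j1, s1) ∨ β = (j2, s2) := by
  have hne := h.ne
  rcases HC.cases β j1 s1 j2 s2 with rfl | rfl | rfl | ⟨h1, h2⟩
  · have : X.line (j1, s1) ≠ X.line (j2, s2) := fun l => by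
      have := h.alone _ (h.a1 s1) l
      simp [hne] at this
    simp [Sys.unC, this, hne.symm]
  · simp [Sys.unC, hne]
  · simp [Sys.unC, hne.symm]
  · have h3 : β ≠ (j2, !s2) := by rintro rfl; exact h1 rfl
    have h4 : β ≠ (j2, s2) := by rintro rfl; exact h1 rfl
    have : X.line β ≠ X.line (j2, s2) := fun l => h4 (h.alone _ (ha.resolve_right h3) l)
    simp [Sys.unC, h2, h3, h4, this]

lemma HC.sim_unC (h : HC X j1 s1 j2 s2) (hs : Sim X Y) (hX : X.Val) (hv : Y.Val) :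
    Sim (X.unC j1 s1 j2 s2) (Y.unC j1 s1 j2 s2) := by
  have h' := h.sim hs hv
  have hact : ∀ β, (X.unC j1 s1 j2 s2).act β ↔ (Y.unC j1 s1 j2 s2).act β := fun β => by
    simp only [Sys.unC, hs.act β]
  let m : ι × Bool → ι × Bool := fun β =>
    if β = (j2, !s2) then (j1, s1) else if β = (j1, s1) then (j2, s2) else β
  have hm : ∀ β, (X.unC j1 s1 j2 s2).act β → X.act (m β) := by
    intro β ha
    simp only [m]
    split_ifs with h1 h2
    · exact h.a1 s1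
    · exact h.a2
    · exact ha.resolve_right h1
  have hl : ∀ (Z : Sys ι) β, (Z.unC j1 s1 j2 s2).line β = Z.line (m β) := by
    intro Z β; simp only [Sys.unC, m]; split_ifs <;> rfl
  have hd : ∀ (Z : Sys ι) β, (Z.unC j1 s1 j2 s2).dir β = Z.dir (m β) := by
    intro Z β; simp only [Sys.unC, m]; split_ifs <;> rfl
  refine ⟨hact, ?_, ?_, ?_⟩
  · intro β a
    rw [hd, hd, hs.dir _ (hm β a)]
  · intro β β' a b
    rw [hl, hl, hl, hl]
    exact hs.line _ _ (hm β a) (hm β' b)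
  · intro e e' a b c
    by_cases h1 : e.1 = (j1, s1) ∨ e.1 = (j2, s2)
    · have h2 : e'.1 = (j1, s1) ∨ e'.1 = (j2, s2) :=
        (h.line_mid _ b).1 (c.symm.trans ((h.line_mid _ a).2 h1))
      have n1 : e.1 ≠ (j2, !s2) := by
        rcases h1 with h1 | h1 <;> rw [h1] <;> simp [h.ne]
      have n2 : e'.1 ≠ (j2, !s2) := by
        rcases h2 with h1 | h1 <;> rw [h1] <;> simp [h.ne]
      rw [h.pos, h.pos, h'.pos, h'.pos]
      simp only [if_neg n1, if_neg n2, if_pos h1, if_pos h2, Sys.pt, ← hs.dir _ h.a2]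
      have z1 := hs.len_zero hv j1
      have z2 := hs.symm.len_zero hX j1
      split_ifs <;> omega
    · have h2 : ¬ (e'.1 = (j1, s1) ∨ e'.1 = (j2, s2)) := fun h2 =>
        h1 ((h.line_mid _ a).1 (c.trans ((h.line_mid _ b).2 h2)))
      have hp : ∀ Z : Sys ι, HC Z j1 s1 j2 s2 → ∀ e : Ep ι, ¬ (e.1 = (j1, s1) ∨ e.1 = (j2, s2)) →
          (Z.unC j1 s1 j2 s2).pos e = Z.pos (m e.1, e.2) := by
        intro Z hZ e he
        rw [hZ.pos, if_neg he]
        simp only [m]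
        split_ifs with h3 h4
        · rfl
        · exact absurd (Or.inl h4) he
        · rfl
      rw [hp X h e h1, hp X h e' h2, hp Y h' e h1, hp Y h' e' h2]
      rw [hl, hl] at c
      exact hs.le _ _ (hm _ a) (hm _ b) c

/-- correspondence of ends -/
def phiC (j1 : ι) (s1 : Bool) (j2 : ι) (s2 : Bool) (p : (ι × ℕ) × Bool) : (ι × ℕ) × Bool :=
  if p.1.1 = j1 ∧ p.2 = s1 then ((j2, p.1.2), !s2) else p

lemma HC.cl_phi (_h : HC X j1 s1 j2 s2) (p : (ι × ℕ) × Bool) (hp : p.1.1 ≠ j2) :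
    (X.unC j1 s1 j2 s2).cl (phiC j1 s1 j2 s2 p).1 (phiC j1 s1 j2 s2 p).2 = X.cl p.1 p.2 := by
  obtain ⟨⟨i, k⟩, s⟩ := p
  unfold phiC
  split_ifs with h1
  · obtain ⟨rfl, rfl⟩ := h1
    simp [Sys.cl, Sys.cz, Sys.unC]
  · have h2 : ¬ (i = j1 ∧ s = s1) := h1
    have h3 : i ≠ j2 := hp
    simp [Sys.cl, Sys.cz, Sys.unC, h2, h3]

lemma phiC_inj (p q : (ι × ℕ) × Bool) (hp : p.1.1 ≠ j2) (hq : q.1.1 ≠ j2)
    (h : phiC j1 s1 j2 s2 p = phiC j1 s1 j2 s2 q) : p = q := by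
  obtain ⟨⟨i, k⟩, s⟩ := p
  obtain ⟨⟨i', k'⟩, s'⟩ := q
  unfold phiC at h
  split_ifs at h with h1 h2 h2
  · simp only [Prod.mk.injEq] at h1 h2 h ⊢
    exact ⟨⟨h1.1.trans h2.1.symm, h.1.2⟩, h1.2.trans h2.2.symm⟩
  · simp only [Prod.mk.injEq] at h; exact absurd h.1.1.symm hq
  · simp only [Prod.mk.injEq] at h; exact absurd h.1.1 hp
  · exact h

lemma HC.cl_mid (h : HC X j1 s1 j2 s2) (k : ℕ) :
    (X.unC j1 s1 j2 s2).cl (j1, k) s1 = (X.line (j2, s2), X.cz (j2, s2) k) ∧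
    (X.unC j1 s1 j2 s2).cl (j2, k) s2 = (X.line (j2, s2), X.cz (j2, s2) k) := by
  have := h.ne
  simp [Sys.cl, Sys.cz, Sys.unC, this, this.symm]

lemma phiC_surj (p : (ι × ℕ) × Bool) (hne : j1 ≠ j2) (h1 : (p.1.1, p.2) ≠ (j1, s1))
    (h2 : (p.1.1, p.2) ≠ (j2, s2)) : ∃ q : (ι × ℕ) × Bool, phiC j1 s1 j2 s2 q = p ∧ q.1.1 ≠ j2 ∧
      (q.1 = p.1 ∨ (p.1.1 = j2 ∧ q.1 = (j1, p.1.2))) := by
  obtain ⟨⟨i, k⟩, s⟩ := p
  by_cases h3 : i = j2
  · subst h3
    refine ⟨((j1, k), s1), ?_, hne, Or.inr ⟨rfl, rfl⟩⟩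
    have : s = !s2 := by cases s <;> cases s2 <;> simp_all
    simp [phiC, this]
  · refine ⟨((i, k), s), ?_, h3, Or.inl rfl⟩
    unfold phiC
    rw [if_neg]
    simpa using h1

lemma HC.acyc_of (h : HC X j1 s1 j2 s2) (ha : (X.unC j1 s1 j2 s2).Acyc) : X.Acyc := by
  intro F hF hne
  have hj : ∀ e ∈ F, e.1 ≠ j2 := by
    intro e he h1
    have := hF he
    simp only [Sys.Ed, Set.mem_ofPred_eq, h1, h.len2] at this
    omega
  obtain ⟨e, he, s, hs⟩ := ha (F ∪ {e | e.1 = j2 ∧ (j1, e.2) ∈ F}) (by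
    rintro ⟨i, k⟩ (h1 | ⟨h1, h2⟩)
    · have := hF h1
      have h3 := hj _ h1
      simp only [Sys.Ed, Set.mem_ofPred_eq, Sys.unC] at this h3 ⊢
      rwa [if_neg h3]
    · have := hF h2
      simp only [Sys.Ed, Set.mem_ofPred_eq, Sys.unC] at this h1 ⊢
      rwa [if_pos h1]) (hne.mono Set.subset_union_left)
  obtain ⟨i, k⟩ := e
  have n1 : (i, s) ≠ (j1, s1) := by
    intro h1
    simp only [Prod.mk.injEq] at h1
    obtain ⟨rfl, rfl⟩ := h1
    have h2 : (i, k) ∈ F := he.resolve_right (fun h3 => h.ne h3.1)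
    have := (hs (j2, k) (Or.inr ⟨rfl, h2⟩) s2 ((h.cl_mid k).2.trans (h.cl_mid k).1.symm)).1
    simp only [Prod.mk.injEq] at this
    exact h.ne this.1.symm
  have n2 : (i, s) ≠ (j2, s2) := by
    intro h1
    simp only [Prod.mk.injEq] at h1
    obtain ⟨rfl, rfl⟩ := h1
    have h2 : (j1, k) ∈ F := (he.resolve_left (fun h3 => hj _ h3 rfl)).2
    have := (hs (j1, k) (Or.inl h2) s1 ((h.cl_mid k).1.trans (h.cl_mid k).2.symm)).1
    simp only [Prod.mk.injEq] at this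
    exact h.ne this.1
  obtain ⟨q, hq, hq2, hq3⟩ := phiC_surj ((i, k), s) h.ne n1 n2
  have hqF : q.1 ∈ F := by
    rcases hq3 with h1 | ⟨h1, h2⟩
    · rw [h1] at hq2 ⊢
      exact he.resolve_right (fun h3 => hq2 h3.1)
    · rw [h2]
      exact (he.resolve_left (fun h3 => hj _ h3 h1)).2
  refine ⟨q.1, hqF, q.2, fun e' he' s' hc => ?_⟩
  have h1 := h.cl_phi (e', s') (hj _ he')
  have h2 := h.cl_phi q hq2
  rw [hq] at h2
  have h3 := hs (phiC j1 s1 j2 s2 (e', s')).1 (by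
    unfold phiC
    split_ifs with h4
    · right; exact ⟨rfl, by rw [← h4.1]; exact he'⟩
    · left; exact he') (phiC j1 s1 j2 s2 (e', s')).2 (by rw [h1, h2]; exact hc)
  have h4 : (e', s') = q := phiC_inj _ _ (hj _ he') hq2 (by rw [hq]; exact Prod.ext h3.1 h3.2)
  rw [← h4]; exact ⟨rfl, rfl⟩

lemma HC.acyc (h : HC X j1 s1 j2 s2) (hv : X.Val) (ha : X.Acyc) : (X.unC j1 s1 j2 s2).Acyc := by
  intro F hF hne
  have hact : ∀ e ∈ F, ∀ s, (X.unC j1 s1 j2 s2).act (e.1, s) := fun e he s =>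
    h.val hv _ _ (by have := hF he; simp only [Sys.Ed, Set.mem_ofPred_eq] at this; omega)
  have hmid : ∀ k, ∀ e ∈ F, ∀ s, (X.unC j1 s1 j2 s2).cl e s = (X.line (j2, s2), X.cz (j2, s2) k) →
      (e = (j1, k) ∧ s = s1) ∨ (e = (j2, k) ∧ s = s2) := by
    rintro k ⟨i, k'⟩ he s hc
    have h1 := (h.line_mid _ (hact _ he s)).1 (congrArg Prod.fst hc)
    simp only [Prod.mk.injEq] at h1
    rcases h1 with ⟨rfl, rfl⟩ | ⟨rfl, rfl⟩
    · rw [(h.cl_mid k').1] at hc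
      simp only [Prod.mk.injEq, Sys.cz, true_and] at hc
      left; refine ⟨?_, rfl⟩; congr 1; split_ifs at hc <;> omega
    · rw [(h.cl_mid k').2] at hc
      simp only [Prod.mk.injEq, Sys.cz, true_and] at hc
      right; refine ⟨?_, rfl⟩; congr 1; split_ifs at hc <;> omega
  by_cases h1 : ∃ k, (j1, k) ∈ F ∧ (j2, k) ∉ F
  · obtain ⟨k, h1, h2⟩ := h1
    refine ⟨_, h1, s1, fun e' he' s' hc => ?_⟩
    rw [(h.cl_mid k).1] at hc
    exact (hmid k e' he' s' hc).resolve_right (fun h3 => h2 (h3.1 ▸ he'))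
  by_cases h2 : ∃ k, (j2, k) ∈ F ∧ (j1, k) ∉ F
  · obtain ⟨k, h1, h2⟩ := h2
    refine ⟨_, h1, s2, fun e' he' s' hc => ?_⟩
    rw [(h.cl_mid k).2] at hc
    exact (hmid k e' he' s' hc).resolve_left (fun h3 => h2 (h3.1 ▸ he'))
  push Not at h1 h2
  obtain ⟨e, ⟨he, hj⟩, s, hs⟩ := ha {e | e ∈ F ∧ e.1 ≠ j2} (by
    rintro ⟨i, k⟩ ⟨h3, h4⟩
    have := hF h3
    simp only [Sys.Ed, Set.mem_ofPred_eq, Sys.unC] at this h4 ⊢
    rwa [if_neg h4] at this) (by
    obtain ⟨⟨i, k⟩, he⟩ := hne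
    by_cases h3 : i = j2
    · subst h3; exact ⟨(j1, k), h2 k he, h.ne⟩
    · exact ⟨(i, k), he, h3⟩)
  have h3 := h.cl_phi (e, s) hj
  refine ⟨(phiC j1 s1 j2 s2 (e, s)).1, ?_, (phiC j1 s1 j2 s2 (e, s)).2, fun e' he' s' hc => ?_⟩
  · unfold phiC
    split_ifs with h4
    · exact h1 _ (by rw [← h4.1]; exact he)
    · exact he
  · rw [h3] at hc
    have hXa : X.act (e.1, s) := hv _ _ (by
      have := hF he
      simp only [Sys.Ed, Set.mem_ofPred_eq, Sys.unC] at this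
      rw [if_neg hj] at this; omega)
    have hn : ¬ ((e'.1, s') = (j1, s1) ∨ (e'.1, s') = (j2, s2)) := by
      intro h4
      have h5 := (h.line_mid _ (hact _ he' s')).2 h4
      have h6 : (X.unC j1 s1 j2 s2).line (e'.1, s') = X.line (e.1, s) := congrArg Prod.fst hc
      have := h.alone _ hXa (h6.symm.trans h5)
      exact hj (congrArg Prod.fst this)
    push Not at hn
    obtain ⟨q, hq, hq2, hq3⟩ := phiC_surj (e', s') h.ne hn.1 hn.2
    have hqF : q.1 ∈ F := by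
      rcases hq3 with h4 | ⟨h4, h5⟩
      · rw [h4]; exact he'
      · rw [h5]; exact h2 _ (by rw [← h4]; exact he')
    have h4 := h.cl_phi q hq2
    rw [hq] at h4
    obtain ⟨h5, h6⟩ := hs q.1 ⟨hqF, hq2⟩ q.2 (h4.symm.trans hc)
    have : q = (e, s) := Prod.ext h5 h6
    rw [← this, hq]; exact ⟨rfl, rfl⟩

lemma HC.step (h : HC X j1 s1 j2 s2) (hX : X.Val) : Step (X.unC j1 s1 j2 s2) X := by
  classical
  let f : (Ep ι → ℚ) → (Ep ι → ℚ) := fun v e =>
    if e.1 = (j2, !s2) then v ((j1, s1), e.2)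
    else if e.1 = (j1, s1) ∨ e.1 = (j2, s2) then
      (if e.2 then v ((j2, s2), false) + (if X.dir (j2, s2) = X.dir (j1, s1) then 1 else -1) *
        (v ((j1, s1), true) - v ((j1, s1), false)) else v ((j2, s2), false))
    else v e
  have key : ∀ Y : Sys ι, Y.Val → Sim X Y → (Y.unC j1 s1 j2 s2).vec = f Y.vec := by
    intro Y hv hs
    have h' := h.sim hs hv
    funext e
    simp only [f, Sys.vec, h'.pos, if_pos (h'.a1 s1), if_pos h'.a2, hs.dir _ h.a2,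
      hs.dir _ (h.a1 s1), Sys.pos_true, Sys.pos_false, Sys.pt]
    by_cases h1 : e.1 = (j2, !s2)
    · rw [if_pos (show (Y.unC j1 s1 j2 s2).act e.1 from Or.inr h1), if_pos h1, if_pos h1]
    · rw [if_neg h1, if_neg h1]
      by_cases h2 : e.1 = (j1, s1) ∨ e.1 = (j2, s2)
      · rw [if_pos (show (Y.unC j1 s1 j2 s2).act e.1 from Or.inl (by
          rcases h2 with h2 | h2 <;> rw [h2]
          · exact h'.a1 s1
          · exact h'.a2)), if_pos h2, if_pos h2]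
        cases e.2 <;> cases Y.dir (j2, s2) <;> cases Y.dir (j1, s1) <;> simp <;> ring
      · rw [if_neg h2, if_neg h2]
        by_cases h3 : Y.act e.1
        · rw [if_pos (show (Y.unC j1 s1 j2 s2).act e.1 from Or.inl h3), if_pos h3]
        · rw [if_neg (show ¬ (Y.unC j1 s1 j2 s2).act e.1 from fun h4 => h3 (h4.resolve_right h1)),
            if_neg h3]
  apply step_lin f
  · constructor
    · intro a b; funext e; simp only [f, Pi.add_apply]; split_ifs <;> ring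
    · intro a b; funext e; simp only [f, Pi.smul_apply, smul_eq_mul]; split_ifs <;> ring
  · exact key X hX (Sim.refl X)
  · intro k Y hv ha hs hsim
    have h' := h.sim hsim hv
    refine ⟨Y.unC j1 s1 j2 s2, h'.val hv, h'.acyc hv ha, ?_, h.sim_unC hsim hX hv, key Y hv hsim⟩
    intro e he
    rw [h'.pos]
    have b1 := abs_le.1 (hs ((j1, s1), true) (h'.a1 s1))
    have b2 := abs_le.1 (hs ((j1, s1), false) (h'.a1 s1))
    have b3 := abs_le.1 (hs ((j2, s2), false) h'.a2)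
    simp only [Sys.pos_true, Sys.pos_false] at b1 b2 b3
    split_ifs with h1 h2 h3
    · exact hs.succ _ (h'.a1 s1)
    · rw [pow_succ, abs_le, Sys.pt]
      split_ifs at b1 ⊢ <;> constructor <;> omega
    · exact hs.succ ((j2, s2), false) h'.a2
    · exact hs.succ _ (he.resolve_right h1)

end Pool.Agent.Lib.MP_16bc4e_al
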