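import Pool.Agent.Lib.MP_16bc4e_al.Init

namespace Pool.Agent.Lib.MP_16bc4e_al

open FreeGroup hiding map_inv map_mul map_one norm_one

lemma lk_left {ι : Type} {n : ℕ} (D : Dat ι n) (r : Ep ι → Ep ι → Prop) (x : Fin n)
    {e f : Ep ι} (h : Relation.EqvGen (D.SameV r) e f) (e' : Ep ι) :
    Relation.EqvGen (D.Lk r x) (e, e') (f, e') := by
  induction h with
  | rel a b h => exact .rel _ _ (Or.inl ⟨h, rfl⟩)
  | refl => exact .refl _
  | symm _ _ _ ih => exact ih.symm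
  | trans _ _ _ _ _ a b => exact .trans _ _ _ a b

lemma lk_right {ι : Type} {n : ℕ} (D : Dat ι n) (r : Ep ι → Ep ι → Prop) (x : Fin n)
    {e f : Ep ι} (h : Relation.EqvGen (D.SameV r) e f) (e' : Ep ι) :
    Relation.EqvGen (D.Lk r x) (e', e) (e', f) := by
  induction h with
  | rel a b h => exact .rel _ _ (Or.inr (Or.inl ⟨rfl, h⟩))
  | refl => exact .refl _
  | symm _ _ _ ih => exact ih.symm
  | trans _ _ _ _ _ a b => exact .trans _ _ _ a b

namespace Inp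

variable {n : ℕ} (I : Inp n)

noncomputable def VE (e : Ep I.Ix) : FreeGroup (Fin n) :=
  Pv I.A (I.S.line e.1) (I.S.pos e).toNat

lemma pos_eq (e : Ep I.Ix) : I.S.pos e = I.S.pt e.1 ((if e.2 then I.S.len e.1.1 else 0 : ℕ) : ℤ) := by
  obtain ⟨β, _ | _⟩ := e
  · simp [Sys.pos, Sys.pt]
  · simp [Sys.pos]

lemma on_ep (e : Ep I.Ix) (h : I.S.act e.1) : I.S.line e.1 < I.m ∧
    (sA I.A (I.S.line e.1) : ℤ) ≤ I.S.pos e ∧ I.S.pos e ≤ norm (I.A (I.S.line e.1)) := by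
  rw [pos_eq]
  exact I.on_line e.1 h _ (by split_ifs <;> omega)

lemma VE_false (β : I.Ix × Bool) : I.VE (β, false) = I.V β 0 := by
  unfold VE V; rw [pos_eq]; rfl

lemma VE_true (β : I.Ix × Bool) : I.VE (β, true) = I.V β (I.S.len β.1) := rfl

lemma st_spec {i : ℕ} (h : i < I.m) : I.S.act (I.D.st i).1 ∧ I.S.line (I.D.st i).1 = i ∧
    I.S.pos (I.D.st i) = sA I.A i :=
  ⟨trivial, I.fin_val h, by
    change (sA I.A (I.fin i) : ℤ) = _
    rw [I.fin_val h]⟩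

lemma mm_spec {i : ℕ} (h : i < I.m) : I.S.act (I.D.mm i).1 ∧
    I.S.line (I.D.mm i).1 = parA I.A i ∧ I.S.pos (I.D.mm i) = sA I.A i :=
  ⟨trivial, by
    change parA I.A (I.fin i) = _
    rw [I.fin_val h], by
    change (sA I.A (I.fin i) : ℤ) = _
    rw [I.fin_val h]⟩

lemma en_spec {i : ℕ} (h : i < I.m) : I.S.act (I.D.en i).1 ∧ I.S.line (I.D.en i).1 = i ∧
    I.S.pos (I.D.en i) = norm (I.A i) :=
  ⟨trivial, I.fin_val h, by
    change (norm (I.A (I.fin i)) : ℤ) = _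
    rw [I.fin_val h]⟩

lemma VE_en {i : ℕ} (h : i < I.m) : I.VE (I.D.en i) = I.A i := by
  unfold VE
  rw [(I.en_spec h).2.1, (I.en_spec h).2.2, Int.toNat_natCast, Pv_norm]

lemma down (e e' : Ep I.Ix) (h : I.S.act e.1) (h' : I.S.act e'.1) (hv : I.VE e = I.VE e')
    (hl : I.S.line e'.1 < I.S.line e.1) : ∃ f, I.S.act f.1 ∧ I.VE f = I.VE e ∧
      I.S.line f.1 < I.S.line e.1 ∧ Relation.EqvGen (I.D.SameV I.S.rel) e f := by
  obtain ⟨a1, a2, a3⟩ := I.on_ep e h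
  obtain ⟨b1, b2, b3⟩ := I.on_ep e' h'
  have c := two_lines (A := I.A) (by omega) (by omega) (by omega) hv hl
  obtain ⟨s1, s2, s3⟩ := I.st_spec a1
  obtain ⟨m1, m2, m3⟩ := I.mm_spec a1
  have d := (parA_spec (A := I.A) (show 0 < I.S.line e.1 by omega)).1
  refine ⟨I.D.mm (I.S.line e.1), m1, ?_, by omega, .trans _ (I.D.st (I.S.line e.1)) _
    (.rel _ _ (Or.inl ⟨⟨h, s1, s2.symm, by omega⟩, ⟨s1, h, s2, by omega⟩⟩))
    (.rel _ _ (Or.inr ⟨_, a1, d, rfl, rfl⟩))⟩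
  unfold VE
  rw [m2, m3, c, Int.toNat_natCast, (parA_le _).2.2.2]

lemma sameV (e e' : Ep I.Ix) (h : I.S.act e.1) (h' : I.S.act e'.1) (hv : I.VE e = I.VE e') :
    Relation.EqvGen (I.D.SameV I.S.rel) e e' := by
  generalize hN : I.S.line e.1 + I.S.line e'.1 = N
  induction N using Nat.strong_induction_on generalizing e e' with
  | _ N ih =>
  rcases lt_trichotomy (I.S.line e.1) (I.S.line e'.1) with h1 | h1 | h1
  · obtain ⟨f, a1, a2, a3, a4⟩ := I.down e' e h' h hv.symm h1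
    exact .trans _ _ _ (ih _ (by omega) e f h a1 (hv.trans a2.symm) rfl) a4.symm
  · obtain ⟨a1, a2, a3⟩ := I.on_ep e h
    obtain ⟨b1, b2, b3⟩ := I.on_ep e' h'
    have := (Pv_eq (A := I.A) (by omega) (by omega) hv).1
    exact .rel _ _ (Or.inl ⟨⟨h, h', h1, by omega⟩, ⟨h', h, h1.symm, by omega⟩⟩)
  · obtain ⟨f, a1, a2, a3, a4⟩ := I.down e e' h h' hv h1
    exact .trans _ _ _ a4 (ih _ (by omega) f e' a1 h' (a2.trans hv) rfl)

lemma to_root (x : Fin n) (i0 : ℕ) (h0 : i0 < I.m) (hx : I.g i0 = of x) (e e' : Ep I.Ix)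
    (h : I.S.act e.1) (h' : I.S.act e'.1) (hs : I.St x (I.VE e))
    (hv : I.VE e' = I.φ (of x) * I.VE e) :
    Relation.EqvGen (I.D.Lk I.S.rel x) (e, e') (I.D.en 0, I.D.en i0) := by
  generalize hN : norm (I.VE e) = N
  induction N using Nat.strong_induction_on generalizing e e' with
  | _ N ih =>
  obtain ⟨i, a1, a, a2, a3, a4, a5⟩ := hs.1.inK.1.rep
  by_cases ha : a = 0
  · subst ha
    rw [Pv_zero] at a4
    refine .trans _ _ _ (lk_left _ _ _ (I.sameV _ _ h (I.en_spec I.hm).1 ?_) _)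
      (lk_right _ _ _ (I.sameV _ _ h' (I.en_spec h0).1 ?_) _)
    · rw [I.VE_en I.hm, a4, A, I.h0, map_one]
    · rw [I.VE_en h0, hv, a4, A, hx, mul_one]
  let p : I.Pc := ⟨(x, i, a), a1, a5 (by omega), a3, a4 ▸ hs⟩
  obtain ⟨b1, b2, b3, -⟩ := I.prev_spec p
  have b4 : I.prev p < a := b2
  have l : I.S.len (.inl p) = a - I.prev p := rfl
  have c1 : I.VE ((.inl p, false), true) = I.VE e := by
    rw [VE_true, V_src, l, a4, show I.prev p + (a - I.prev p) = a by omega]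
  have c2 : I.VE ((.inl p, true), true) = I.VE e' := by
    rw [hv, ← c1, VE_true, VE_true]
    exact I.V_tgt p _ le_rfl
  have c3 : I.VE ((.inl p, false), false) = Pv I.A i (I.prev p) := by
    rw [VE_false, V_src]; rfl
  refine .trans _ _ _ (lk_left _ _ _ (I.sameV _ ((.inl p, false), true) h trivial c1.symm) _)
    (.trans _ _ _ (lk_right _ _ _ (I.sameV _ ((.inl p, true), true) h' trivial c2.symm) _)
    (.trans _ (((.inl p, false), false), ((.inl p, true), false)) _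
      (.symm _ _ (.rel _ _ (Or.inr (Or.inr ⟨.inl p, rfl, rfl, rfl⟩))))
      (ih (I.prev p) ?_ ((.inl p, false), false) ((.inl p, true), false) trivial trivial
        (c3 ▸ b3) ?_ ?_)))
  · rw [← hN, a4, norm_Pv a3]; exact b4
  · rw [VE_false, VE_false]
    exact I.V_tgt p 0 (Nat.zero_le _)
  · rw [c3, norm_Pv (by omega)]

lemma fr : Fr I.D I.S.rel := by
  refine ⟨?_, fun e e' h => h.2.2.1, ?_, ?_, ?_, ?_⟩
  · intro e h
    obtain ⟨a1, a2, a3⟩ := I.on_ep e h.1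
    obtain ⟨s1, s2, s3⟩ := I.st_spec a1
    exact ⟨a1, s1, h.1, s2, s3.trans_le a2⟩
  · intro i hi _
    exact ⟨(I.S.rel_self _).2 trivial, (I.mm_spec hi).2.1⟩
  · intro i hi
    exact ⟨(I.S.rel_self _).2 trivial, (I.en_spec hi).2.1⟩
  · intro x
    obtain ⟨i0, h0, hx⟩ := I.hx x
    have key : ∀ i < I.m, ∀ i' < I.m, I.g i' = of x * I.g i →
        Relation.EqvGen (I.D.Lk I.S.rel x) (I.D.en i, I.D.en i') (I.D.en 0, I.D.en i0) := by
      intro i h1 i' h2 h3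
      refine I.to_root x i0 h0 hx _ _ trivial trivial ?_ ?_
      · rw [I.VE_en h1]
        exact ⟨⟨i, h1, i', h2, h3, _, le_rfl, (Pv_norm i).symm⟩, Or.inl ⟨i, h1, Or.inr rfl⟩⟩
      · rw [I.VE_en h1, I.VE_en h2, A, A, h3, map_mul]
    intro i h1 i' h2 k h3 k' h4 h5 h6
    exact .trans _ _ _ (key i h1 i' h2 h5) (key k h3 k' h4 h6).symm
  · intro i hi h
    obtain rfl := I.h1 i hi h
    obtain ⟨s1, s2, s3⟩ := I.st_spec hi
    obtain ⟨e1, e2, e3⟩ := I.en_spec hi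
    refine ⟨Nat.not_lt_zero _, e1, s1, e2.trans s2.symm, ?_⟩
    rw [e3, s3, A, I.h0, map_one]
    simp

lemma off_eq : ∀ i < I.m, I.D.off i I.S.vec = 0 := by
  intro i
  induction i using Nat.strong_induction_on with
  | _ i ih =>
  intro hi
  obtain ⟨s1, s2, s3⟩ := I.st_spec hi
  obtain ⟨m1, m2, m3⟩ := I.mm_spec hi
  rw [Dat.off]
  split_ifs with h
  · simp only [LinearMap.sub_apply, LinearMap.add_apply, LinearMap.proj_apply, Sys.vec_act _ s1,
      Sys.vec_act _ m1, s3, m3, ih _ h (by omega)]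
    simp
  · have : i = 0 := by
      by_contra hn
      exact h (parA_spec (by omega)).1
    subst this
    simp only [LinearMap.neg_apply, LinearMap.proj_apply, Sys.vec_act _ s1, s3, sA_zero]
    simp

lemma dep_eq (i : ℕ) (hi : i < I.m) : I.D.dep i I.S.vec = norm (I.A i) := by
  obtain ⟨s1, s2, s3⟩ := I.en_spec hi
  rw [Dat.dep, LinearMap.add_apply, I.off_eq i hi, LinearMap.proj_apply, Sys.vec_act _ s1, s3]
  simp

end Inp

/-- bound for the number of bands -/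
def bM (n m : ℕ) : ℕ := 4 * (n * (m * (m * 4))) + m * 2 + 2

def bH (M : ℕ) : ℕ := M * (2 * 8 ^ (2 ^ (2 * M + 16 * (M * M)) * (4 * M + 1)) + 1)

def bN (n H : ℕ) : ℕ := n + H + 2 * (2 * (H * (2 * H + 1)) + 1)

theorem witness {n : ℕ} (I : Inp n) (u v : List (Fin n × Bool))
    (hu : ∀ w', w' <:+ u ++ u → ∃ i < I.m, I.g i = mk w')
    (hv : ∀ w', w' <:+ v ++ v → ∃ i < I.m, I.g i = mk w')
    (h : lam (I.φ (mk u)) ≠ lam (I.φ (mk v))) :
    ∃ Ψ : FreeGroup (Fin n) →* FreeGroup ℕ, (∀ w, rho n (Ψ w) = w) ∧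
      (∀ x, norm (Ψ (of x)) ≤ bN n (bH (bM n I.m)) ∧ Ψ (of x) ∈ LtS (bN n (bH (bM n I.m)))) ∧
      lam (Ψ (mk u)) ≠ lam (Ψ (mk v)) := by
  classical
  obtain ⟨i1, a1, b1⟩ := hu u (List.suffix_append u u)
  obtain ⟨i2, a2, b2⟩ := hu _ List.suffix_rfl
  obtain ⟨i3, a3, b3⟩ := hv v (List.suffix_append v v)
  obtain ⟨i4, a4, b4⟩ := hv _ List.suffix_rfl
  have hL : (I.D.dep i2 - I.D.dep i1 - (I.D.dep i4 - I.D.dep i3)) I.S.vec ≠ 0 := by
    simp only [LinearMap.sub_apply, I.dep_eq _ a1, I.dep_eq _ a2, I.dep_eq _ a3, I.dep_eq _ a4,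
      Inp.A, b1, b2, b3, b4, ← mul_mk, map_mul]
    intro e
    apply h
    have c1 := norm_le_sq (I.φ (mk u))
    have c2 := norm_le_sq (I.φ (mk v))
    have : norm (I.φ (mk u) * I.φ (mk u)) + norm (I.φ (mk v)) =
        norm (I.φ (mk v) * I.φ (mk v)) + norm (I.φ (mk u)) := by
      have : (norm (I.φ (mk u) * I.φ (mk u)) : ℚ) + norm (I.φ (mk v)) =
        norm (I.φ (mk v) * I.φ (mk v)) + norm (I.φ (mk u)) := by linarith
      exact_mod_cast this
    unfold lam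
    omega
  obtain ⟨k, hk, X, x1, x2, x3, x4, x5⟩ := small_witness I.S I.val I.acyc I.nb_le _ hL
  have hM : Fintype.card I.Ix ≤ bM n I.m := by
    have := I.card_Pc
    rw [I.card_Ix, Inp.sp, bM]
    omega
  have hm : I.m ≤ bM n I.m := by unfold bM; omega
  set M := bM n I.m
  have hR : 2 * 8 ^ k + 1 ≤ 2 * 8 ^ (2 ^ (2 * M + 16 * (M * M)) * (4 * M + 1)) + 1 := by
    have : k ≤ 2 ^ (2 * M + 16 * (M * M)) * (4 * M + 1) := by
      refine hk.trans (Nat.mul_le_mul (Nat.pow_le_pow_right (by omega) ?_) (by omega))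
      have := Nat.mul_le_mul hM hM
      rw [pow_two]
      omega
    have := Nat.pow_le_pow_right (show 0 < 8 by omega) this
    omega
  have hf : Fr I.D X.rel := by
    have : I.S.rel = X.rel := congrArg Prod.snd x4.ty_eq
    exact this ▸ I.fr
  obtain ⟨Ψ, p1, p2, p3⟩ := sound x1 x2 (8 ^ k) (fun e he => by exact_mod_cast x3 e he) hf
    (det_sim I.D.lab x4 x1 I.det) (bH M) (Nat.mul_le_mul hM hR) (Nat.mul_le_mul hm hR)
  have q1 := p3 u (fun w hw => hu w (hw.trans (List.suffix_append u u))) i1 a1 b1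
  have q2 := p3 _ hu i2 a2 b2
  have q3 := p3 v (fun w hw => hv w (hw.trans (List.suffix_append v v))) i3 a3 b3
  have q4 := p3 _ hv i4 a4 b4
  simp only [LinearMap.sub_apply, ← q1, ← q2, ← q3, ← q4, ← mul_mk, map_mul] at x5
  have mono : ∀ w, w ∈ LtS (n + bH M) → w ∈ LtS (bN n (bH M)) := fun w hw a ha =>
    lt_of_lt_of_le (hw a ha) (Nat.le_add_right _ _)
  by_cases hc : lam (Ψ (mk u)) = lam (Ψ (mk v))
  · refine ⟨(theta n).comp Ψ, fun w => by simp [rho_theta, p1], fun x => ⟨?_,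
      mono _ (theta_mem (p2 x).2)⟩, ?_⟩
    · have := (p2 x).1
      have := cnt_le (n := n) (Ψ (of x))
      rw [MonoidHom.comp_apply, norm_theta, bN]
      omega
    · intro e
      apply x5
      have c1 := norm_le_sq (Ψ (mk u))
      have c2 := norm_le_sq (Ψ (mk v))
      have c3 := norm_le_sq (theta n (Ψ (mk u)))
      have c4 := norm_le_sq (theta n (Ψ (mk v)))
      simp only [MonoidHom.comp_apply, lam] at e hc
      simp only [← map_mul (theta n), norm_theta] at e c3 c4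
      have : cnt n (Ψ (mk u) * Ψ (mk u)) + cnt n (Ψ (mk v)) =
          cnt n (Ψ (mk v) * Ψ (mk v)) + cnt n (Ψ (mk u)) := by omega
      have : (cnt n (Ψ (mk u) * Ψ (mk u)) : ℚ) + cnt n (Ψ (mk v)) =
          cnt n (Ψ (mk v) * Ψ (mk v)) + cnt n (Ψ (mk u)) := by exact_mod_cast this
      linarith
  · refine ⟨Ψ, p1, fun x => ⟨?_, mono _ (p2 x).2⟩, hc⟩
    have := (p2 x).1
    rw [bN]
    omega

end Pool.Agent.Lib.MP_16bc4e_al
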