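import Pool.Agent.Lib.MP_16bc4e_al.Compose

namespace Pool.Agent.Lib.MP_16bc4e_al

variable {ι : Type} [DecidableEq ι]

/-- directed inequality -/
def dle (d : Bool) (a b : ℤ) : Prop := if d then a ≤ b else b ≤ a

structure HA (X : Sys ι) (j : ι) (s : Bool) (j' : ι) : Prop where
  ne : j ≠ j'
  a1 : ∀ t, X.act (j, t)
  a2 : ∀ t, X.act (j', t)
  dir : ∀ t, X.dir (j', t) = X.dir (j, t)
  l1 : X.line (j, s) ≠ X.line (j', s)
  l2 : X.line (j, !s) = X.line (j', !s)
  gap : dle (X.dir (j, !s)) (X.pos ((j, !s), true)) (X.pos ((j', !s), false))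
  left : ∀ e : Ep ι, X.act e.1 → X.line e.1 = X.line (j, s) →
    dle (X.dir (j, s)) (X.pos e) (X.pos ((j, s), true))
  right : ∀ e : Ep ι, X.act e.1 → X.line e.1 = X.line (j', s) →
    dle (X.dir (j, s)) (X.pos ((j', s), false)) (X.pos e)

def Sys.gapA (X : Sys ι) (j : ι) (s : Bool) (j' : ι) : ℤ :=
  if X.dir (j, !s) then X.x0 (j', !s) - X.pos ((j, !s), true)
  else X.pos ((j, !s), true) - X.x0 (j', !s)

def Sys.shA (X : Sys ι) (j : ι) (s : Bool) (j' : ι) : ℤ :=
  X.pt (j, s) (X.len j + X.gapA j s j') - X.x0 (j', s)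

/-- glue the bands `j` and `j'` back together -/
def Sys.unA (X : Sys ι) (j : ι) (s : Bool) (j' : ι) : Sys ι where
  act β := X.act β ∧ β.1 ≠ j'
  line β := if X.line β = X.line (j', s) then X.line (j, s) else X.line β
  dir := X.dir
  x0 β := if X.line β = X.line (j', s) then X.x0 β + X.shA j s j' else X.x0 β
  len i := if i = j then X.len j + (X.gapA j s j').toNat + X.len j' else
    if i = j' then 0 else X.len i

def mA (j j' : ι) (e : Ep ι) : Ep ι := if e.1.1 = j ∧ e.2 = true then ((j', e.1.2), true) else e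

variable {X Y : Sys ι} {j j' : ι} {s : Bool}

omit [DecidableEq ι] in
lemma Sim.dle (hs : Sim X Y) (d : Bool) (e e' : Ep ι) (a : X.act e.1) (b : X.act e'.1)
    (l : X.line e.1 = X.line e'.1) : dle d (X.pos e) (X.pos e') ↔ dle d (Y.pos e) (Y.pos e') := by
  unfold Pool.Agent.Lib.MP_16bc4e_al.dle
  split_ifs
  · exact hs.le _ _ a b l
  · exact hs.le _ _ b a l.symm

omit [DecidableEq ι] in
lemma HA.sim (h : HA X j s j') (hs : Sim X Y) : HA Y j s j' := by
  refine ⟨h.ne, fun t => (hs.act _).1 (h.a1 t), fun t => (hs.act _).1 (h.a2 t), ?_, ?_, ?_, ?_,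
    ?_, ?_⟩
  · intro t; rw [← hs.dir _ (h.a1 t), ← hs.dir _ (h.a2 t), h.dir]
  · exact fun l => h.l1 ((hs.line _ _ (h.a1 s) (h.a2 s)).2 l)
  · exact (hs.line _ _ (h.a1 _) (h.a2 _)).1 h.l2
  · rw [← hs.dir _ (h.a1 _)]
    exact (hs.dle _ ((j, !s), true) ((j', !s), false) (h.a1 _) (h.a2 _) h.l2).1 h.gap
  · intro e a l
    have a' := (hs.act _).2 a
    have l' := (hs.line _ _ a' (h.a1 s)).2 l
    rw [← hs.dir _ (h.a1 _)]
    exact (hs.dle _ e ((j, s), true) a' (h.a1 s) l').1 (h.left e a' l')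
  · intro e a l
    have a' := (hs.act _).2 a
    have l' := (hs.line _ _ a' (h.a2 s)).2 l
    rw [← hs.dir _ (h.a1 _)]
    exact (hs.dle _ ((j', s), false) e (h.a2 s) a' l'.symm).1 (h.right e a' l')

omit [DecidableEq ι] in
lemma HA.gap_nonneg (h : HA X j s j') : 0 ≤ X.gapA j s j' := by
  have := h.gap
  unfold Sys.gapA
  unfold dle at this
  rw [Sys.pos_false] at this
  split_ifs at this ⊢ <;> omega

lemma HA.act_m (h : HA X j s j') (e : Ep ι) (he : X.act e.1) : X.act (mA j j' e).1 := by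
  unfold mA
  split_ifs
  · exact h.a2 _
  · exact he

lemma bool_cases (t s : Bool) : t = s ∨ t = !s := by cases t <;> cases s <;> simp

lemma HA.line (h : HA X j s j') (e : Ep ι) : (X.unA j s j').line e.1 =
    if X.line (mA j j' e).1 = X.line (j', s) then X.line (j, s) else X.line (mA j j' e).1 := by
  obtain ⟨⟨i, t⟩, r⟩ := e
  unfold mA
  by_cases h1 : i = j ∧ r = true
  · obtain ⟨rfl, rfl⟩ := h1
    rcases bool_cases t s with rfl | rfl
    · simp [Sys.unA]
    · simp [Sys.unA, h.l2]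
  · simp only [h1, if_false]
    rfl

lemma HA.pos (h : HA X j s j') (e : Ep ι) (he : e.1.1 ≠ j') : (X.unA j s j').pos e =
    X.pos (mA j j' e) + if X.line (mA j j' e).1 = X.line (j', s) then X.shA j s j' else 0 := by
  obtain ⟨⟨i, t⟩, r⟩ := e
  have hg := h.gap_nonneg
  unfold mA
  by_cases h1 : i = j ∧ r = true
  · obtain ⟨rfl, rfl⟩ := h1
    rcases bool_cases t s with rfl | rfl
    · have := h.l1
      simp only [Sys.pos_true, Sys.unA, and_self, if_true, if_neg this, h.dir, Sys.shA, Sys.pt]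
      split_ifs <;> omega
    · simp only [Sys.pos_true, Sys.unA, and_self, if_true, h.dir, h.l2]
      have e1 : X.gapA i s j' = if X.dir (i, !s) then X.x0 (j', !s) - X.pos ((i, !s), true)
        else X.pos ((i, !s), true) - X.x0 (j', !s) := rfl
      rw [Sys.pos_true] at e1
      simp only at e1
      split_ifs at e1 ⊢ <;> omega
  · simp only [h1, if_false]
    cases r
    · simp only [Sys.pos_false, Sys.unA]
      split_ifs <;> omega
    · have h2 : i ≠ j := fun h2 => h1 ⟨h2, rfl⟩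
      have h3 : i ≠ j' := he
      simp only [Sys.pos_true, Sys.unA, if_neg h2, if_neg h3]
      split_ifs <;> omega

lemma HA.val (h : HA X j s j') (hv : X.Val) : (X.unA j s j').Val := by
  intro i t hi
  by_cases h1 : i = j
  · subst h1; exact ⟨h.a1 t, h.ne⟩
  · by_cases h2 : i = j'
    · simp [Sys.unA, h2, h.ne.symm] at hi
    · simp only [Sys.unA, if_neg h1, if_neg h2] at hi
      exact ⟨hv i t hi, h2⟩

omit [DecidableEq ι] in
lemma HA.sh_eq (_h : HA X j s j') : X.pos ((j', s), false) + X.shA j s j' =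
    if X.dir (j, s) then X.pos ((j, s), true) + X.gapA j s j'
    else X.pos ((j, s), true) - X.gapA j s j' := by
  simp only [Sys.pos_true, Sys.pos_false, Sys.shA, Sys.pt]
  split_ifs <;> omega

omit [DecidableEq ι] in
lemma HA.gap_zero (h : HA X j s j') (hs : Sim X Y) : X.gapA j s j' = 0 ↔ Y.gapA j s j' = 0 := by
  have h1 := hs.le ((j, !s), true) ((j', !s), false) (h.a1 _) (h.a2 _) h.l2
  have h2 := hs.le ((j', !s), false) ((j, !s), true) (h.a2 _) (h.a1 _) h.l2.symm
  unfold Sys.gapA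
  simp only [Sys.pos_false] at h1 h2
  split_ifs <;> omega

omit [DecidableEq ι] in
lemma HA.mixed (h : HA X j s j') (hs : Sim X Y) (e e' : Ep ι) (a : X.act e.1) (b : X.act e'.1)
    (l : X.line e.1 = X.line (j, s)) (l' : X.line e'.1 = X.line (j', s)) :
    (X.pos e ≤ X.pos e' + X.shA j s j' ↔ Y.pos e ≤ Y.pos e' + Y.shA j s j') ∧
    (X.pos e' + X.shA j s j' ≤ X.pos e ↔ Y.pos e' + Y.shA j s j' ≤ Y.pos e) := by
  have h' := h.sim hs
  have x1 := h.left e a l
  have x2 := h.right e' b l'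
  have y1 := h'.left e ((hs.act _).1 a) ((hs.line _ _ a (h.a1 s)).1 l)
  have y2 := h'.right e' ((hs.act _).1 b) ((hs.line _ _ b (h.a2 s)).1 l')
  have x3 := h.sh_eq
  have y3 := h'.sh_eq
  have x4 := h.gap_nonneg
  have y4 := h'.gap_nonneg
  have z := h.gap_zero hs
  have c1 := hs.le e ((j, s), true) a (h.a1 s) l
  have c2 := hs.le ((j, s), true) e (h.a1 s) a l.symm
  have c3 := hs.le e' ((j', s), false) b (h.a2 s) l'
  have c4 := hs.le ((j', s), false) e' (h.a2 s) b l'.symm
  rw [← hs.dir _ (h.a1 s)] at y1 y2 y3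
  unfold dle at x1 x2 y1 y2
  split_ifs at x1 x2 y1 y2 x3 y3 <;> omega

lemma HA.sim_unA (h : HA X j s j') (hs : Sim X Y) : Sim (X.unA j s j') (Y.unA j s j') := by
  have h' := h.sim hs
  have hl : ∀ e e' : Ep ι, X.act e.1 → X.act e'.1 →
      ((X.unA j s j').line e.1 = (X.unA j s j').line e'.1 ↔
        (Y.unA j s j').line e.1 = (Y.unA j s j').line e'.1) := by
    intro e e' a b
    have a' := h.act_m e a
    have b' := h.act_m e' b
    rw [h.line, h.line, h'.line, h'.line]
    have c1 := hs.line _ _ a' (h.a2 s)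
    have c2 := hs.line _ _ b' (h.a2 s)
    have c3 := hs.line _ _ a' (h.a1 s)
    have c4 := hs.line _ _ b' (h.a1 s)
    have c5 := hs.line _ _ a' b'
    split_ifs <;> omega
  refine ⟨fun β => by simp only [Sys.unA, hs.act β], fun β a => hs.dir β a.1,
    fun β β' a b => hl (β, false) (β', false) a.1 b.1, ?_⟩
  intro e e' a b c
  have a' := h.act_m e a.1
  have b' := h.act_m e' b.1
  rw [h.pos e a.2, h.pos e' b.2, h'.pos e a.2, h'.pos e' b.2]
  rw [h.line, h.line] at c
  have c1 := hs.line _ _ a' (h.a2 s)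
  have c2 := hs.line _ _ b' (h.a2 s)
  by_cases d1 : X.line (mA j j' e).1 = X.line (j', s) <;>
    by_cases d2 : X.line (mA j j' e').1 = X.line (j', s)
  · rw [if_pos d1, if_pos d2, if_pos (c1.1 d1), if_pos (c2.1 d2)]
    have := hs.le _ _ a' b' (d1.trans d2.symm)
    omega
  · rw [if_pos d1, if_neg d2] at c
    rw [if_pos d1, if_neg d2, if_pos (c1.1 d1), if_neg (fun h3 => d2 (c2.2 h3))]
    have := (h.mixed hs _ _ b' a' c.symm d1).2
    omega
  · rw [if_neg d1, if_pos d2] at c
    rw [if_neg d1, if_pos d2, if_neg (fun h3 => d1 (c1.2 h3)), if_pos (c2.1 d2)]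
    have := (h.mixed hs _ _ a' b' c d2).1
    omega
  · rw [if_neg d1, if_neg d2] at c
    rw [if_neg d1, if_neg d2, if_neg (fun h3 => d1 (c1.2 h3)), if_neg (fun h3 => d2 (c2.2 h3))]
    have := hs.le _ _ a' b' c
    omega

/-- shift of cells -/
def Sys.shC (X : Sys ι) (j : ι) (s : Bool) (j' : ι) (c : ℕ × ℤ) : ℕ × ℤ :=
  if c.1 = X.line (j', s) then (X.line (j, s), c.2 + X.shA j s j') else c

/-- edges of `X` as edges of `X.unA` -/
def Sys.upA (X : Sys ι) (j : ι) (s : Bool) (j' : ι) (e : ι × ℕ) : ι × ℕ :=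
  if e.1 = j' then (j, X.len j + (X.gapA j s j').toNat + e.2) else e

lemma HA.cl_up (h : HA X j s j') (e : ι × ℕ) (t : Bool) :
    (X.unA j s j').cl (X.upA j s j' e) t = X.shC j s j' (X.cl e t) := by
  obtain ⟨i, k⟩ := e
  have hg := h.gap_nonneg
  unfold Sys.upA
  by_cases h1 : i = j'
  · subst h1
    rcases bool_cases t s with rfl | rfl
    · have := h.l1
      simp only [if_true, Sys.cl, Sys.cz, Sys.shC, Sys.unA, if_neg this, h.dir, Sys.shA, Sys.pt,
        Prod.mk.injEq, true_and]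
      split_ifs <;> omega
    · have e1 : X.gapA j s i = if X.dir (j, !s) then X.x0 (i, !s) - X.pos ((j, !s), true)
        else X.pos ((j, !s), true) - X.x0 (i, !s) := rfl
      rw [Sys.pos_true] at e1
      simp only [if_true, Sys.cl, Sys.cz, Sys.shC, Sys.unA, h.dir, h.l2] at e1 ⊢
      split_ifs at e1 ⊢ <;> simp only [Prod.mk.injEq, true_and] <;> omega
  · simp only [if_neg h1, Sys.cl, Sys.cz, Sys.shC, Sys.unA]
    split_ifs <;> simp only [Prod.mk.injEq, true_and] <;> omega

omit [DecidableEq ι] in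
lemma Sys.cz_bounds (X : Sys ι) (β : ι × Bool) (k : ℕ) (hk : k < X.len β.1) :
    (X.pos (β, false) ≤ X.cz β k ∧ X.cz β k + 1 ≤ X.pos (β, true)) ∨
    (X.pos (β, true) ≤ X.cz β k ∧ X.cz β k + 1 ≤ X.pos (β, false)) := by
  simp only [Sys.pos_true, Sys.pos_false, Sys.cz]
  split_ifs <;> omega

omit [DecidableEq ι] in
lemma HA.cell_left (h : HA X j s j') (hv : X.Val) (e : ι × ℕ) (he : e ∈ X.Ed) (t : Bool)
    (l : X.line (e.1, t) = X.line (j, s)) :
    if X.dir (j, s) then X.cz (e.1, t) e.2 + 1 ≤ X.pos ((j, s), true)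
    else X.pos ((j, s), true) ≤ X.cz (e.1, t) e.2 := by
  have he' : e.2 < X.len e.1 := he
  have a := hv e.1 t (by omega)
  have b1 := h.left ((e.1, t), true) a l
  have b2 := h.left ((e.1, t), false) a l
  have b3 := X.cz_bounds (e.1, t) e.2 he'
  unfold dle at b1 b2
  split_ifs at b1 b2 ⊢ <;> omega

omit [DecidableEq ι] in
lemma HA.cell_right (h : HA X j s j') (hv : X.Val) (e : ι × ℕ) (he : e ∈ X.Ed) (t : Bool)
    (l : X.line (e.1, t) = X.line (j', s)) :
    if X.dir (j, s) then X.pos ((j', s), false) ≤ X.cz (e.1, t) e.2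
    else X.cz (e.1, t) e.2 + 1 ≤ X.pos ((j', s), false) := by
  have he' : e.2 < X.len e.1 := he
  have a := hv e.1 t (by omega)
  have b1 := h.right ((e.1, t), true) a l
  have b2 := h.right ((e.1, t), false) a l
  have b3 := X.cz_bounds (e.1, t) e.2 he'
  unfold dle at b1 b2
  split_ifs at b1 b2 ⊢ <;> omega

omit [DecidableEq ι] in
lemma HA.shC_inj (h : HA X j s j') (hv : X.Val) (e : ι × ℕ) (he : e ∈ X.Ed) (t : Bool)
    (e' : ι × ℕ) (he' : e' ∈ X.Ed) (t' : Bool)
    (hc : X.shC j s j' (X.cl e t) = X.shC j s j' (X.cl e' t')) : X.cl e t = X.cl e' t' := by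
  have a1 := h.cell_left hv e he t
  have a2 := h.cell_right hv e he t
  have a3 := h.cell_left hv e' he' t'
  have a4 := h.cell_right hv e' he' t'
  have a5 := h.sh_eq
  have a6 := h.gap_nonneg
  simp only [Sys.shC, Sys.cl] at hc ⊢
  by_cases d1 : X.line (e.1, t) = X.line (j', s) <;>
    by_cases d2 : X.line (e'.1, t') = X.line (j', s)
  · rw [if_pos d1, if_pos d2] at hc
    simp only [Prod.mk.injEq] at hc ⊢
    omega
  · rw [if_pos d1, if_neg d2] at hc
    simp only [Prod.mk.injEq] at hc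
    have b1 := a2 d1
    have b2 := a3 hc.1.symm
    split_ifs at a5 b1 b2 <;> omega
  · rw [if_neg d1, if_pos d2] at hc
    simp only [Prod.mk.injEq] at hc
    have b1 := a4 d2
    have b2 := a1 hc.1
    split_ifs at a5 b1 b2 <;> omega
  · rwa [if_neg d1, if_neg d2] at hc

lemma HA.up_mem (h : HA X j s j') (e : ι × ℕ) (he : e ∈ X.Ed) :
    X.upA j s j' e ∈ (X.unA j s j').Ed := by
  obtain ⟨i, k⟩ := e
  have he' : k < X.len i := he
  unfold Sys.upA
  simp only [Sys.Ed, Set.mem_ofPred_eq, Sys.unA]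
  by_cases h1 : i = j'
  · subst h1; simp; omega
  · by_cases h2 : i = j
    · subst h2; simp [h.ne]; omega
    · simpa [h1, h2] using he'

lemma HA.up_inj (h : HA X j s j') (e : ι × ℕ) (he : e ∈ X.Ed) (e' : ι × ℕ) (he' : e' ∈ X.Ed)
    (hc : X.upA j s j' e = X.upA j s j' e') : e = e' := by
  obtain ⟨i, k⟩ := e
  obtain ⟨i', k'⟩ := e'
  have h1 : k < X.len i := he
  have h2 : k' < X.len i' := he'
  unfold Sys.upA at hc
  simp only at hc
  split_ifs at hc with a b b
  · simp only [Prod.mk.injEq] at hc ⊢; exact ⟨a.trans b.symm, by omega⟩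
  · simp only [Prod.mk.injEq] at hc; obtain ⟨rfl, _⟩ := hc; omega
  · simp only [Prod.mk.injEq] at hc; obtain ⟨rfl, _⟩ := hc; omega
  · exact hc

lemma HA.acyc_of (h : HA X j s j') (ha : (X.unA j s j').Acyc) : X.Acyc := by
  refine AcG.pull ha (X.upA j s j') h.up_mem ?_ (fun e1 h1 e2 h2 _ h3 _ => h.up_inj _ h1 _ h2 h3)
  intro e1 _ e2 _ s1 s2 h3
  rw [h.cl_up, h.cl_up, h3]

lemma HA.not_up (h : HA X j s j') (i : ι) (k : ℕ) (he : (i, k) ∈ (X.unA j s j').Ed)
    (hn : (i, k) ∉ X.upA j s j' '' X.Ed) :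
    j = i ∧ X.len j ≤ k ∧ k < X.len j + (X.gapA j s j').toNat := by
  simp only [Sys.Ed, Set.mem_ofPred_eq, Sys.unA] at he
  by_cases h2 : i = j
  · subst h2
    rw [if_pos rfl] at he
    refine ⟨rfl, ?_, ?_⟩
    · by_contra h3
      exact hn ⟨(i, k), by simp only [Sys.Ed, Set.mem_ofPred_eq] at h3 ⊢; omega,
        by simp [Sys.upA, h.ne]⟩
    · by_contra h3
      refine hn ⟨(j', k - X.len i - (X.gapA i s j').toNat), ?_, ?_⟩
      · simp only [Sys.Ed, Set.mem_ofPred_eq] at h3 ⊢; omega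
      · simp only [Sys.upA, if_true, Prod.mk.injEq, true_and] at h3 ⊢; omega
  · rw [if_neg h2] at he
    have h1 : i ≠ j' := by rintro rfl; simp at he
    rw [if_neg h1] at he
    exact absurd ⟨(i, k), he, by simp [Sys.upA, h1]⟩ hn

lemma HA.acyc (h : HA X j s j') (hv : X.Val) (ha : X.Acyc) : (X.unA j s j').Acyc := by
  have hg := h.gap_nonneg
  apply AcG.pendant (Ed0 := X.upA j s j' '' X.Ed)
  · intro F hF hne
    obtain ⟨e, ⟨he, heF⟩, t, ht⟩ := ha {e | e ∈ X.Ed ∧ X.upA j s j' e ∈ F} (fun e he => he.1) (by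
      obtain ⟨e, he⟩ := hne
      obtain ⟨e', h1, rfl⟩ := hF he
      exact ⟨e', h1, he⟩)
    refine ⟨_, heF, t, fun e' he' t' hc => ?_⟩
    obtain ⟨e'', h1, rfl⟩ := hF he'
    rw [h.cl_up, h.cl_up] at hc
    obtain ⟨rfl, rfl⟩ := ht e'' ⟨h1, he'⟩ t' (h.shC_inj hv _ h1 _ _ he _ hc)
    exact ⟨rfl, rfl⟩
  · rintro ⟨i0, k⟩ he hn
    obtain ⟨rfl, k1, k2⟩ := h.not_up _ _ he hn
    refine ⟨s, fun e' he' t' hc => ?_⟩
    have hcl : ∀ k, (X.unA j s j').cl (j, k) s = (X.line (j, s), X.cz (j, s) k) := by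
      intro k; simp [Sys.cl, Sys.cz, Sys.unA, h.l1]
    have a5 := h.sh_eq
    rw [hcl] at hc
    by_cases hu : e' ∈ X.upA j s j' '' X.Ed
    · exfalso
      obtain ⟨e'', h1, rfl⟩ := hu
      rw [h.cl_up] at hc
      have a1 := h.cell_left hv e'' h1 t'
      have a2 := h.cell_right hv e'' h1 t'
      simp only [Sys.shC, Sys.cl] at hc
      have c1 : X.cz (j, s) k = if X.dir (j, s) then X.x0 (j, s) + k else X.x0 (j, s) - k - 1 := rfl
      simp only [Sys.pos_true] at a1 a5
      by_cases d1 : X.line (e''.1, t') = X.line (j', s)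
      · rw [if_pos d1] at hc
        simp only [Prod.mk.injEq] at hc
        have b1 := a2 d1
        split_ifs at a5 b1 c1 <;> omega
      · rw [if_neg d1] at hc
        simp only [Prod.mk.injEq] at hc
        have b1 := a1 hc.1
        split_ifs at a5 b1 c1 <;> omega
    · obtain ⟨i', k'⟩ := e'
      obtain ⟨rfl, k3, k4⟩ := h.not_up _ _ he' hu
      rcases bool_cases t' s with rfl | rfl
      · rw [hcl] at hc
        simp only [Prod.mk.injEq, Sys.cz, true_and, and_true] at hc ⊢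
        split_ifs at hc <;> omega
      · exfalso
        have e1 : X.gapA j s j' = if X.dir (j, !s) then X.x0 (j', !s) - X.pos ((j, !s), true)
          else X.pos ((j, !s), true) - X.x0 (j', !s) := rfl
        have c1 : X.cz (j, s) k =
          if X.dir (j, s) then X.x0 (j, s) + k else X.x0 (j, s) - k - 1 := rfl
        by_cases d1 : X.line (j, !s) = X.line (j', s)
        · have b1 := h.right ((j, !s), true) (h.a1 _) d1
          have b2 := h.right ((j', !s), false) (h.a2 _) (h.l2.symm.trans d1)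
          simp only [Sys.cl, Sys.unA, if_pos d1, Prod.mk.injEq, true_and] at hc
          unfold Sys.cz at hc
          unfold dle at b1 b2
          simp only [if_pos d1, Sys.pos_true, Sys.pos_false] at hc b1 b2 e1 a5
          split_ifs at hc b1 b2 e1 a5 <;> omega
        · simp only [Sys.cl, Sys.unA, if_neg d1, Prod.mk.injEq] at hc
          have b1 := h.left ((j, !s), true) (h.a1 _) hc.1
          have b2 := h.left ((j', !s), false) (h.a2 _) (h.l2.symm.trans hc.1)
          replace hc := hc.2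
          unfold Sys.cz at hc
          unfold dle at b1 b2
          simp only [if_neg d1, Sys.pos_true, Sys.pos_false] at hc b1 b2 e1 a5
          split_ifs at hc b1 b2 e1 a5 <;> omega

lemma HA.step (h : HA X j s j') : Step (X.unA j s j') X := by
  classical
  let T : (Ep ι → ℚ) → ℚ := fun v => v ((j, s), true) +
    (if X.dir (j, s) = X.dir (j, !s) then 1 else -1) * (v ((j', !s), false) - v ((j, !s), true))
      - v ((j', s), false)
  let f : (Ep ι → ℚ) → (Ep ι → ℚ) := fun v e =>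
    if X.act e.1 ∧ e.1.1 ≠ j' then
      v (mA j j' e) + if X.line (mA j j' e).1 = X.line (j', s) then T v else 0
    else 0
  have key : ∀ Y : Sys ι, Sim X Y → (Y.unA j s j').vec = f Y.vec := by
    intro Y hs
    have h' := h.sim hs
    have hT : T Y.vec = Y.shA j s j' := by
      simp only [T, Sys.vec, if_pos (h'.a1 _), if_pos (h'.a2 _), hs.dir _ (h.a1 _), Sys.shA,
        Sys.gapA, Sys.pt, Sys.pos_true, Sys.pos_false]
      cases Y.dir (j, s) <;> cases Y.dir (j, !s) <;> simp <;> ring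
    funext e
    simp only [f, hT]
    by_cases h1 : X.act e.1 ∧ e.1.1 ≠ j'
    · have a := (hs.act _).1 h1.1
      rw [if_pos h1]
      simp only [Sys.vec]
      rw [if_pos (show (Y.unA j s j').act e.1 from ⟨a, h1.2⟩), if_pos (h'.act_m e a),
        h'.pos e h1.2]
      have c1 := hs.line _ _ (h.act_m e h1.1) (h.a2 s)
      by_cases d : X.line (mA j j' e).1 = X.line (j', s)
      · rw [if_pos d, if_pos (c1.1 d)]; push_cast; rfl
      · rw [if_neg d, if_neg (fun h3 => d (c1.2 h3))]; push_cast; rfl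
    · rw [if_neg h1]
      simp only [Sys.vec]
      rw [if_neg (show ¬ (Y.unA j s j').act e.1 from fun a => h1 ⟨(hs.act _).2 a.1, a.2⟩)]
  apply step_lin f
  · constructor
    · intro a b; funext e; simp only [f, T, Pi.add_apply]; split_ifs <;> ring
    · intro a b; funext e; simp only [f, T, Pi.smul_apply, smul_eq_mul]; split_ifs <;> ring
  · exact key X (Sim.refl X)
  · intro k Y hv ha hs hsim
    have h' := h.sim hsim
    refine ⟨Y.unA j s j', h'.val hv, h'.acyc hv ha, ?_, h.sim_unA hsim, key Y hsim⟩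
    intro e he
    rw [h'.pos e he.2]
    have b0 := abs_le.1 (hs _ (h'.act_m e he.1))
    have b1 := abs_le.1 (hs ((j, s), true) (h'.a1 _))
    have b2 := abs_le.1 (hs ((j', s), false) (h'.a2 _))
    have b3 := abs_le.1 (hs ((j, !s), true) (h'.a1 _))
    have b4 := abs_le.1 (hs ((j', !s), false) (h'.a2 _))
    have a5 := h'.sh_eq
    have e1 : Y.gapA j s j' = if Y.dir (j, !s) then Y.pos ((j', !s), false) - Y.pos ((j, !s), true)
          else Y.pos ((j, !s), true) - Y.pos ((j', !s), false) := rfl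
    rw [pow_succ, abs_le]
    split_ifs at a5 e1 ⊢ <;> constructor <;> omega

end Pool.Agent.Lib.MP_16bc4e_al
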