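import Mathlib

namespace Pool.Agent.Lib.MP_16bc4e_al

/-- The cyclic length `‖g‖`: the least word length of an element conjugate to `g`. -/
noncomputable def cyclen {n : ℕ} (g : FreeGroup (Fin n)) : ℕ :=
  sInf {k | ∃ h : FreeGroup (Fin n), IsConj g h ∧ FreeGroup.norm h = k}

/-- `u` and `v` are translation equivalent in `F_n`. -/
def TransEquiv {n : ℕ} (u v : FreeGroup (Fin n)) : Prop :=
  ∀ φ : MulAut (FreeGroup (Fin n)), cyclen (φ u) = cyclen (φ v)

end Pool.Agent.Lib.MP_16bc4e_al
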