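import Pool.Agent.Lib.MP_16bc4e_al.Sys

namespace Pool.Agent.Lib.MP_16bc4e_al

variable {ι : Type} [DecidableEq ι]

lemma Sys.Small.succ {ι : Type} {k : ℕ} {X : Sys ι} (h : X.Small k) : X.Small (k + 1) := by
  intro e he
  refine le_trans (h e he) ?_
  rw [pow_succ]
  have : (0 : ℤ) < 8 ^ k := by positivity
  omega

/-- reverse the parametrisation of band `j` -/
def Sys.flip (X : Sys ι) (j : ι) : Sys ι where
  act := X.act
  line := X.line
  dir β := if β.1 = j then !X.dir β else X.dir β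
  x0 β := if β.1 = j then X.pos (β, true) else X.x0 β
  len := X.len

def flipE (j : ι) (e : Ep ι) : Ep ι := if e.1.1 = j then (e.1, !e.2) else e

@[simp] lemma flipE_fst (j : ι) (e : Ep ι) : (flipE j e).1 = e.1 := by
  unfold flipE; split_ifs <;> rfl

lemma Sys.flip_pos (X : Sys ι) (j : ι) (e : Ep ι) : (X.flip j).pos e = X.pos (flipE j e) := by
  obtain ⟨β, r⟩ := e
  unfold flipE
  by_cases h : β.1 = j
  · cases r <;> cases hd : X.dir β <;> simp [Sys.pos, Sys.pt, Sys.flip, h, hd]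
  · cases r <;> simp [Sys.pos, Sys.pt, Sys.flip, h]

lemma Sys.flip_val {X : Sys ι} (h : X.Val) (j : ι) : (X.flip j).Val := h

lemma Sys.flip_acyc {X : Sys ι} (h : X.Acyc) (j : ι) : (X.flip j).Acyc := by
  have hc : ∀ e ∈ (X.flip j).Ed, ∀ s, (X.flip j).cl e s =
      X.cl (if e.1 = j then (e.1, X.len e.1 - 1 - e.2) else e) s := by
    rintro ⟨i, k⟩ he s
    simp only [Sys.Ed, Sys.flip, Set.mem_ofPred_eq] at he
    by_cases hi : i = j
    · subst hi
      cases hd : X.dir (i, s) <;> simp [Sys.cl, Sys.cz, Sys.flip, Sys.pos, Sys.pt, hd] <;> omega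
    · simp [Sys.cl, Sys.cz, Sys.flip, hi]
  refine AcG.pull h (fun e => if e.1 = j then (e.1, X.len e.1 - 1 - e.2) else e) ?_ ?_ ?_
  · rintro ⟨i, k⟩ he
    simp only [Sys.Ed, Sys.flip, Set.mem_ofPred_eq] at he ⊢
    split_ifs <;> simp <;> omega
  · intro e1 h1 e2 h2 s1 s2 h3
    rwa [hc _ h1, hc _ h2] at h3
  · rintro ⟨i, k⟩ h1 ⟨i', k'⟩ h2 s h3 _
    simp only [Sys.Ed, Sys.flip, Set.mem_ofPred_eq] at h1 h2
    simp only at h3
    split_ifs at h3 with a b b
    · simp only [Prod.mk.injEq] at h3 ⊢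
      obtain ⟨rfl, h4⟩ := h3
      exact ⟨rfl, by omega⟩
    · simp only [Prod.mk.injEq] at h3; exact absurd (h3.1 ▸ a) b
    · simp only [Prod.mk.injEq] at h3; exact absurd (h3.1 ▸ b) a
    · exact h3

lemma Sim.flip {X Y : Sys ι} (h : Sim X Y) (j : ι) : Sim (X.flip j) (Y.flip j) := by
  refine ⟨h.act, ?_, h.line, ?_⟩
  · intro β hβ
    simp only [Sys.flip]
    rw [h.dir β hβ]
  · intro e e' a b c
    rw [Sys.flip_pos, Sys.flip_pos, Sys.flip_pos, Sys.flip_pos]
    exact h.le _ _ (by rw [flipE_fst]; exact a) (by rw [flipE_fst]; exact b)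
      (by rw [flipE_fst, flipE_fst]; exact c)

lemma Sys.flip_flip (X : Sys ι) (j : ι) : Eqv X ((X.flip j).flip j) := by
  refine ⟨fun _ => Iff.rfl, ?_, fun _ _ => rfl, ?_, fun _ => rfl⟩
  · intro β _
    by_cases h : β.1 = j <;> simp [Sys.flip, h]
  · intro β _
    by_cases h : β.1 = j
    · have := X.flip_pos j (β, true)
      simp only [flipE, h, if_true] at this
      show _ = if β.1 = j then (X.flip j).pos (β, true) else _
      rw [if_pos h, this]; rfl
    · simp [Sys.flip, h]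

lemma Sys.flip_vec (X : Sys ι) (j : ι) : (X.flip j).vec = fun e => X.vec (flipE j e) := by
  funext e
  unfold Sys.vec
  rw [Sys.flip_pos, flipE_fst]
  rfl

lemma step_flip (S : Sys ι) (j : ι) : Step S (S.flip j) := by
  apply Step.of_eqv (S.flip_flip j)
  apply step_lin (fun v e => v (flipE j e)) ⟨fun _ _ => rfl, fun _ _ => rfl⟩ (Sys.flip_vec _ j)
  intro k X hv ha hs hsim
  refine ⟨X.flip j, Sys.flip_val hv j, Sys.flip_acyc ha j, ?_, hsim.flip j, X.flip_vec j⟩
  intro e he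
  rw [Sys.flip_pos]
  exact hs.succ _ (by rw [flipE_fst]; exact he)

end Pool.Agent.Lib.MP_16bc4e_al
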