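import Pool.Agent.Lib.MP_16bc4e_al.Flip

namespace Pool.Agent.Lib.MP_16bc4e_al

variable {ι : Type} [DecidableEq ι]

/-- deactivate a base -/
def Sys.forget (X : Sys ι) (β0 : ι × Bool) : Sys ι where
  act β := X.act β ∧ β ≠ β0
  line := X.line
  dir := X.dir
  x0 := X.x0
  len := X.len

def Sys.place (X : Sys ι) (β0 : ι × Bool) (L : ℕ) (y : ℤ) (d : Bool) : Sys ι where
  act β := X.act β ∨ β = β0
  line β := if β = β0 then L else X.line β
  dir β := if β = β0 then d else X.dir β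
  x0 β := if β = β0 then y else X.x0 β
  len := X.len

def Sys.scale (X : Sys ι) : Sys ι where
  act := X.act
  line := X.line
  dir := X.dir
  x0 β := 3 * X.x0 β
  len j := 3 * X.len j

omit [DecidableEq ι] in
lemma Sys.scale_pos (X : Sys ι) (e : Ep ι) : X.scale.pos e = 3 * X.pos e := by
  obtain ⟨β, r⟩ := e
  cases r <;> cases hd : X.dir β <;> simp [Sys.pos, Sys.pt, Sys.scale, hd] <;> omega

omit [DecidableEq ι] in
lemma Sys.scale_sim (X : Sys ι) : Sim X X.scale := by
  refine ⟨fun _ => Iff.rfl, fun _ _ => rfl, fun _ _ _ _ => Iff.rfl, fun e e' _ _ _ => ?_⟩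
  rw [Sys.scale_pos, Sys.scale_pos]; omega

omit [DecidableEq ι] in
lemma Sys.scale_vec (X : Sys ι) : X.scale.vec = (3 : ℚ) • X.vec := by
  funext e
  simp only [Sys.vec, Pi.smul_apply, Sys.scale_pos]
  by_cases h : X.act e.1
  · rw [if_pos h, if_pos (show X.scale.act e.1 from h)]; simp
  · rw [if_neg h, if_neg (show ¬ X.scale.act e.1 from h)]; simp

omit [DecidableEq ι] in
lemma Sys.scale_val {X : Sys ι} (h : X.Val) : X.scale.Val := fun j s hj =>
  h j s (by simp only [Sys.scale] at hj; omega)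

omit [DecidableEq ι] in
lemma Sys.scale_acyc {X : Sys ι} (h : X.Acyc) : X.scale.Acyc := by
  refine AcG.pull h (fun e => (e.1, e.2 / 3)) ?_ ?_ ?_
  · rintro ⟨i, k⟩ he
    simp only [Sys.Ed, Sys.scale, Set.mem_ofPred_eq] at he ⊢
    omega
  · rintro ⟨i, k⟩ _ ⟨i', k'⟩ _ s1 s2 h3
    simp only [Sys.cl, Sys.cz, Sys.scale, Prod.mk.injEq] at h3 ⊢
    refine ⟨h3.1, ?_⟩
    have := h3.2
    split_ifs at this ⊢ <;> omega
  · rintro ⟨i, k⟩ _ ⟨i', k'⟩ _ s h3 h4
    simp only [Sys.cl, Sys.cz, Sys.scale, Prod.mk.injEq] at h3 h4 ⊢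
    obtain ⟨rfl, _⟩ := h3
    refine ⟨rfl, ?_⟩
    have := h4.2
    split_ifs at this <;> omega

lemma Sys.place_pos (X : Sys ι) (β0 : ι × Bool) (L : ℕ) (y : ℤ) (d : Bool)
    (h0 : X.len β0.1 = 0) (e : Ep ι) :
    (X.place β0 L y d).pos e = if e.1 = β0 then y else X.pos e := by
  obtain ⟨β, r⟩ := e
  by_cases h : β = β0
  · subst h
    cases r <;> simp [Sys.pos, Sys.pt, Sys.place, h0]
  · cases r <;> simp [Sys.pos, Sys.pt, Sys.place, h]

lemma Sys.place_val {X : Sys ι} (h : X.Val) (β0 : ι × Bool) (L : ℕ) (y : ℤ) (d : Bool) :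
    (X.place β0 L y d).Val := fun j s hj => Or.inl (h j s hj)

lemma Sys.place_acyc {X : Sys ι} (h : X.Acyc) (β0 : ι × Bool) (L : ℕ) (y : ℤ) (d : Bool)
    (h0 : X.len β0.1 = 0) : (X.place β0 L y d).Acyc := by
  have hc : ∀ e ∈ (X.place β0 L y d).Ed, ∀ s, (X.place β0 L y d).cl e s = X.cl e s := by
    rintro ⟨i, k⟩ he s
    simp only [Sys.Ed, Sys.place, Set.mem_ofPred_eq] at he
    have : (i, s) ≠ β0 := by rintro rfl; simp only at h0; omega
    simp [Sys.cl, Sys.cz, Sys.place, this]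
  refine AcG.pull h id (fun e he => he) ?_ (fun _ _ _ _ _ h _ => h)
  intro e1 h1 e2 h2 s1 s2 h3
  rwa [hc _ h1, hc _ h2] at h3

/-- indicator of the endpoints of `β0` -/
def dlt (β0 : ι × Bool) : Ep ι → ℚ := fun e => if e.1 = β0 then 1 else 0

lemma Sys.place_vec (X : Sys ι) (β0 : ι × Bool) (L : ℕ) (y : ℤ) (d : Bool)
    (h0 : X.len β0.1 = 0) (hn : ¬ X.act β0) :
    (X.place β0 L y d).vec = X.vec + (y : ℚ) • dlt β0 := by
  funext e
  simp only [Sys.vec, Pi.add_apply, Pi.smul_apply, dlt, Sys.place_pos _ _ _ _ _ h0]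
  by_cases h : e.1 = β0
  · rw [if_pos (show (X.place β0 L y d).act e.1 from Or.inr h), if_pos h, if_pos h,
      if_neg (by rw [h]; exact hn)]
    simp
  · have : (X.place β0 L y d).act e.1 ↔ X.act e.1 := by simp [Sys.place, h]
    by_cases h2 : X.act e.1
    · rw [if_pos (this.2 h2), if_pos h2, if_neg h, if_neg h]; simp
    · rw [if_neg (fun h3 => h2 (this.1 h3)), if_neg h2, if_neg h]; simp

lemma place_sim {S X : Sys ι} {β0 : ι × Bool} (ha : S.act β0) (h0 : S.len β0.1 = 0)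
    (hX : Sim (S.forget β0) X) (h1 : X.len β0.1 = 0) (L : ℕ) (y : ℤ)
    (hL : ∀ β, S.act β → β ≠ β0 → (S.line β = S.line β0 ↔ X.line β = L))
    (hy : ∀ e : Ep ι, S.act e.1 → e.1 ≠ β0 → S.line e.1 = S.line β0 →
      (S.pos e ≤ S.x0 β0 ↔ X.pos e ≤ y) ∧ (S.x0 β0 ≤ S.pos e ↔ y ≤ X.pos e)) :
    Sim S (X.place β0 L y (S.dir β0)) := by
  have hp : ∀ e : Ep ι, e.1 = β0 → S.pos e = S.x0 β0 := by
    rintro ⟨β, r⟩ rfl
    cases r <;> simp [Sys.pos, Sys.pt, h0]
  refine ⟨?_, ?_, ?_, ?_⟩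
  · intro β
    have := hX.act β
    by_cases h : β = β0
    · simp [Sys.place, h, ha]
    · simpa [Sys.place, Sys.forget, h] using this
  · intro β hβ
    by_cases h : β = β0
    · simp [Sys.place, h]
    · simpa [Sys.place, Sys.forget, h] using hX.dir β ⟨hβ, h⟩
  · intro β β' a b
    by_cases h : β = β0 <;> by_cases h' : β' = β0
    · simp [Sys.place, h, h']
    · have := hL β' b h'
      simp only [Sys.place, h, h', if_true, if_false]
      rw [eq_comm, this, eq_comm]
    · have := hL β a h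
      simp only [Sys.place, h, h', if_true, if_false]
      exact this
    · simpa [Sys.place, Sys.forget, h, h'] using hX.line β β' ⟨a, h⟩ ⟨b, h'⟩
  · intro e e' a b c
    rw [Sys.place_pos _ _ _ _ _ h1, Sys.place_pos _ _ _ _ _ h1]
    by_cases h : e.1 = β0 <;> by_cases h' : e'.1 = β0
    · rw [if_pos h, if_pos h', hp e h, hp e' h']; simp
    · rw [if_pos h, if_neg h', hp e h]
      exact (hy e' b h' (by rw [← c, h])).2
    · rw [if_neg h, if_pos h', hp e' h']
      exact (hy e a h (by rw [c, h'])).1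
    · rw [if_neg h, if_neg h']
      exact hX.le e e' ⟨a, h⟩ ⟨b, h'⟩ c

lemma forget_vec {S : Sys ι} {β0 : ι × Bool} (ha : S.act β0) (h0 : S.len β0.1 = 0) :
    S.vec = (S.forget β0).vec + (S.x0 β0 : ℚ) • dlt β0 := by
  rw [← Sys.place_vec (S.forget β0) β0 (S.line β0) _ (S.dir β0) h0 (by simp [Sys.forget])]
  apply Eqv.vec
  refine ⟨?_, ?_, ?_, ?_, fun _ => rfl⟩
  · intro β
    by_cases h : β = β0 <;> simp [Sys.place, Sys.forget, h, ha]
  all_goals
    intro β _
    by_cases h : β = β0 <;> simp [Sys.place, Sys.forget, h]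

lemma step_forget [Finite ι] (S : Sys ι) (β0 : ι × Bool) (ha : S.act β0) (h0 : S.len β0.1 = 0) :
    Step S (S.forget β0) := by
  by_cases hc : ∃ e0 : Ep ι, S.act e0.1 ∧ e0.1 ≠ β0 ∧ S.line e0.1 = S.line β0 ∧ S.pos e0 = S.x0 β0
  · obtain ⟨e0, a0, n0, l0, p0⟩ := hc
    apply step_lin (fun v => v + v e0 • dlt β0)
    · constructor
      · intro a b; simp only [Pi.add_apply, add_smul]; abel
      · intro a b; simp only [Pi.smul_apply, smul_add, smul_eq_mul, mul_smul]
    · rw [forget_vec ha h0]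
      congr 2
      unfold Sys.vec
      rw [if_pos (show (S.forget β0).act e0.1 from ⟨a0, n0⟩), ← p0]
      rfl
    · intro k X hv hac hs hsim
      have h1 : X.len β0.1 = 0 := hsim.len_zero hv _ h0
      have a1 : X.act e0.1 := (hsim.act _).1 ⟨a0, n0⟩
      refine ⟨X.place β0 (X.line e0.1) (X.pos e0) (S.dir β0), Sys.place_val hv _ _ _ _,
        Sys.place_acyc hac _ _ _ _ h1, ?_, place_sim ha h0 hsim h1 _ _ ?_ ?_, ?_⟩
      · intro e he
        rw [Sys.place_pos _ _ _ _ _ h1]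
        split_ifs with h
        · exact hs.succ e0 a1
        · exact hs.succ e (he.resolve_right h)
      · intro β a n
        rw [← l0]
        exact hsim.line β e0.1 ⟨a, n⟩ ⟨a0, n0⟩
      · intro e a n l
        rw [← p0]
        exact ⟨hsim.le e e0 ⟨a, n⟩ ⟨a0, n0⟩ (l.trans l0.symm),
          hsim.le e0 e ⟨a0, n0⟩ ⟨a, n⟩ (l0.trans l.symm)⟩
      · rw [Sys.place_vec _ _ _ _ _ h1 (fun h => ((hsim.act _).2 h).2 rfl)]
        congr 2
        unfold Sys.vec
        rw [if_pos a1]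
  · push Not at hc
    apply step_gen (fun v => (3 : ℚ) • v) ⟨fun a b => smul_add _ _ _, fun a b => smul_comm _ _ _⟩
      (dlt β0) (1 / 3)
    · refine ⟨S.x0 β0, ?_⟩
      rw [smul_smul]
      simpa using forget_vec ha h0
    intro k X hv hac hs hsim
    have h1 : X.len β0.1 = 0 := hsim.len_zero hv _ h0
    have hk : (0 : ℤ) < 8 ^ k := by positivity
    have : ∃ (L : ℕ) (y : ℤ), |y| ≤ 3 * 8 ^ k + 3 ∧
        (∀ β, S.act β → β ≠ β0 → (S.line β = S.line β0 ↔ X.line β = L)) ∧
        (∀ e : Ep ι, S.act e.1 → e.1 ≠ β0 → S.line e.1 = S.line β0 →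
          (S.pos e < S.x0 β0 → 3 * X.pos e ≤ y) ∧ (S.x0 β0 < S.pos e → y + 3 ≤ 3 * X.pos e)) := by
      by_cases hlo : {e : Ep ι | S.act e.1 ∧ e.1 ≠ β0 ∧ S.line e.1 = S.line β0 ∧
          S.pos e < S.x0 β0}.Nonempty
      · obtain ⟨e0, ⟨a0, n0, l0, p0⟩, hm⟩ := Set.exists_max_image _ S.pos (Set.toFinite _) hlo
        have := abs_le.1 (hs e0 ((hsim.act _).1 ⟨a0, n0⟩))
        refine ⟨X.line e0.1, 3 * X.pos e0, abs_le.2 ⟨by omega, by omega⟩, ?_, ?_⟩
        · intro β a n
          rw [← l0]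
          exact hsim.line β e0.1 ⟨a, n⟩ ⟨a0, n0⟩
        · intro e a n l
          have h2 : S.pos e ≤ S.pos e0 ↔ X.pos e ≤ X.pos e0 :=
            hsim.le e e0 ⟨a, n⟩ ⟨a0, n0⟩ (l.trans l0.symm)
          constructor
          · intro h
            have := h2.1 (hm e ⟨a, n, l, h⟩)
            omega
          · intro h
            have : ¬ X.pos e ≤ X.pos e0 := fun h' => by have := h2.2 h'; omega
            omega
      · by_cases hhi : {e : Ep ι | S.act e.1 ∧ e.1 ≠ β0 ∧ S.line e.1 = S.line β0 ∧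
            S.x0 β0 < S.pos e}.Nonempty
        · obtain ⟨e0, ⟨a0, n0, l0, p0⟩, hm⟩ := Set.exists_min_image _ S.pos (Set.toFinite _) hhi
          have := abs_le.1 (hs e0 ((hsim.act _).1 ⟨a0, n0⟩))
          refine ⟨X.line e0.1, 3 * X.pos e0 - 3, abs_le.2 ⟨by omega, by omega⟩, ?_, ?_⟩
          · intro β a n
            rw [← l0]
            exact hsim.line β e0.1 ⟨a, n⟩ ⟨a0, n0⟩
          · intro e a n l
            have h2 : S.pos e0 ≤ S.pos e ↔ X.pos e0 ≤ X.pos e :=
              hsim.le e0 e ⟨a0, n0⟩ ⟨a, n⟩ (l0.trans l.symm)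
            constructor
            · intro h
              exact absurd ⟨e, a, n, l, h⟩ hlo
            · intro h
              have := h2.1 (hm e ⟨a, n, l, h⟩)
              omega
        · obtain ⟨L, hL⟩ := (Set.finite_range X.line).exists_notMem
          have hno : ∀ e : Ep ι, S.act e.1 → e.1 ≠ β0 → S.line e.1 ≠ S.line β0 := by
            intro e a n l
            rcases lt_trichotomy (S.pos e) (S.x0 β0) with h | h | h
            · exact hlo ⟨e, a, n, l, h⟩
            · exact hc e a n l h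
            · exact hhi ⟨e, a, n, l, h⟩
          refine ⟨L, 0, by rw [abs_zero]; omega, ?_, ?_⟩
          · intro β a n
            exact ⟨fun l => absurd l (hno (β, false) a n), fun l => absurd ⟨β, l⟩ hL⟩
          · intro e a n l
            exact absurd l (hno e a n)
    obtain ⟨L, y, hy, hL, hy2⟩ := this
    have h3 : X.scale.len β0.1 = 0 := by simp [Sys.scale, h1]
    have key : ∀ z : ℤ, y < z → z < y + 3 →
        (3 : ℚ) • X.vec + (z : ℚ) • dlt β0 ∈ AA (k + 1) S.ty := by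
      intro z z1 z2
      refine ⟨X.scale.place β0 L z (S.dir β0), Sys.place_val (Sys.scale_val hv) _ _ _ _,
        Sys.place_acyc (Sys.scale_acyc hac) _ _ _ _ h3, ?_,
        (place_sim ha h0 (hsim.trans X.scale_sim) h3 L z hL ?_).ty_eq.symm, ?_⟩
      · intro e he
        rw [Sys.place_pos _ _ _ _ _ h3, pow_succ]
        have := abs_le.1 hy
        split_ifs with h
        · exact abs_le.2 ⟨by omega, by omega⟩
        · have := abs_le.1 (hs e (he.resolve_right h))
          rw [Sys.scale_pos]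
          exact abs_le.2 ⟨by omega, by omega⟩
      · intro e a n l
        have h4 := hy2 e a n l
        have h5 := hc e a n l
        rw [Sys.scale_pos]
        constructor <;> constructor <;> intro h <;> omega
      · rw [Sys.place_vec _ _ _ _ _ h3 (fun h => ((hsim.act _).2 h).2 rfl), Sys.scale_vec]
    refine ⟨(y + 1 : ℤ), key (y + 1) (by omega) (by omega), ?_⟩
    have := key (y + 2) (by omega) (by omega)
    convert this using 2
    push_cast; ring_nf

end Pool.Agent.Lib.MP_16bc4e_al
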