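import Pool.Agent.Lib.MP_16bc4e_al.Cut

namespace Pool.Agent.Lib.MP_16bc4e_al

variable {ι : Type} [DecidableEq ι]

def baseA (j j' : ι) (β : ι × Bool) : ι × Bool := if β.1 = j' then (j, β.2) else β

open Classical in
/-- cut the parameter interval `[k1, k2]` out of band `j` -/
noncomputable def Sys.cutA (S : Sys ι) (j : ι) (s : Bool) (j' : ι) (k1 k2 : ℕ)
    (M : ι × Bool → Prop) (L' : ℕ) : Sys ι where
  act β := S.act β ∨ β.1 = j'
  line β := if β = (j', s) ∨ M (baseA j j' β) then L' else S.line (baseA j j' β)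
  dir β := S.dir (baseA j j' β)
  x0 β := if β.1 = j' then S.pt (j, β.2) k2 else S.x0 β
  len i := if i = j then k1 else if i = j' then S.len j - k2 else S.len i

structure HF (S : Sys ι) (j : ι) (s : Bool) (j' : ι) (k1 k2 : ℕ)
    (M : ι × Bool → Prop) (L' : ℕ) : Prop where
  ne : j ≠ j'
  a1 : ∀ t, S.act (j, t)
  a2 : ∀ t, ¬ S.act (j', t)
  k12 : k1 ≤ k2
  k2l : k2 ≤ S.len j
  fresh : ∀ β, S.line β ≠ L'
  hM : ∀ β, M β → S.line β = S.line (j, s) ∧ β ≠ (j, s)
  left : ∀ e : Ep ι, S.act e.1 → S.line e.1 = S.line (j, s) → e.1 ≠ (j, s) → ¬ M e.1 →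
    dle (S.dir (j, s)) (S.pos e) (S.pt (j, s) k1)
  right : ∀ e : Ep ι, S.act e.1 → M e.1 → dle (S.dir (j, s)) (S.pt (j, s) k2) (S.pos e)

variable {S : Sys ι} {j j' : ι} {s : Bool} {k1 k2 : ℕ} {M : ι × Bool → Prop} {L' : ℕ}

lemma cutA_line_pos (β : ι × Bool) (h : β = (j', s) ∨ M (baseA j j' β)) :
    (S.cutA j s j' k1 k2 M L').line β = L' := if_pos h

lemma cutA_line_neg (β : ι × Bool) (h : ¬ (β = (j', s) ∨ M (baseA j j' β))) :
    (S.cutA j s j' k1 k2 M L').line β = S.line (baseA j j' β) := if_neg h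

lemma baseA_of_ne (β : ι × Bool) (h : β.1 ≠ j') : baseA j j' β = β := if_neg h

lemma baseA_self (t : Bool) : baseA j j' (j', t) = (j, t) := if_pos rfl

lemma HF.base_act (h : HF S j s j' k1 k2 M L') (β : ι × Bool)
    (a : (S.cutA j s j' k1 k2 M L').act β) : S.act (baseA j j' β) := by
  unfold baseA
  split_ifs with h1
  · exact h.a1 _
  · exact a.resolve_right h1

lemma HF.between (h : HF S j s j' k1 k2 M L') (e : Ep ι) :
    (S.pos (baseA j j' e.1, false) ≤ (S.cutA j s j' k1 k2 M L').pos e ∧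
      (S.cutA j s j' k1 k2 M L').pos e ≤ S.pos (baseA j j' e.1, true)) ∨
    (S.pos (baseA j j' e.1, true) ≤ (S.cutA j s j' k1 k2 M L').pos e ∧
      (S.cutA j s j' k1 k2 M L').pos e ≤ S.pos (baseA j j' e.1, false)) := by
  obtain ⟨⟨i, t⟩, r⟩ := e
  have h1 := h.k12
  have h2 := h.k2l
  have hne := h.ne
  by_cases a : i = j'
  · subst a
    cases r <;> simp only [Sys.pos_true, Sys.pos_false, Sys.cutA, baseA, Sys.pt, if_true,
      if_neg hne.symm] <;> split_ifs <;> omega
  · by_cases b : i = j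
    · subst b
      cases r <;> simp only [Sys.pos_true, Sys.pos_false, Sys.cutA, baseA, Sys.pt, if_true,
        if_neg hne] <;> split_ifs <;> omega
    · cases r <;> simp only [Sys.pos_true, Sys.pos_false, Sys.cutA, baseA, Sys.pt,
        if_neg a, if_neg b] <;> split_ifs <;> omega

lemma HF.line_js (h : HF S j s j' k1 k2 M L') :
    (S.cutA j s j' k1 k2 M L').line (j, s) = S.line (j, s) := by
  have : ¬ M (j, s) := fun hm => (h.hM _ hm).2 rfl
  simp [Sys.cutA, baseA, h.ne, this]

lemma HF.line_js' (_h : HF S j s j' k1 k2 M L') :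
    (S.cutA j s j' k1 k2 M L').line (j', s) = L' := by
  simp [Sys.cutA]

lemma HF.ha (h : HF S j s j' k1 k2 M L') : HA (S.cutA j s j' k1 k2 M L') j s j' := by
  have h1 := h.k12
  have h2 := h.k2l
  have hne := h.ne
  have hd : (S.cutA j s j' k1 k2 M L').dir (j, s) = S.dir (j, s) := by
    simp [Sys.cutA, baseA, hne]
  refine ⟨hne, fun t => Or.inl (h.a1 t), fun t => Or.inr rfl, ?_, ?_, ?_, ?_, ?_, ?_⟩
  · intro t; simp [Sys.cutA, baseA, hne]
  · rw [h.line_js, h.line_js']; exact h.fresh _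
  · have e1 : baseA j j' (j, !s) = (j, !s) := baseA_of_ne _ hne
    have e2 : baseA j j' (j', !s) = (j, !s) := baseA_self _
    by_cases hm : M (j, !s)
    · rw [cutA_line_pos _ (Or.inr (by rwa [e1])), cutA_line_pos _ (Or.inr (by rwa [e2]))]
    · rw [cutA_line_neg _ (by rw [e1]; simp [hne, hm]), cutA_line_neg _ (by rw [e2]; simp [hm]),
        e1, e2]
  · simp only [dle, Sys.pos_true, Sys.pos_false, Sys.cutA, baseA, Sys.pt, if_true, if_neg hne]
    split_ifs <;> omega
  · intro e a l
    rw [h.line_js] at l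
    have hp : (S.cutA j s j' k1 k2 M L').pos ((j, s), true) = S.pt (j, s) k1 := by
      simp [Sys.pos_true, Sys.cutA, baseA, Sys.pt, hne]
    rw [hd, hp]
    have l2 : ¬ (e.1 = (j', s) ∨ M (baseA j j' e.1)) ∧ S.line (baseA j j' e.1) = S.line (j, s) := by
      simp only [Sys.cutA] at l
      split_ifs at l with h3
      · exact absurd l.symm (h.fresh _)
      · exact ⟨h3, l⟩
    by_cases h3 : e.1 = (j, s)
    · obtain ⟨β, r⟩ := e
      simp only at h3
      subst h3
      cases r <;> simp only [dle, Sys.pos_true, Sys.pos_false, Sys.cutA, baseA, Sys.pt, if_true,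
        if_neg hne] <;> split_ifs <;> omega
    · have h4 : baseA j j' e.1 ≠ (j, s) := by
        unfold baseA
        split_ifs with h5
        · intro h6
          apply l2.1; left
          exact Prod.ext h5 (Prod.ext_iff.1 h6).2
        · exact h3
      have b1 := h.left (baseA j j' e.1, true) (h.base_act _ a) l2.2 h4 (fun hm => l2.1 (Or.inr hm))
      have b2 := h.left (baseA j j' e.1, false) (h.base_act _ a) l2.2 h4
        (fun hm => l2.1 (Or.inr hm))
      have b3 := h.between e
      unfold dle at b1 b2 ⊢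
      split_ifs at b1 b2 ⊢ <;> omega
  · intro e a l
    rw [h.line_js'] at l
    have hp : (S.cutA j s j' k1 k2 M L').pos ((j', s), false) = S.pt (j, s) k2 := by
      simp [Sys.pos_false, Sys.cutA]
    rw [hd, hp]
    have l2 : e.1 = (j', s) ∨ M (baseA j j' e.1) := by
      simp only [Sys.cutA] at l
      split_ifs at l with h3
      · exact h3
      · exact absurd l (h.fresh _)
    rcases l2 with h3 | h3
    · obtain ⟨β, r⟩ := e
      simp only at h3
      subst h3
      cases r <;> simp only [dle, Sys.pos_true, Sys.pos_false, Sys.cutA, baseA, Sys.pt, if_true,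
        if_neg hne.symm] <;> split_ifs <;> omega
    · have b1 := h.right (baseA j j' e.1, true) (h.base_act _ a) h3
      have b2 := h.right (baseA j j' e.1, false) (h.base_act _ a) h3
      have b3 := h.between e
      unfold dle at b1 b2 ⊢
      split_ifs at b1 b2 ⊢ <;> omega

lemma HF.val (h : HF S j s j' k1 k2 M L') (hv : S.Val) : (S.cutA j s j' k1 k2 M L').Val := by
  intro i t hi
  by_cases a : i = j'
  · exact Or.inr a
  · by_cases b : i = j
    · subst b; exact Or.inl (h.a1 t)
    · simp only [Sys.cutA, if_neg a, if_neg b] at hi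
      exact Or.inl (hv i t hi)

lemma HF.eqv (h : HF S j s j' k1 k2 M L') (hv : S.Val) :
    Eqv S ((S.cutA j s j' k1 k2 M L').unA j s j') := by
  have h1 := h.k12
  have h2 := h.k2l
  have hne := h.ne
  have hg : (S.cutA j s j' k1 k2 M L').gapA j s j' = k2 - k1 := by
    simp only [Sys.gapA, Sys.pos_true, Sys.cutA, baseA, Sys.pt, if_true, if_neg hne]
    split_ifs <;> omega
  have hs : (S.cutA j s j' k1 k2 M L').shA j s j' = 0 := by
    simp only [Sys.shA, hg]
    simp only [Sys.cutA, baseA, Sys.pt, if_true, if_neg hne]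
    split_ifs <;> omega
  have hn : ∀ β, S.act β → β.1 ≠ j' := fun β a b => h.a2 β.2 (by rw [← b]; exact a)
  refine ⟨?_, ?_, ?_, ?_, ?_⟩
  · intro β
    exact ⟨fun a => ⟨Or.inl a, hn β a⟩, fun a => a.1.resolve_right a.2⟩
  · intro β a
    simp [Sys.unA, Sys.cutA, baseA, hn β a]
  · intro β a
    have b := hn β a
    have c : β ≠ (j', s) := fun c => b (by rw [c])
    simp only [Sys.unA, h.line_js, h.line_js']
    have e1 : baseA j j' β = β := baseA_of_ne _ b
    by_cases hm : M β
    · rw [cutA_line_pos _ (Or.inr (by rwa [e1])), if_pos rfl, (h.hM β hm).1]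
    · rw [cutA_line_neg _ (by rw [e1]; simp [c, hm]), e1, if_neg (h.fresh β)]
  · intro β a
    simp only [Sys.unA, hs]
    simp [Sys.cutA, hn β a]
  · intro i
    simp only [Sys.unA, hg]
    simp only [Sys.cutA, if_true, if_neg hne.symm]
    split_ifs with a b
    · subst a; omega
    · subst b
      by_contra h3
      exact h.a2 false (hv _ _ (by omega))
    · rfl

/-- compose two bands with a common base -/
def Sys.cmp (S : Sys ι) (j1 : ι) (s1 : Bool) (j2 : ι) (s2 : Bool) : Sys ι where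
  act β := S.act β ∧ β ≠ (j2, !s2)
  line β := if β = (j1, s1) then S.line (j2, !s2) else S.line β
  dir β := if β = (j1, s1) then S.dir (j2, !s2) else S.dir β
  x0 β := if β = (j1, s1) then S.x0 (j2, !s2) else S.x0 β
  len i := if i = j2 then 0 else S.len i

structure HG (S : Sys ι) (j1 : ι) (s1 : Bool) (j2 : ι) (s2 : Bool) : Prop where
  ne : j1 ≠ j2
  a1 : ∀ t, S.act (j1, t)
  a2 : ∀ t, S.act (j2, t)
  line : S.line (j1, s1) = S.line (j2, s2)
  dir : S.dir (j1, s1) = S.dir (j2, s2)
  x0 : S.x0 (j1, s1) = S.x0 (j2, s2)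
  len : S.len j1 = S.len j2
  alone : ∀ β, S.act β → S.line β = S.line (j2, s2) → β = (j1, s1) ∨ β = (j2, s2)

variable {j1 j2 : ι} {s1 s2 : Bool}

lemma HG.hc (h : HG S j1 s1 j2 s2) : HC (S.cmp j1 s1 j2 s2) j1 s1 j2 s2 := by
  have hne := h.ne
  refine ⟨hne, by simp [Sys.cmp], fun t => ⟨h.a1 t, by simp [hne]⟩, ⟨h.a2 _, by simp⟩,
    fun a => a.2 rfl, ?_⟩
  intro β a l
  by_cases b : β = (j1, s1)
  · exfalso
    simp only [Sys.cmp, b, if_true, Prod.mk.injEq, hne.symm, false_and, if_false] at l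
    have := h.alone _ (h.a2 _) l
    simp [hne.symm] at this
  · simp only [Sys.cmp, if_neg b, Prod.mk.injEq, hne.symm, false_and, if_false] at l
    exact (h.alone _ a.1 l).resolve_left b

lemma HG.val (hv : S.Val) : (S.cmp j1 s1 j2 s2).Val := by
  intro i t hi
  by_cases a : i = j2
  · simp [Sys.cmp, a] at hi
  · simp only [Sys.cmp, if_neg a] at hi
    exact ⟨hv i t hi, fun b => a (congrArg Prod.fst b)⟩

lemma HG.eqv (h : HG S j1 s1 j2 s2) : Eqv S ((S.cmp j1 s1 j2 s2).unC j1 s1 j2 s2) := by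
  have hne := h.ne
  refine ⟨?_, ?_, ?_, ?_, ?_⟩
  · intro β
    by_cases a : β = (j2, !s2)
    · simp [Sys.unC, a, h.a2]
    · simp [Sys.unC, Sys.cmp, a]
  · intro β _
    simp only [Sys.unC, Sys.cmp]
    split_ifs with a b c
    · rw [a]
    · simp [hne.symm] at c
    · rw [b, h.dir]
    · rfl
  · intro β _
    simp only [Sys.unC, Sys.cmp]
    split_ifs with a b c
    · rw [a]
    · simp [hne.symm] at c
    · rw [b, h.line]
    · rfl
  · intro β _
    simp only [Sys.unC, Sys.cmp]
    split_ifs with a b c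
    · rw [a]
    · simp [hne.symm] at c
    · rw [b, h.x0]
    · rfl
  · intro i
    simp only [Sys.unC, Sys.cmp, if_neg hne]
    split_ifs with a
    · rw [a, h.len]
    · rfl

end Pool.Agent.Lib.MP_16bc4e_al
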