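import Pool.Agent.Lib.MP_16bc4e_al.Progress

namespace Pool.Agent.Lib.MP_16bc4e_al

variable {ι : Type} [DecidableEq ι] [Fintype ι]

def Sys.Free (S : Sys ι) (j : ι) (s : Bool) (k : ℕ) : Prop :=
  k < S.len j ∧ ∀ e' ∈ S.Ed, ∀ s', S.cl e' s' = S.cl (j, k) s → e' = (j, k) ∧ s' = s

lemma cut_step {S : Sys ι} (hv : S.Val) (ha : S.Acyc) (hc : S.Clean) {j : ι} {s : Bool} {k : ℕ}
    (hf : S.Free j s k) (j' : ι) (h0 : S.len j' = 0) :
    ∃ X : Sys ι, Step S X ∧ X.Val ∧ X.Acyc ∧ X.tot < S.tot ∧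
      (∀ τ, S.Inv τ → X.Inv τ) ∧ X.nb ≤ S.nb + 1 ∧ ((k = 0 ∨ k + 1 = S.len j) → X.nb ≤ S.nb) := by
  classical
  obtain ⟨hk, hf⟩ := hf
  let par : ℤ → ℤ := fun y => if S.dir (j, s) then y - S.x0 (j, s) else S.x0 (j, s) - y
  let M : ι × Bool → Prop := fun β => S.act β ∧ S.line β = S.line (j, s) ∧ β ≠ (j, s) ∧
    (k : ℤ) + 1 ≤ par (S.pos (β, false))
  have sep : ∀ β, S.act β → S.line β = S.line (j, s) → β ≠ (j, s) →
      ((k : ℤ) + 1 ≤ par (S.pos (β, false)) ∧ (k : ℤ) + 1 ≤ par (S.pos (β, true))) ∨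
      (par (S.pos (β, false)) ≤ k ∧ par (S.pos (β, true)) ≤ k) := by
    intro β a l n
    by_contra hn
    obtain ⟨k', h1, h2⟩ := S.exists_param β (S.cz (j, s) k) (by
      simp only [par, Sys.cz] at hn ⊢
      split_ifs at hn ⊢ <;> omega)
    have := hf (β.1, k') h1 β.2 (by simp only [Sys.cl, l, h2])
    exact n (Prod.ext (Prod.ext_iff.1 this.1).1 this.2)
  let A := Finset.univ.filter fun e : Ep ι =>
    S.act e.1 ∧ S.line e.1 = S.line (j, s) ∧ e.1 ≠ (j, s) ∧ ¬ M e.1
  let B := Finset.univ.filter fun e : Ep ι => M e.1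
  let k1 := A.sup fun e => (par (S.pos e)).toNat
  let k3 := B.sup fun e => (S.len j - par (S.pos e)).toNat
  have b1 : k1 ≤ k := by
    apply Finset.sup_le
    rintro ⟨β, r⟩ he
    obtain ⟨a, l, n, m⟩ := (Finset.mem_filter.1 he).2
    have := sep β a l n
    have m' : ¬ ((k : ℤ) + 1 ≤ par (S.pos (β, false))) := fun h => m ⟨a, l, n, h⟩
    cases r <;> omega
  have b3 : k3 ≤ S.len j - (k + 1) := by
    apply Finset.sup_le
    rintro ⟨β, r⟩ he
    obtain ⟨a, l, n, m⟩ := (Finset.mem_filter.1 he).2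
    have := sep β a l n
    simp only at m
    cases r <;> omega
  obtain ⟨L', hL'⟩ := (Set.finite_range S.line).exists_notMem
  have H : HF S j s j' k1 (S.len j - k3) M L' := by
    refine ⟨by rintro rfl; omega, fun t => hv _ _ (by omega), fun t a => ?_, by omega, by omega,
      fun β l => hL' ⟨β, l⟩, fun β m => ⟨m.2.1, m.2.2.1⟩, ?_, ?_⟩
    · have := hc _ a
      simp only at this; omega
    · intro e a l n m
      have : (par (S.pos e)).toNat ≤ k1 := Finset.le_sup (f := fun e => (par (S.pos e)).toNat)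
        (Finset.mem_filter.2 ⟨Finset.mem_univ e, a, l, n, m⟩)
      simp only [par, dle, Sys.pt] at this ⊢
      split_ifs at this ⊢ <;> omega
    · intro e a m
      have : (S.len j - par (S.pos e)).toNat ≤ k3 :=
        Finset.le_sup (f := fun e => (S.len j - par (S.pos e)).toNat)
          (Finset.mem_filter.2 ⟨Finset.mem_univ e, m⟩)
      simp only [par, dle, Sys.pt] at this ⊢
      split_ifs at this ⊢ <;> omega
  obtain ⟨c1, c2, c3, c4⟩ := cut_counts H hv (by omega) (by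
    intro h
    obtain ⟨e, he⟩ : A.Nonempty := by
      by_contra hn
      rw [Finset.not_nonempty_iff_eq_empty] at hn
      simp [k1, hn] at h
    obtain ⟨a, l, n, m⟩ := (Finset.mem_filter.1 he).2
    exact ⟨e.1, hc _ a, n, l, m⟩) (by
    intro h
    obtain ⟨e, he⟩ : B.Nonempty := by
      by_contra hn
      rw [Finset.not_nonempty_iff_eq_empty] at hn
      simp [k3, hn] at h
    have m := (Finset.mem_filter.1 he).2
    exact ⟨e.1, hc _ m.1, m⟩)
  exact ⟨_, Step.of_eqv (H.eqv hv) H.ha.step, H.val hv, H.ha.acyc_of ((H.eqv hv).acyc hv ha),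
    c1, c2, c3, fun h => c4 (by omega)⟩

/-- lower and upper end of a base -/
def Sys.lo (S : Sys ι) (β : ι × Bool) : ℤ := if S.dir β then S.x0 β else S.x0 β - S.len β.1

def Sys.hi (S : Sys ι) (β : ι × Bool) : ℤ := if S.dir β then S.x0 β + S.len β.1 else S.x0 β

omit [DecidableEq ι] [Fintype ι] in
lemma free_of_two {S : Sys ι} (hv : S.Val) (β0 β1 : ι × Bool) (k : ℕ) (hk : k < S.len β0.1)
    (h2 : ∀ β, S.act β → S.line β = S.line β0 → β = β0 ∨ β = β1)
    (hz : β1 = β0 ∨ S.cz β0 k < S.lo β1 ∨ S.hi β1 ≤ S.cz β0 k) : S.Free β0.1 β0.2 k := by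
  refine ⟨hk, ?_⟩
  rintro ⟨i, k'⟩ he s' hc
  have he' : k' < S.len i := he
  simp only [Sys.cl, Prod.mk.injEq] at hc
  have key : (i, s') = β0 → (i, k') = (β0.1, k) ∧ s' = β0.2 := by
    intro h
    subst h
    have := hc.2
    simp only [Sys.cz] at this
    refine ⟨?_, rfl⟩
    congr 1
    split_ifs at this <;> omega
  rcases h2 (i, s') (hv _ _ (by omega)) hc.1 with h | h
  · exact key h
  · rcases hz with h3 | h3
    · exact key (h.trans h3)
    · exfalso
      rw [← h] at h3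
      have := hc.2
      rw [← this] at h3
      simp only [Sys.cz, Sys.lo, Sys.hi] at h3
      split_ifs at h3 <;> omega

omit [DecidableEq ι] [Fintype ι] in
lemma free_end {S : Sys ι} (hv : S.Val) (β0 β1 : ι × Bool) (hk : 0 < S.len β0.1)
    (h2 : ∀ β, S.act β → S.line β = S.line β0 → β = β0 ∨ β = β1)
    (hz : β1 = β0 ∨ S.lo β0 < S.lo β1 ∨ S.hi β1 < S.hi β0) :
    ∃ k, S.Free β0.1 β0.2 k ∧ (k = 0 ∨ k + 1 = S.len β0.1) := by
  rcases hz with h | h | h
  · exact ⟨0, free_of_two hv β0 β1 0 hk h2 (Or.inl h), Or.inl rfl⟩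
  · cases hd : S.dir β0
    · refine ⟨S.len β0.1 - 1, free_of_two hv β0 β1 _ (by omega) h2 (Or.inr (Or.inl ?_)), by omega⟩
      have : S.lo β0 = S.x0 β0 - S.len β0.1 := by simp [Sys.lo, hd]
      have : S.cz β0 (S.len β0.1 - 1) = S.x0 β0 - (S.len β0.1 - 1 : ℕ) - 1 := by simp [Sys.cz, hd]
      omega
    · refine ⟨0, free_of_two hv β0 β1 _ (by omega) h2 (Or.inr (Or.inl ?_)), by omega⟩
      have : S.lo β0 = S.x0 β0 := by simp [Sys.lo, hd]
      have : S.cz β0 0 = S.x0 β0 := by simp [Sys.cz, hd]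
      omega
  · cases hd : S.dir β0
    · refine ⟨0, free_of_two hv β0 β1 _ (by omega) h2 (Or.inr (Or.inr ?_)), by omega⟩
      have : S.hi β0 = S.x0 β0 := by simp [Sys.hi, hd]
      have : S.cz β0 0 = S.x0 β0 - 1 := by simp [Sys.cz, hd]
      omega
    · refine ⟨S.len β0.1 - 1, free_of_two hv β0 β1 _ (by omega) h2 (Or.inr (Or.inr ?_)), by omega⟩
      have : S.hi β0 = S.x0 β0 + S.len β0.1 := by simp [Sys.hi, hd]
      have : S.cz β0 (S.len β0.1 - 1) = S.x0 β0 + (S.len β0.1 - 1 : ℕ) := by simp [Sys.cz, hd]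
      omega

omit [DecidableEq ι] [Fintype ι] in
lemma not_self_match {S : Sys ι} (ha : S.Acyc) (j : ι) (hk : 0 < S.len j)
    (hl : S.line (j, false) = S.line (j, true)) (h1 : S.lo (j, false) = S.lo (j, true)) :
    False := by
  obtain ⟨⟨i, k⟩, ⟨h2, h3⟩, s, hs⟩ := ha {e | e.1 = j ∧ e.2 < S.len j}
    (by rintro ⟨i, k⟩ ⟨rfl, h⟩; exact h) ⟨(j, 0), rfl, hk⟩
  simp only at h2 h3
  subst h2
  obtain ⟨k', h4, h5⟩ := S.exists_param (i, !s) (S.cz (i, s) k) (by
    simp only [Sys.lo] at h1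
    cases s <;> simp only [Sys.pos_true, Sys.pos_false, Sys.cz, Bool.not_true, Bool.not_false] <;>
      split_ifs at h1 ⊢ <;> omega)
  have := (hs (i, k') ⟨rfl, h4⟩ (!s) (by
    simp only [Sys.cl, h5]
    cases s <;> simp [hl])).2
  simp at this

lemma progress {S : Sys ι} (hv : S.Val) (ha : S.Acyc) (hc : S.Clean) (τ : ℕ) (hI : S.Inv τ)
    (b : ℕ) (hb : S.nb ≤ b) (hτ : 3 * τ + 2 ≤ 2 * b) (hb2 : b < Fintype.card ι) (hp : 0 < S.tot) :
    ∃ X : Sys ι, (∀ k, (∀ Y : Sys ι, Good (k + 1) Y → Good k Y) → Good k X → Good k S) ∧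
      X.Val ∧ X.Acyc ∧ X.tot < S.tot ∧ X.Inv τ ∧ X.nb ≤ b := by
  classical
  obtain ⟨j', hj'⟩ : ∃ j', S.len j' = 0 := by
    by_contra hn
    push Not at hn
    have : S.nb = Fintype.card ι := by
      unfold Sys.nb
      rw [Finset.filter_true_of_mem (fun j _ => Nat.pos_of_ne_zero (hn j)), Finset.card_univ]
    omega
  have endcase : ∀ β0 β1 : ι × Bool, S.act β0 →
      (∀ β, S.act β → S.line β = S.line β0 → β = β0 ∨ β = β1) →
      (β1 = β0 ∨ S.lo β0 < S.lo β1 ∨ S.hi β1 < S.hi β0) →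
      ∃ X : Sys ι, (∀ k, (∀ Y : Sys ι, Good (k + 1) Y → Good k Y) → Good k X → Good k S) ∧
      X.Val ∧ X.Acyc ∧ X.tot < S.tot ∧ X.Inv τ ∧ X.nb ≤ b := by
    intro β0 β1 a h2 hz
    obtain ⟨k, h3, h4⟩ := free_end hv β0 β1 (hc _ a) h2 hz
    obtain ⟨X, x1, x2, x3, x4, x5, -, x7⟩ := cut_step hv ha hc h3 j' hj'
    exact ⟨X, fun k hs hg => hs _ (x1 k hg), x2, x3, x4, x5 τ hI, le_trans (x7 h4) hb⟩
  by_cases hsmall : ∃ β0 β1 : ι × Bool, S.act β0 ∧ S.act β1 ∧ S.line β1 = S.line β0 ∧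
      (∀ β, S.act β → S.line β = S.line β0 → β = β0 ∨ β = β1)
  · obtain ⟨β0, β1, a0, a1, l, h2⟩ := hsmall
    by_cases c1 : β1 = β0 ∨ S.lo β0 < S.lo β1 ∨ S.hi β1 < S.hi β0
    · exact endcase β0 β1 a0 h2 c1
    by_cases c2 : β0 = β1 ∨ S.lo β1 < S.lo β0 ∨ S.hi β0 < S.hi β1
    · exact endcase β1 β0 a1 (fun β a l' => (h2 β a (l'.trans l)).symm) c2
    push Not at c1 c2
    obtain ⟨j0, s0⟩ := β0
    obtain ⟨j1, s1⟩ := β1
    have e1 : S.lo (j0, s0) = S.lo (j1, s1) := by omega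
    have e2 : S.hi (j0, s0) = S.hi (j1, s1) := by omega
    have p0 := hc _ a0
    have p1 := hc _ a1
    simp only at p0 p1
    have hne : j1 ≠ j0 := by
      rintro rfl
      have hs : s1 ≠ s0 := fun h => c1.1 (by rw [h])
      apply not_self_match ha j1 p0
      · cases s0 <;> cases s1
        · exact absurd rfl hs
        · exact l.symm
        · exact l
        · exact absurd rfl hs
      · cases s0 <;> cases s1
        · exact absurd rfl hs
        · exact e1
        · exact e1.symm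
        · exact absurd rfl hs
    have e3 : S.len j1 = S.len j0 := by
      simp only [Sys.lo, Sys.hi] at e1 e2
      split_ifs at e1 e2 <;> omega
    by_cases hd : S.dir (j1, s1) = S.dir (j0, s0)
    · have H : HG S j1 s1 j0 s0 := by
        refine ⟨hne, fun t => hv _ _ p1, fun t => hv _ _ p0, l, hd, ?_, e3,
          fun β a l' => (h2 β a l').symm⟩
        simp only [Sys.lo, Sys.hi, hd] at e1 e2
        split_ifs at e1 e2 <;> omega
      obtain ⟨X, x1, x2, x3, x4, x5, x6⟩ := compose_step H hv ha p0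
      exact ⟨X, fun k hs hg => hs _ (x1 k hg), x2, x3, x4, x5 τ hI, le_trans x6 hb⟩
    · have H : HG (S.flip j0) j1 s1 j0 s0 := by
        refine ⟨hne, fun t => hv _ _ p1, fun t => hv _ _ p0, l, ?_, ?_, e3,
          fun β a l' => (h2 β a l').symm⟩
        · simp only [Sys.flip, if_neg hne, if_true]
          exact (bool_cases _ _).resolve_left hd
        · simp only [Sys.flip, if_neg hne, if_true, Sys.pos_true]
          simp only [Sys.lo, Sys.hi] at e1 e2
          have := (bool_cases _ _).resolve_left hd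
          rw [this] at e1 e2
          cases h4 : S.dir (j0, s0) <;>
            simp only [h4, Bool.not_true, Bool.not_false, if_true, Bool.false_eq_true,
              if_false] at e1 e2 ⊢ <;> omega
      obtain ⟨X, x1, x2, x3, x4, x5, x6⟩ := compose_step H (Sys.flip_val hv j0)
        (Sys.flip_acyc ha j0) p0
      exact ⟨X, fun k hs hg => hs _ (step_flip S j0 k (hs _ (x1 k hg))), x2, x3, x4, x5 τ hI,
        le_trans x6 hb⟩
  · have hnb : 2 * S.nb ≤ 3 * τ := by
      obtain ⟨R, hR, hI⟩ := hI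
      let NB := Finset.univ.filter fun β : ι × Bool => 0 < S.len β.1
      have c1 : NB.card = 2 * S.nb := by
        have : NB = (Finset.univ.filter fun j => 0 < S.len j) ×ˢ Finset.univ := by
          ext β; simp [NB]
        rw [this, Finset.card_product, Sys.nb]; simp [mul_comm]
      have c2 := Finset.card_eq_sum_card_fiberwise (s := NB) (t := NB.image S.line) (f := S.line)
        (fun β hβ => Finset.mem_coe.2 (Finset.mem_image_of_mem _ hβ))
      have c3 := Finset.card_eq_sum_card_fiberwise (s := R) (t := NB.image S.line) (f := S.line)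
        (fun β hβ => Finset.mem_coe.2 (Finset.mem_image_of_mem _
          (Finset.mem_filter.2 ⟨Finset.mem_univ _, hR.1 β hβ⟩)))
      have c4 : 3 * R.card ≤ 2 * NB.card := by
        rw [c2, c3, Finset.mul_sum, Finset.mul_sum]
        apply Finset.sum_le_sum
        intro L hL
        obtain ⟨β0, b0, rfl⟩ := Finset.mem_image.1 hL
        have a0 : S.act β0 := hv _ _ (Finset.mem_filter.1 b0).2
        have d1 := hR.2 (S.line β0)
        have d2 : 2 < (NB.filter fun β => S.line β = S.line β0).card := by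
          by_contra hn
          apply hsmall
          have m0 : β0 ∈ NB.filter fun β => S.line β = S.line β0 := Finset.mem_filter.2 ⟨b0, rfl⟩
          by_cases h1 : ∃ β1, S.act β1 ∧ S.line β1 = S.line β0 ∧ β1 ≠ β0
          · obtain ⟨β1, a1, l1, n1⟩ := h1
            refine ⟨β0, β1, a0, a1, l1, fun β a l => ?_⟩
            by_contra h3
            push Not at h3
            apply hn
            rw [Finset.two_lt_card]
            have m1 : β1 ∈ NB := Finset.mem_filter.2 ⟨Finset.mem_univ _, hc _ a1⟩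
            have m2 : β ∈ NB := Finset.mem_filter.2 ⟨Finset.mem_univ _, hc _ a⟩
            exact ⟨β0, m0, β1, Finset.mem_filter.2 ⟨m1, l1⟩, β, Finset.mem_filter.2 ⟨m2, l⟩,
              n1.symm, h3.1.symm, h3.2.symm⟩
          · push Not at h1
            exact ⟨β0, β0, a0, a0, rfl, fun β a l => Or.inl (h1 β a l)⟩
        omega
      omega
    obtain ⟨j0, -, hj0⟩ : ∃ j ∈ Finset.univ, S.len j ≠ 0 :=
      Finset.exists_ne_zero_of_sum_ne_zero (by unfold Sys.tot at hp; omega)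
    obtain ⟨⟨j, k⟩, he, s, hs⟩ := ha S.Ed (subset_refl _) ⟨(j0, 0), Nat.pos_of_ne_zero hj0⟩
    obtain ⟨X, x1, x2, x3, x4, x5, x6, -⟩ := cut_step hv ha hc (j := j) (s := s) (k := k)
      ⟨he, hs⟩ j' hj'
    exact ⟨X, fun k hs hg => hs _ (x1 k hg), x2, x3, x4, x5 τ hI, by omega⟩

lemma cleanup (k : ℕ) (hs : ∀ Y : Sys ι, Good (k + 1) Y → Good k Y) : ∀ (N : ℕ) (S : Sys ι),
    {β | S.act β}.ncard = N → S.Val → S.Acyc →
    (∀ X : Sys ι, X.Clean → X.Val → X.Acyc → X.len = S.len → X.line = S.line → Good k X) →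
    Good k S := by
  intro N
  induction N using Nat.strong_induction_on with
  | _ N ih =>
  intro S hN hv ha h
  by_cases hc : S.Clean
  · exact h S hc hv ha rfl rfl
  · unfold Sys.Clean at hc
    push Not at hc
    obtain ⟨β, a, l⟩ := hc
    have l0 : S.len β.1 = 0 := by omega
    apply hs
    apply step_forget S β a l0
    refine ih _ ?_ (S.forget β) rfl ?_ ha h
    · rw [← hN]
      apply Set.ncard_lt_ncard _ (Set.toFinite _)
      exact ⟨fun β' h' => h'.1, fun h' => (h' a).2 rfl⟩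
    · intro j s hj
      refine ⟨hv j s hj, ?_⟩
      rintro rfl
      simp only [Sys.forget] at hj l0
      omega

theorem machine : ∃ k ≤ 2 ^ (2 * Fintype.card ι + 16 * Fintype.card ι ^ 2) *
    (4 * Fintype.card ι + 1), ∀ S : Sys ι, S.Val → S.Acyc → 3 * S.nb + 1 < Fintype.card ι →
      Good k S := by
  obtain ⟨k, hk, hs⟩ := exists_stable (ι := ι)
  refine ⟨k, hk, fun S0 hv0 ha0 hb0 => ?_⟩
  have main : ∀ (N : ℕ) (S : Sys ι), S.tot = N → S.Val → S.Acyc → S.Inv (2 * S0.nb) →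
      S.nb ≤ 3 * S0.nb + 1 → Good k S := by
    intro N
    induction N using Nat.strong_induction_on with
    | _ N ih =>
    intro S hN hv ha hI hb
    apply cleanup k hs _ S rfl hv ha
    intro X hc hv' ha' h1 h2
    have e1 : X.tot = S.tot := by unfold Sys.tot; rw [h1]
    have e2 : X.nb = S.nb := by unfold Sys.nb; rw [h1]
    have e3 : X.Inv (2 * S0.nb) := by
      unfold Sys.Inv Sys.Two
      rw [e2, h1, h2]
      exact hI
    by_cases hp : 0 < X.tot
    · obtain ⟨Y, y1, y2, y3, y4, y5, y6⟩ := progress hv' ha' hc _ e3 (3 * S0.nb + 1) (by omega)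
        (by omega) hb0 hp
      exact y1 k hs (ih _ (by omega) Y rfl y2 y3 y5 y6)
    · have hna : ∀ β, ¬ X.act β := by
        intro β a
        have := hc β a
        have := Finset.single_le_sum (f := X.len) (fun i _ => Nat.zero_le _) (Finset.mem_univ β.1)
        unfold Sys.tot at hp
        omega
      have : X.vec ∈ AA k X.ty := ⟨X, hv', ha', fun e a => absurd a (hna _), rfl, rfl⟩
      exact ⟨Submodule.subset_span this, _, this⟩
  exact main _ S0 rfl hv0 ha0 ⟨∅, ⟨by simp, by simp⟩, by simp⟩ (by omega)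

/-- the final form: a nonzero value of a linear functional is attained on a small system -/
theorem small_witness (S : Sys ι) (hv : S.Val) (ha : S.Acyc)
    (hb : 3 * S.nb + 1 < Fintype.card ι) (L : (Ep ι → ℚ) →ₗ[ℚ] ℚ) (hL : L S.vec ≠ 0) :
    ∃ k ≤ 2 ^ (2 * Fintype.card ι + 16 * Fintype.card ι ^ 2) * (4 * Fintype.card ι + 1),
      ∃ X : Sys ι, X.Val ∧ X.Acyc ∧ X.Small k ∧ Sim S X ∧ L X.vec ≠ 0 := by
  obtain ⟨k, hk, h⟩ := machine (ι := ι)
  refine ⟨k, hk, ?_⟩
  by_contra hn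
  push Not at hn
  apply hL
  have : Submodule.span ℚ (AA k S.ty) ≤ LinearMap.ker L := by
    rw [Submodule.span_le]
    rintro v ⟨X, h1, h2, h3, h4, rfl⟩
    exact hn X h1 h2 h3 (Sim.of_ty_eq h4.symm)
  exact this (h S hv ha hb).1

end Pool.Agent.Lib.MP_16bc4e_al
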