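import Pool.Agent.Lib.MP_16bc4e_al.Cnt
import Pool.Agent.Lib.MP_16bc4e_al.Machine

namespace Pool.Agent.Lib.MP_16bc4e_al

open FreeGroup hiding map_inv map_mul map_one norm_one

/-- combinatorial data of a frame -/
structure Dat (ι : Type) (n : ℕ) where
  m : ℕ
  par : ℕ → ℕ
  gl : ℕ → ι
  em : ℕ → ι
  lnI : ι × Bool → ℕ
  lab : ι → Fin n
  g : ℕ → FreeGroup (Fin n)

variable {ι : Type} {n : ℕ}

namespace Dat

def st (D : Dat ι n) (i : ℕ) : Ep ι := ((D.gl i, false), false)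

def mm (D : Dat ι n) (i : ℕ) : Ep ι := ((D.gl i, true), false)

def en (D : Dat ι n) (i : ℕ) : Ep ι := ((D.em i, false), false)

def SameV (D : Dat ι n) (r : Ep ι → Ep ι → Prop) (e e' : Ep ι) : Prop :=
  (r e e' ∧ r e' e) ∨ ∃ i < D.m, D.par i < i ∧ e = D.st i ∧ e' = D.mm i

def Lk (D : Dat ι n) (r : Ep ι → Ep ι → Prop) (x : Fin n) (p q : Ep ι × Ep ι) : Prop :=
  (D.SameV r p.1 q.1 ∧ p.2 = q.2) ∨ (p.1 = q.1 ∧ D.SameV r p.2 q.2) ∨
    ∃ j, D.lab j = x ∧ p = (((j, false), false), ((j, true), false)) ∧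
      q = (((j, false), true), ((j, true), true))

noncomputable def off (D : Dat ι n) (i : ℕ) : (Ep ι → ℚ) →ₗ[ℚ] ℚ :=
  if D.par i < i then D.off (D.par i) + LinearMap.proj (D.mm i) - LinearMap.proj (D.st i)
  else - LinearMap.proj (D.st i)

noncomputable def dep (D : Dat ι n) (i : ℕ) : (Ep ι → ℚ) →ₗ[ℚ] ℚ :=
  D.off i + LinearMap.proj (D.en i)

def seg (D : Dat ι n) (X : Sys ι) (i : ℕ) (z : ℤ) : List (ℕ × ℤ) :=
  (List.range (z - X.pos (D.st i)).toNat).map fun a : ℕ =>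
    (X.line (D.gl i, false), X.pos (D.st i) + a)

def base (D : Dat ι n) (X : Sys ι) (i : ℕ) : List (ℕ × ℤ) :=
  if D.par i < i then D.base X (D.par i) ++ D.seg X (D.par i) (X.pos (D.mm i)) else []

def path (D : Dat ι n) (X : Sys ι) (i : ℕ) (z : ℤ) : List (ℕ × ℤ) := D.base X i ++ D.seg X i z

end Dat

structure Fr (D : Dat ι n) (r : Ep ι → Ep ι → Prop) : Prop where
  hI : ∀ e, r e e → D.lnI e.1 < D.m ∧ r (D.st (D.lnI e.1)) e
  hL : ∀ e e', r e e' → D.lnI e.1 = D.lnI e'.1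
  hmm : ∀ i < D.m, D.par i < i → r (D.mm i) (D.mm i) ∧ D.lnI (D.gl i, true) = D.par i
  hen : ∀ i < D.m, r (D.en i) (D.en i) ∧ D.lnI (D.em i, false) = i
  conn : ∀ x, ∀ i < D.m, ∀ i' < D.m, ∀ k < D.m, ∀ k' < D.m, D.g i' = of x * D.g i →
    D.g k' = of x * D.g k → Relation.EqvGen (D.Lk r x) (D.en i, D.en i') (D.en k, D.en k')
  root : ∀ i < D.m, D.g i = 1 → ¬ D.par i < i ∧ r (D.en i) (D.st i)

lemma Sys.rel_self (X : Sys ι) (e : Ep ι) : X.rel e e ↔ X.act e.1 := by simp [Sys.rel]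

variable {D : Dat ι n} {X : Sys ι}

lemma Dat.path_succ (i : ℕ) (z : ℤ) (h : X.pos (D.st i) ≤ z) :
    D.path X i (z + 1) = D.path X i z ++ [(X.line (D.gl i, false), z)] := by
  unfold Dat.path Dat.seg
  rw [show (z + 1 - X.pos (D.st i)).toNat = (z - X.pos (D.st i)).toNat + 1 by omega,
    List.range_succ, List.map_append, List.append_assoc]
  congr 2
  simp only [List.map_cons, List.map_nil, List.cons.injEq, Prod.mk.injEq, true_and, and_true]
  omega

lemma Dat.path_st (i : ℕ) : D.path X i (X.pos (D.st i)) = D.base X i := by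
  simp [Dat.path, Dat.seg]

lemma Dat.base_eq (i : ℕ) (h : D.par i < i) :
    D.base X i = D.path X (D.par i) (X.pos (D.mm i)) := by
  rw [Dat.base, if_pos h]; rfl

lemma Dat.base_nil (i : ℕ) (h : ¬ D.par i < i) : D.base X i = [] := by
  rw [Dat.base, if_neg h]

lemma Fr.st_en (hf : Fr D X.rel) (i : ℕ) (hi : i < D.m) : X.rel (D.st i) (D.en i) := by
  have := (hf.hI _ (hf.hen i hi).1).2
  rwa [show (D.en i).1 = (D.em i, false) from rfl, (hf.hen i hi).2] at this

lemma Fr.st_mm (hf : Fr D X.rel) (i : ℕ) (hi : i < D.m) (h : D.par i < i) :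
    X.rel (D.st (D.par i)) (D.mm i) := by
  have := (hf.hI _ (hf.hmm i hi h).1).2
  rwa [show (D.mm i).1 = (D.gl i, true) from rfl, (hf.hmm i hi h).2] at this

lemma Fr.lnI_st (hf : Fr D X.rel) (i : ℕ) (hi : i < D.m) : D.lnI (D.gl i, false) = i :=
  (hf.hL _ _ (hf.st_en i hi)).trans (hf.hen i hi).2

lemma Fr.line_inj (hf : Fr D X.rel) (i : ℕ) (hi : i < D.m) (k : ℕ) (hk : k < D.m)
    (h : X.line (D.gl i, false) = X.line (D.gl k, false)) : i = k := by
  have a := (hf.st_en i hi).1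
  have b := (hf.st_en k hk).1
  rw [← hf.lnI_st i hi, ← hf.lnI_st k hk]
  rcases le_total (X.pos (D.st i)) (X.pos (D.st k)) with h1 | h1
  · exact hf.hL (D.st i) (D.st k) ⟨a, b, h, h1⟩
  · exact (hf.hL (D.st k) (D.st i) ⟨b, a, h.symm, h1⟩).symm

lemma Sys.vec_act (e : Ep ι) (h : X.act e.1) : X.vec e = X.pos e := by
  unfold Sys.vec; rw [if_pos h]

lemma Fr.length_path (hf : Fr D X.rel) : ∀ i < D.m, ∀ z, X.pos (D.st i) ≤ z →
    ((D.path X i z).length : ℚ) = D.off i X.vec + z := by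
  intro i
  induction i using Nat.strong_induction_on with
  | _ i ih =>
  intro hi z hz
  have e1 : ((D.seg X i z).length : ℚ) = z - X.pos (D.st i) := by
    unfold Dat.seg
    rw [List.length_map, List.length_range]
    have : (((z - X.pos (D.st i)).toNat : ℕ) : ℤ) = z - X.pos (D.st i) := by omega
    exact_mod_cast this
  have a := Sys.vec_act (D.st i) (hf.st_en i hi).1
  rw [Dat.path, List.length_append, Nat.cast_add, e1, Dat.off]
  by_cases h : D.par i < i
  · have b := hf.st_mm i hi h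
    rw [if_pos h, Dat.base_eq i h, ih _ h (by omega) _ b.2.2.2]
    simp only [LinearMap.sub_apply, LinearMap.add_apply, LinearMap.proj_apply, a,
      Sys.vec_act (D.mm i) b.2.1]
    ring
  · rw [if_neg h, Dat.base_nil i h]
    simp only [LinearMap.neg_apply, LinearMap.proj_apply, a]
    simp; ring

lemma Fr.path_good (hf : Fr D X.rel) (R : ℕ) (hs : ∀ e : Ep ι, X.act e.1 → |X.pos e| ≤ R) :
    ∀ i < D.m, ∀ z : ℤ, z ≤ R → (D.path X i z).Nodup ∧
      ∀ c ∈ D.path X i z, (∃ k ≤ i, c.1 = X.line (D.gl k, false)) ∧ |c.2| ≤ R := by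
  intro i
  induction i using Nat.strong_induction_on with
  | _ i ih =>
  intro hi z hz
  have e1 : (D.seg X i z).Nodup := by
    unfold Dat.seg
    apply List.Nodup.map _ List.nodup_range
    intro a b h
    have := (Prod.mk.inj h).2
    omega
  have e2 : ∀ c ∈ D.seg X i z, c.1 = X.line (D.gl i, false) ∧ |c.2| ≤ R := by
    intro c hc
    obtain ⟨a, h1, rfl⟩ := List.mem_map.1 hc
    have := List.mem_range.1 h1
    have h2 := abs_le.1 (hs (D.st i) (hf.st_en i hi).1)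
    exact ⟨rfl, abs_le.2 ⟨by simp only; omega, by simp only; omega⟩⟩
  have e3 : (D.base X i).Nodup ∧
      ∀ c ∈ D.base X i, (∃ k < i, c.1 = X.line (D.gl k, false)) ∧ |c.2| ≤ R := by
    by_cases h : D.par i < i
    · rw [Dat.base_eq i h]
      obtain ⟨a, b⟩ := ih _ h (by omega) _ (abs_le.1 (hs (D.mm i) (hf.st_mm i hi h).2.1)).2
      refine ⟨a, fun c hc => ?_⟩
      obtain ⟨⟨k, h1, h2⟩, h3⟩ := b c hc
      exact ⟨⟨k, by omega, h2⟩, h3⟩
    · rw [Dat.base_nil i h]; simp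
  constructor
  · rw [Dat.path, List.nodup_append]
    refine ⟨e3.1, e1, fun a ha b hb hab => ?_⟩
    obtain ⟨⟨k, h1, h2⟩, -⟩ := e3.2 a ha
    have := hf.line_inj i hi k (by omega) (by rw [← h2, ← (e2 b hb).1, hab])
    omega
  · intro c hc
    rcases List.mem_append.1 hc with h | h
    · obtain ⟨⟨k, h1, h2⟩, h3⟩ := e3.2 c h
      exact ⟨⟨k, h1.le, h2⟩, h3⟩
    · exact ⟨⟨i, le_rfl, (e2 c h).1⟩, (e2 c h).2⟩

lemma Sys.cz_inj (β : ι × Bool) (k k' : ℕ) (h : X.cz β k = X.cz β k') : k = k' := by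
  unfold Sys.cz at h
  split_ifs at h <;> omega

lemma det_sim {S : Sys ι} (lab : ι → Fin n) (h : Sim S X) (hv : X.Val)
    (hd : DetG S.Ed S.cl fun e => lab e.1) : DetG X.Ed X.cl fun e => lab e.1 := by
  rintro ⟨j, k⟩ he ⟨j', k'⟩ he' s hl hc
  have he1 : k < X.len j := he
  have he2 : k' < X.len j' := he'
  obtain ⟨c1, c2⟩ := Prod.mk.inj hc
  simp only at c1 c2 hl
  by_cases hj : j = j'
  · subst hj
    rw [Sys.cz_inj _ _ _ c2]
  exfalso
  have a1 := (h.act _).2 (hv j s (by omega))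
  have a2 := (h.act _).2 (hv j' s (by omega))
  have l := (h.line _ _ a1 a2).2 c1
  have b1 := X.cz_bounds (j, s) k he1
  have b2 := X.cz_bounds (j', s) k' he2
  have r1 := fun t t' => h.le ((j, s), t) ((j', s), t') a1 a2 l
  have r2 := fun t t' => h.le ((j', s), t) ((j, s), t') a2 a1 l.symm
  have r3 := fun t t' => h.le ((j, s), t) ((j, s), t') a1 a1 rfl
  have r4 := fun t t' => h.le ((j', s), t) ((j', s), t') a2 a2 rfl
  have : ∃ z : ℤ, ((S.pos ((j, s), false) ≤ z ∧ z + 1 ≤ S.pos ((j, s), true)) ∨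
      (S.pos ((j, s), true) ≤ z ∧ z + 1 ≤ S.pos ((j, s), false))) ∧
      ((S.pos ((j', s), false) ≤ z ∧ z + 1 ≤ S.pos ((j', s), true)) ∨
      (S.pos ((j', s), true) ≤ z ∧ z + 1 ≤ S.pos ((j', s), false))) := by
    refine ⟨max (min (S.pos ((j, s), false)) (S.pos ((j, s), true)))
      (min (S.pos ((j', s), false)) (S.pos ((j', s), true))), ?_⟩
    have := r1 true true; have := r1 true false; have := r1 false true; have := r1 false false
    have := r2 true true; have := r2 true false; have := r2 false true; have := r2 false false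
    have := r3 true false; have := r3 false true; have := r4 true false; have := r4 false true
    omega
  obtain ⟨z, z1, z2⟩ := this
  obtain ⟨p, p1, p2⟩ := S.exists_param _ _ z1
  obtain ⟨q, q1, q2⟩ := S.exists_param _ _ z2
  have := hd (j, p) p1 (j', q) q1 s hl (Prod.ext l (p2.trans q2.symm))
  exact hj (Prod.mk.inj this).1

end Pool.Agent.Lib.MP_16bc4e_al
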