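import Mathlib

namespace Pool.Agent.Lib.MP_16bc4e_al

/-- A multigraph with edge set `Ed` and ends `cl e false`, `cl e true` is acyclic if every nonempty
set of edges has an end of degree one. -/
def AcG {α γ : Type*} (Ed : Set α) (cl : α → Bool → γ) : Prop :=
  ∀ F ⊆ Ed, F.Nonempty → ∃ e ∈ F, ∃ s, ∀ e' ∈ F, ∀ s', cl e' s' = cl e s → e' = e ∧ s' = s

variable {α α' γ γ' : Type*}

lemma AcG.pull {Ed : Set α} {cl : α → Bool → γ} (h : AcG Ed cl) {Ed' : Set α'}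
    {cl' : α' → Bool → γ'} (f : α' → α) (hf : ∀ e ∈ Ed', f e ∈ Ed)
    (h1 : ∀ e1 ∈ Ed', ∀ e2 ∈ Ed', ∀ s1 s2, cl' e1 s1 = cl' e2 s2 → cl (f e1) s1 = cl (f e2) s2)
    (h2 : ∀ e1 ∈ Ed', ∀ e2 ∈ Ed', ∀ s, f e1 = f e2 → cl' e1 s = cl' e2 s → e1 = e2) :
    AcG Ed' cl' := by
  intro F hF hne
  obtain ⟨_, ⟨e, he, rfl⟩, s, hs⟩ := h (f '' F) (by rintro _ ⟨e, he, rfl⟩; exact hf e (hF he))
    (hne.image f)
  refine ⟨e, he, s, fun e' he' s' hc => ?_⟩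
  obtain ⟨h3, rfl⟩ := hs (f e') ⟨e', he', rfl⟩ s' (h1 _ (hF he') _ (hF he) _ _ hc)
  exact ⟨h2 _ (hF he') _ (hF he) _ h3 hc, rfl⟩

lemma AcG.pendant {Ed Ed0 : Set α} {cl : α → Bool → γ} (h : AcG Ed0 cl)
    (hp : ∀ e ∈ Ed, e ∉ Ed0 → ∃ s, ∀ e' ∈ Ed, ∀ s', cl e' s' = cl e s → e' = e ∧ s' = s) :
    AcG Ed cl := by
  intro F hF hne
  by_cases h0 : F ⊆ Ed0
  · exact h F h0 hne
  · obtain ⟨e, he, hn⟩ := Set.not_subset.1 h0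
    obtain ⟨s, hs⟩ := hp e (hF he) hn
    exact ⟨e, he, s, fun e' he' s' hc => hs e' (hF he') s' hc⟩

end Pool.Agent.Lib.MP_16bc4e_al
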