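import Pool.Agent.Lib.MP_16bc4e_al.Frame

namespace Pool.Agent.Lib.MP_16bc4e_al

open FreeGroup hiding map_inv map_mul map_one norm_one

variable {ι : Type} {n : ℕ} {D : Dat ι n} {X : Sys ι}

/-- the product along the path to a vertex -/
def Dat.pv (D : Dat ι n) (X : Sys ι) (ω : ℕ × ℤ → FreeGroup ℕ) (i : ℕ) (z : ℤ) : FreeGroup ℕ :=
  ((D.path X i z).map ω).prod

def Dat.pe (D : Dat ι n) (X : Sys ι) (ω : ℕ × ℤ → FreeGroup ℕ) (e : Ep ι) : FreeGroup ℕ :=
  D.pv X ω (D.lnI e.1) (X.pos e)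

lemma Fr.pv_step (hf : Fr D X.rel) (hv : X.Val) (ω : ℕ × ℤ → FreeGroup ℕ) (j : ι) (s : Bool)
    (k : ℕ) (hk : k < X.len j) : D.pv X ω (D.lnI (j, s)) (X.pt (j, s) ((k + 1 : ℕ) : ℤ)) =
      D.pv X ω (D.lnI (j, s)) (X.pt (j, s) k) *
        if X.dir (j, s) then ω (X.cl (j, k) s) else (ω (X.cl (j, k) s))⁻¹ := by
  have a := hv j s (by omega)
  have h1 := (hf.hI ((j, s), false) ((X.rel_self _).2 a)).2
  have h2 := (hf.hI ((j, s), true) ((X.rel_self _).2 a)).2
  have l : X.line (D.gl (D.lnI (j, s)), false) = X.line (j, s) := h1.2.2.1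
  have h3 := h1.2.2.2
  have h4 := h2.2.2.2
  simp only [Sys.pos_true, Sys.pos_false] at h3 h4
  unfold Dat.pv Sys.pt Sys.cl Sys.cz
  by_cases hd : X.dir (j, s) = true
  · simp only [hd, if_true] at h4 ⊢
    rw [Nat.cast_add, Nat.cast_one, ← add_assoc, Dat.path_succ _ _ (by omega), l]
    simp
  · simp only [hd] at h4 ⊢
    simp only [Bool.false_eq_true, if_false] at h4 ⊢
    have := Dat.path_succ (D := D) (X := X) (D.lnI (j, s)) (X.x0 (j, s) - k - 1) (by omega)
    rw [sub_add_cancel, l] at this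
    rw [this, Nat.cast_add, Nat.cast_one, ← sub_sub]
    simp

lemma Fr.pe_same (hf : Fr D X.rel) (ω : ℕ × ℤ → FreeGroup ℕ) (e e' : Ep ι)
    (h : D.SameV X.rel e e') : D.pe X ω e = D.pe X ω e' := by
  rcases h with ⟨h1, h2⟩ | ⟨i, hi, hp, rfl, rfl⟩
  · unfold Dat.pe
    rw [hf.hL _ _ h1, le_antisymm h1.2.2.2 h2.2.2.2]
  · unfold Dat.pe Dat.pv
    rw [show (D.st i).1 = (D.gl i, false) from rfl, show (D.mm i).1 = (D.gl i, true) from rfl,
      hf.lnI_st i hi, (hf.hmm i hi hp).2, Dat.path_st, Dat.base_eq i hp]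

lemma om_rel {γ : Type*} (b : γ → ℕ × Bool) (τ : γ → FreeGroup (Fin n)) (c c' : γ) (d d' : Bool)
    (x : FreeGroup (Fin n)) (h1 : τ c' = x * τ c) (h2 : (b c').1 = (b c).1)
    (h3 : (b c').2 = d' ↔ (b c).2 = d) :
    (if d' then om n b τ c' else (om n b τ c')⁻¹) * emb n x =
      emb n x * if d then om n b τ c else (om n b τ c)⁻¹ := by
  unfold om
  rw [h1, map_mul]
  generalize b c = p at *
  generalize b c' = p' at *
  obtain ⟨k, s⟩ := p
  obtain ⟨k', s'⟩ := p'
  simp only at h2 h3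
  subst h2
  cases s <;> cases s' <;> cases d <;> cases d' <;>
    simp only [mk_true, mk_false, if_true, Bool.false_eq_true, if_false] <;>
    first | (simp at h3; done) | group

lemma ed_card [Fintype ι] (hv : X.Val) (R : ℕ) (hs : ∀ e : Ep ι, X.act e.1 → |X.pos e| ≤ R) :
    X.Ed.Finite ∧ X.Ed.ncard ≤ Fintype.card ι * (2 * R + 1) := by
  have h : X.Ed ⊆ ((Finset.univ ×ˢ Finset.range (2 * R + 1) : Finset (ι × ℕ)) : Set (ι × ℕ)) := by
    rintro ⟨j, k⟩ he
    have h1 : k < X.len j := he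
    have a := hv j false (by omega)
    have h2 := abs_le.1 (hs ((j, false), false) a)
    have h3 := abs_le.1 (hs ((j, false), true) a)
    simp only [Sys.pos_true, Sys.pos_false] at h2 h3
    simp only [Finset.coe_product, Finset.coe_univ, Finset.coe_range, Set.mem_prod, Set.mem_univ,
      Set.mem_Iio, true_and]
    split_ifs at h3 <;> omega
  refine ⟨(Finset.finite_toSet _).subset h, ?_⟩
  have := Set.ncard_le_ncard h (Finset.finite_toSet _)
  rw [Set.ncard_coe_finset] at this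
  simpa using this

theorem sound [Fintype ι] (hv : X.Val) (ha : X.Acyc) (R : ℕ)
    (hs : ∀ e : Ep ι, X.act e.1 → |X.pos e| ≤ R) (hf : Fr D X.rel)
    (hd : DetG X.Ed X.cl fun e => D.lab e.1) (H : ℕ) (hM : Fintype.card ι * (2 * R + 1) ≤ H)
    (hm : D.m * (2 * R + 1) ≤ H) :
    ∃ Ψ : FreeGroup (Fin n) →* FreeGroup ℕ, (∀ w, rho n (Ψ w) = w) ∧
      (∀ x, norm (Ψ (of x)) ≤ 2 * (H * (2 * H + 1)) + 1 ∧ Ψ (of x) ∈ LtS (n + H)) ∧
      ∀ w : List (Fin n × Bool), (∀ w', w' <:+ w → ∃ i < D.m, D.g i = mk w') →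
        ∀ i < D.m, D.g i = mk w → (cnt n (Ψ (mk w)) : ℚ) = D.dep i X.vec := by
  classical
  obtain ⟨hfin, hcard⟩ := ed_card hv R hs
  obtain ⟨β, ε, τ, p1, p2, p3⟩ := exists_pot X.Ed X.cl (fun e => D.lab e.1)
    (fun e s => X.dir (e.1, s)) ha hd hfin
  let Cs : Finset (ℕ × ℤ) :=
    ((Finset.range D.m).image fun k => X.line (D.gl k, false)) ×ˢ Finset.Icc (-R : ℤ) R
  have hCs : Cs.card ≤ H := by
    refine le_trans ?_ hm
    rw [Finset.card_product, Int.card_Icc]
    apply Nat.mul_le_mul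
    · exact Finset.card_image_le.trans (by simp)
    · omega
  obtain ⟨f, f1, f2⟩ := exists_code (Cs.image β)
  let b : ℕ × ℤ → ℕ × Bool := fun c => (n + f (β c), ε c)
  have hb : ∀ c, n ≤ (b c).1 := fun c => Nat.le_add_right _ _
  have hi : ∀ c c', (b c).1 = (b c').1 → τ c = τ c' → c = c' := fun c c' h1 h2 =>
    p2 c c' (f1 (by simpa [b] using h1)) h2
  set ω := om n b τ with hω
  have hpath : ∀ i < D.m, (D.path X i (X.pos (D.en i))).Nodup ∧
      ∀ c ∈ D.path X i (X.pos (D.en i)), c ∈ Cs := by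
    intro i hi
    obtain ⟨a1, a2⟩ := hf.path_good R hs i hi _ (abs_le.1 (hs _ (hf.st_en i hi).2.1)).2
    refine ⟨a1, fun c hc => ?_⟩
    obtain ⟨⟨k, h1, h2⟩, h3⟩ := a2 c hc
    refine Finset.mem_product.2 ⟨Finset.mem_image.2 ⟨k, Finset.mem_range.2 (by omega), h2.symm⟩,
      Finset.mem_Icc.2 (abs_le.1 h3)⟩
  have hpe : ∀ i < D.m, D.pe X ω (D.en i) = ((D.path X i (X.pos (D.en i))).map ω).prod := by
    intro i hi
    unfold Dat.pe
    rw [show (D.en i).1 = (D.em i, false) from rfl, (hf.hen i hi).2]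
    rfl
  have hgood : ∀ i < D.m, norm (D.pe X ω (D.en i)) ≤ H * (2 * H + 1) ∧
      D.pe X ω (D.en i) ∈ LtS (n + H) ∧ rho n (D.pe X ω (D.en i)) = 1 := by
    intro i hi
    obtain ⟨a1, a2⟩ := hpath i hi
    rw [hpe i hi]
    refine ⟨le_trans (norm_prod_le (2 * H + 1) _ ?_) ?_, ?_, ?_⟩
    · intro a h
      obtain ⟨c, -, rfl⟩ := List.mem_map.1 h
      have h1 := norm_mul_le (emb n (τ c) * mk [b c]) (emb n (τ c))⁻¹
      have h2 := norm_mul_le (emb n (τ c)) (mk [b c])
      have h3 := p1 c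
      rw [norm_inv_eq, norm_emb] at h1
      rw [norm_emb, norm_letter] at h2
      change norm (emb n (τ c) * mk [b c] * (emb n (τ c))⁻¹) ≤ _
      omega
    · rw [List.length_map]
      apply Nat.mul_le_mul_right
      rw [← List.toFinset_card_of_nodup a1]
      exact (Finset.card_le_card fun c hc => a2 c (List.mem_toFinset.1 hc)).trans hCs
    · apply Subgroup.list_prod_mem
      intro a h
      obtain ⟨c, hc, rfl⟩ := List.mem_map.1 h
      have h1 := f2 _ (Finset.mem_image_of_mem β (a2 c hc))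
      have h2 : (Cs.image β).card ≤ Cs.card := Finset.card_image_le
      exact Subgroup.mul_mem _ (Subgroup.mul_mem _ (emb_mem (by omega) _)
        (letter_mem _ (by simp only [b]; omega))) (Subgroup.inv_mem _ (emb_mem (by omega) _))
    · rw [map_list_prod]
      apply List.prod_eq_one
      intro a h
      obtain ⟨a', h', rfl⟩ := List.mem_map.1 h
      obtain ⟨c, -, rfl⟩ := List.mem_map.1 h'
      simp [hω, om, rho_big _ (hb c)]
  let Φ : Fin n → Ep ι × Ep ι → FreeGroup ℕ := fun x p =>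
    D.pe X ω p.2 * emb n (of x) * (D.pe X ω p.1)⁻¹
  have hΦ : ∀ x p q, Relation.EqvGen (D.Lk X.rel x) p q → Φ x p = Φ x q := by
    intro x p q h
    induction h with
    | rel p q h =>
      rcases h with ⟨h1, h2⟩ | ⟨h1, h2⟩ | ⟨j, rfl, rfl, rfl⟩
      · simp only [Φ, hf.pe_same ω _ _ h1, h2]
      · simp only [Φ, hf.pe_same ω _ _ h2, h1]
      · have : ∀ k ≤ X.len j, D.pv X ω (D.lnI (j, true)) (X.pt (j, true) k) * emb n (of (D.lab j)) *
            (D.pv X ω (D.lnI (j, false)) (X.pt (j, false) k))⁻¹ =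
            D.pv X ω (D.lnI (j, true)) (X.x0 (j, true)) * emb n (of (D.lab j)) *
            (D.pv X ω (D.lnI (j, false)) (X.x0 (j, false)))⁻¹ := by
          intro k
          induction k with
          | zero => intro _; simp [Sys.pt]
          | succ k ih =>
            intro hk
            obtain ⟨q1, q2, q3⟩ := p3 (j, k) (show k < X.len j from hk)
            have := om_rel b τ (X.cl (j, k) false) (X.cl (j, k) true) (X.dir (j, false))
              (X.dir (j, true)) _ q1 (by simp only [b, q2]) q3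
            rw [← hω] at this
            rw [hf.pv_step hv ω j true k hk, hf.pv_step hv ω j false k hk, ← ih (by omega),
              mul_assoc (D.pv X ω _ _), this]
            group
        exact (this _ le_rfl).symm
    | refl => rfl
    | symm _ _ _ ih => exact ih.symm
    | trans _ _ _ _ _ ih1 ih2 => exact ih1.trans ih2
  let ψ : Fin n → FreeGroup ℕ := fun x =>
    if h : ∃ p : ℕ × ℕ, p.1 < D.m ∧ p.2 < D.m ∧ D.g p.2 = of x * D.g p.1 then
      Φ x (D.en h.choose.1, D.en h.choose.2) else emb n (of x)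
  have hψ : ∀ x, ∀ i < D.m, ∀ i' < D.m, D.g i' = of x * D.g i → ψ x = Φ x (D.en i, D.en i') := by
    intro x i h1 i' h2 h3
    have ex : ∃ p : ℕ × ℕ, p.1 < D.m ∧ p.2 < D.m ∧ D.g p.2 = of x * D.g p.1 := ⟨(i, i'), h1, h2, h3⟩
    simp only [ψ, dif_pos ex]
    obtain ⟨c1, c2, c3⟩ := ex.choose_spec
    exact hΦ _ _ _ (hf.conn x _ c1 _ c2 _ h1 _ h2 c3 h3)
  have hψ2 : ∀ x, rho n (ψ x) = of x ∧ norm (ψ x) ≤ 2 * (H * (2 * H + 1)) + 1 ∧
      ψ x ∈ LtS (n + H) := by
    intro x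
    by_cases ex : ∃ p : ℕ × ℕ, p.1 < D.m ∧ p.2 < D.m ∧ D.g p.2 = of x * D.g p.1
    · obtain ⟨⟨i, i'⟩, h1, h2, h3⟩ := ex
      rw [hψ x i h1 i' h2 h3]
      obtain ⟨a1, a2, a3⟩ := hgood i h1
      obtain ⟨b1, b2, b3⟩ := hgood i' h2
      refine ⟨by simp [Φ, a3, b3, rho_emb], ?_, Subgroup.mul_mem _ (Subgroup.mul_mem _ b2
        (emb_mem (by omega) _)) (Subgroup.inv_mem _ a2)⟩
      have c1 := norm_mul_le (D.pe X ω (D.en i') * emb n (of x)) (D.pe X ω (D.en i))⁻¹
      have c2 := norm_mul_le (D.pe X ω (D.en i')) (emb n (of x))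
      rw [norm_inv_eq] at c1
      rw [norm_emb, norm_of] at c2
      simp only [Φ]
      omega
    · simp only [ψ, dif_neg ex]
      exact ⟨rho_emb _, by rw [norm_emb, norm_of]; omega, emb_mem (by omega) _⟩
  refine ⟨FreeGroup.lift ψ, ?_, fun x => by simpa using (hψ2 x).2, ?_⟩
  · intro w
    have : (rho n).comp (FreeGroup.lift ψ) = MonoidHom.id _ := by
      ext x
      simp [(hψ2 x).1]
    exact DFunLike.congr_fun this w
  have main : ∀ w : List (Fin n × Bool), (∀ w', w' <:+ w → ∃ i < D.m, D.g i = mk w') →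
      ∀ i < D.m, D.g i = mk w → FreeGroup.lift ψ (mk w) = D.pe X ω (D.en i) * emb n (mk w) := by
    intro w
    induction w with
    | nil =>
      intro _ i h1 h2
      obtain ⟨a1, a2⟩ := hf.root i h1 h2
      rw [hpe i h1, le_antisymm a2.2.2.2 (hf.st_en i h1).2.2.2, Dat.path_st, Dat.base_nil i a1]
      simp [← one_eq_mk]
    | cons a w ih =>
      intro h i h1 h2
      obtain ⟨k, k1, k2⟩ := h w (List.suffix_cons a w)
      have := ih (fun w' hw => h w' (hw.trans (List.suffix_cons a w))) k k1 k2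
      rw [mk_cons, map_mul, this, map_mul]
      rw [mk_cons, ← k2] at h2
      obtain ⟨x, s⟩ := a
      cases s
      · rw [mk_false] at h2 ⊢
        rw [map_inv, lift_apply_of, hψ x i h1 k k1 (by rw [h2]; group), map_inv]
        simp only [Φ]
        group
      · rw [mk_true] at h2 ⊢
        rw [lift_apply_of, hψ x k k1 i h1 h2]
        simp only [Φ]
        group
  intro w h i h1 h2
  rw [main w h i h1 h2, hpe i h1, cnt_path' b τ hb hi _ _ (hpath i h1).1,
    hf.length_path i h1 _ (hf.st_en i h1).2.2.2, Dat.dep, LinearMap.add_apply, LinearMap.proj_apply,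
    Sys.vec_act _ (hf.st_en i h1).2.1]

end Pool.Agent.Lib.MP_16bc4e_al
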