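import Pool.Agent.Lib.MP_16bc4e_al.Tree
import Pool.Agent.Lib.MP_16bc4e_al.Sound

namespace Pool.Agent.Lib.MP_16bc4e_al

open FreeGroup hiding map_inv map_mul map_one norm_one

structure Inp (n : ℕ) where
  m : ℕ
  g : ℕ → FreeGroup (Fin n)
  φ : FreeGroup (Fin n) →* FreeGroup (Fin n)
  x0 : Fin n
  hφ : Function.Injective φ
  hm : 0 < m
  h0 : g 0 = 1
  h1 : ∀ i < m, g i = 1 → i = 0
  hx : ∀ x, ∃ i < m, g i = of x

namespace Inp

variable {n : ℕ} (I : Inp n)

def A (k : ℕ) : FreeGroup (Fin n) := I.φ (I.g k)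

def Kx (x : Fin n) (v : FreeGroup (Fin n)) : Prop :=
  ∃ k < I.m, ∃ k' < I.m, I.g k' = of x * I.g k ∧ ∃ a ≤ norm (I.A k), v = Pv I.A k a

def St (x : Fin n) (v : FreeGroup (Fin n)) : Prop :=
  I.Kx x v ∧ (Sp I.A I.m v ∨ Sp I.A I.m (I.φ (of x) * v))

def Brk (x : Fin n) (i a : ℕ) : Prop :=
  i < I.m ∧ sA I.A i < a ∧ a ≤ norm (I.A i) ∧ I.St x (Pv I.A i a)

def Pc : Type := {p : Fin n × ℕ × ℕ // I.Brk p.1 p.2.1 p.2.2}

def code (q : Fin n × Fin I.m × Fin I.m × Bool × Bool) : Fin n × ℕ × ℕ :=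
  (q.1, q.2.1, norm ((if q.2.2.2.1 then 1 else (I.φ (of q.1))⁻¹) *
    if q.2.2.2.2 then Pv I.A q.2.2.1 (sA I.A q.2.2.1) else I.A q.2.2.1))

lemma code_surj (p : I.Pc) : ∃ q, I.code q = p.1 := by
  obtain ⟨⟨x, i, a⟩, h1, -, h3, -, h4⟩ := p
  simp only at h1 h3 h4
  have := norm_Pv h3
  rcases h4 with ⟨k, hk, h | h⟩ | ⟨k, hk, h | h⟩
  · exact ⟨(x, ⟨i, h1⟩, ⟨k, hk⟩, true, true), by simp [code, ← h, this]⟩
  · exact ⟨(x, ⟨i, h1⟩, ⟨k, hk⟩, true, false), by simp [code, ← h, this]⟩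
  · exact ⟨(x, ⟨i, h1⟩, ⟨k, hk⟩, false, true), by simp [code, ← h, this]⟩
  · exact ⟨(x, ⟨i, h1⟩, ⟨k, hk⟩, false, false), by simp [code, ← h, this]⟩

lemma code_inj : Function.Injective fun p : I.Pc => (I.code_surj p).choose := by
  intro p p' h
  apply Subtype.ext
  rw [← (I.code_surj p).choose_spec, ← (I.code_surj p').choose_spec]
  exact congrArg I.code h

noncomputable instance : Fintype I.Pc := Fintype.ofInjective _ I.code_inj

lemma card_Pc : Fintype.card I.Pc ≤ n * (I.m * (I.m * 4)) := by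
  simpa using Fintype.card_le_of_injective _ I.code_inj

open Classical in
noncomputable def prev (p : I.Pc) : ℕ :=
  Nat.findGreatest (fun b => b = sA I.A p.1.2.1 ∨ I.Brk p.1.1 p.1.2.1 b) (p.1.2.2 - 1)

lemma Kx.le {I : Inp n} {x : Fin n} {i a b : ℕ} (h : I.Kx x (Pv I.A i a)) (h1 : b ≤ a)
    (h2 : a ≤ norm (I.A i)) : I.Kx x (Pv I.A i b) := by
  obtain ⟨k, a1, k', a2, a3, c, a4, a5⟩ := h
  obtain ⟨rfl, e⟩ := Pv_eq h2 a4 a5
  exact ⟨k, a1, k', a2, a3, b, by omega, Pv_eq_of_le (by omega)⟩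

lemma Kx.inK {I : Inp n} {x : Fin n} {v : FreeGroup (Fin n)} (h : I.Kx x v) :
    InK I.A I.m v ∧ InK I.A I.m (I.φ (of x) * v) := by
  obtain ⟨k, a1, k', a2, a3, c, a4, rfl⟩ := h
  obtain ⟨i, b1, b2⟩ := I.hx x
  refine ⟨⟨k, a1, c, a4, rfl⟩, ?_⟩
  rw [← b2]
  exact inK_mul (A := I.A) b1 a2 (by simp only [A]; rw [a3, b2, map_mul]) a4

lemma prev_spec (p : I.Pc) : sA I.A p.1.2.1 ≤ I.prev p ∧ I.prev p < p.1.2.2 ∧
    I.St p.1.1 (Pv I.A p.1.2.1 (I.prev p)) ∧
    ∀ b, I.Brk p.1.1 p.1.2.1 b → b < p.1.2.2 → b ≤ I.prev p := by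
  classical
  obtain ⟨h1, h2, h3, h4⟩ := p.2
  have a1 : I.prev p ≤ p.1.2.2 - 1 := Nat.findGreatest_le _
  have a2 : I.prev p = sA I.A p.1.2.1 ∨ I.Brk p.1.1 p.1.2.1 (I.prev p) :=
    Nat.findGreatest_spec (P := fun b => b = sA I.A p.1.2.1 ∨ I.Brk p.1.1 p.1.2.1 b)
      (m := sA I.A p.1.2.1) (by omega) (Or.inl rfl)
  refine ⟨Nat.le_findGreatest (by omega) (Or.inl rfl), by omega, ?_,
    fun b hb h => Nat.le_findGreatest (by omega) (Or.inr hb)⟩
  rcases a2 with h | h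
  · exact ⟨h4.1.le (by omega) h3, Or.inl ⟨_, h1, Or.inl (by rw [h])⟩⟩
  · exact h.2.2.2

lemma exists_tgt (p : I.Pc) : ∃ t : ℕ × ℤ × Bool, t.1 < I.m ∧ ∀ k ≤ p.1.2.2 - I.prev p, ∃ w : ℕ,
    (w : ℤ) = (if t.2.2 then t.2.1 + k else t.2.1 - k) ∧ sA I.A t.1 ≤ w ∧ w ≤ norm (I.A t.1) ∧
    I.φ (of p.1.1) * Pv I.A p.1.2.1 (I.prev p + k) = Pv I.A t.1 w := by
  obtain ⟨h1, h2, h3, h4⟩ := p.2
  obtain ⟨a1, a2, a3, a4⟩ := I.prev_spec p
  apply path_line (fun k => I.φ (of p.1.1) * Pv I.A p.1.2.1 (I.prev p + k)) _ (by omega)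
  · intro k hk
    exact (h4.1.le (by omega) h3).inK.2
  · intro k hk
    exact (adj_Pv (by omega)).mul _
  · intro k hk e
    have := (Pv_eq (by omega) (by omega) (mul_left_cancel e)).1
    omega
  · intro k k1 k2 e
    have := a4 (I.prev p + k) ⟨h1, by omega, by omega, h4.1.le (by omega) h3, Or.inr e⟩ (by omega)
    omega

noncomputable def tgt (p : I.Pc) : ℕ × ℤ × Bool := (I.exists_tgt p).choose

def sp : ℕ := 3 * (n * (I.m * (I.m * 4))) + 2

def Ix : Type := I.Pc ⊕ (Fin I.m × Bool) ⊕ Fin I.sp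

noncomputable instance : Fintype I.Ix := inferInstanceAs (Fintype (I.Pc ⊕ (Fin I.m × Bool) ⊕ Fin I.sp))

lemma card_Ix : Fintype.card I.Ix = Fintype.card I.Pc + (I.m * 2 + I.sp) := by
  change Fintype.card (I.Pc ⊕ (Fin I.m × Bool) ⊕ Fin I.sp) = _
  simp

noncomputable def S : Sys I.Ix where
  act β := match β with
    | (.inr (.inr _), _) => False
    | _ => True
  line β := match β with
    | (.inl p, false) => p.1.2.1
    | (.inl p, true) => (I.tgt p).1
    | (.inr (.inl (i, false)), true) => parA I.A i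
    | (.inr (.inl (i, false)), false) => i
    | (.inr (.inl (i, true)), _) => i
    | (.inr (.inr _), _) => 0
  dir β := match β with
    | (.inl p, true) => (I.tgt p).2.2
    | _ => true
  x0 β := match β with
    | (.inl p, false) => I.prev p
    | (.inl p, true) => (I.tgt p).2.1
    | (.inr (.inl (i, false)), _) => sA I.A i
    | (.inr (.inl (i, true)), _) => norm (I.A i)
    | (.inr (.inr _), _) => 0
  len j := match j with
    | .inl p => p.1.2.2 - I.prev p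
    | _ => 0

def fin (i : ℕ) : Fin I.m := ⟨i % I.m, Nat.mod_lt _ I.hm⟩

lemma fin_val {i : ℕ} (h : i < I.m) : (I.fin i : ℕ) = i := Nat.mod_eq_of_lt h

noncomputable def D : Dat I.Ix n where
  m := I.m
  par := parA I.A
  gl i := .inr (.inl (I.fin i, false))
  em i := .inr (.inl (I.fin i, true))
  lnI := I.S.line
  lab j := match j with
    | .inl p => p.1.1
    | _ => I.x0
  g := I.g

lemma val : I.S.Val := by
  rintro (p | p | p) s h
  · trivial
  · trivial
  · exact absurd h (lt_irrefl 0)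

lemma nb_le : 3 * I.S.nb + 1 < Fintype.card I.Ix := by
  classical
  have h1 : I.S.nb ≤ Fintype.card I.Pc := by
    unfold Sys.nb
    refine le_trans (Finset.card_le_card (t := Finset.univ.image Sum.inl) ?_)
      (Finset.card_image_le.trans (by simp))
    rintro (p | p | p) h
    · exact Finset.mem_image_of_mem _ (Finset.mem_univ _)
    · exact absurd (Finset.mem_filter.1 h).2 (lt_irrefl 0)
    · exact absurd (Finset.mem_filter.1 h).2 (lt_irrefl 0)
  have h2 := I.card_Pc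
  rw [card_Ix, sp]
  omega

/-- vertex at parameter `k` of a base -/
noncomputable def V (β : I.Ix × Bool) (k : ℕ) : FreeGroup (Fin n) :=
  Pv I.A (I.S.line β) (I.S.pt β k).toNat

lemma on_line (β : I.Ix × Bool) (h : I.S.act β) (k : ℕ) (hk : k ≤ I.S.len β.1) :
    I.S.line β < I.m ∧ (sA I.A (I.S.line β) : ℤ) ≤ I.S.pt β k ∧
      I.S.pt β k ≤ norm (I.A (I.S.line β)) := by
  rcases β with ⟨p | ⟨i, _ | _⟩ | p, _ | _⟩
  · obtain ⟨h1, h2, h3, h4⟩ := p.2
    obtain ⟨a1, a2, -⟩ := I.prev_spec p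
    simp only [S, Sys.pt, if_true] at hk ⊢
    omega
  · obtain ⟨h1, h2⟩ := (I.exists_tgt p).choose_spec
    obtain ⟨w, a1, a2, a3, -⟩ := h2 k hk
    refine ⟨h1, ?_⟩
    change (sA I.A (I.tgt p).1 : ℤ) ≤ (if (I.tgt p).2.2 then (I.tgt p).2.1 + k else
      (I.tgt p).2.1 - k) ∧ (if (I.tgt p).2.2 then (I.tgt p).2.1 + k else
      (I.tgt p).2.1 - k) ≤ (norm (I.A (I.tgt p).1) : ℤ)
    unfold tgt
    rw [← a1]
    omega
  · have := sA_le (A := I.A) i
    have := i.2
    simp only [S, Sys.pt, if_true] at hk ⊢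
    omega
  · have := parA_le (A := I.A) i
    have := i.2
    simp only [S, Sys.pt, if_true] at hk ⊢
    omega
  · have := sA_le (A := I.A) i
    have := i.2
    simp only [S, Sys.pt, if_true] at hk ⊢
    omega
  · have := sA_le (A := I.A) i
    have := i.2
    simp only [S, Sys.pt, if_true] at hk ⊢
    omega
  · exact h.elim
  · exact h.elim

lemma V_src (p : I.Pc) (k : ℕ) : I.V (.inl p, false) k = Pv I.A p.1.2.1 (I.prev p + k) := by
  simp only [V, S, Sys.pt, if_true]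
  congr 1

lemma V_tgt (p : I.Pc) (k : ℕ) (hk : k ≤ p.1.2.2 - I.prev p) :
    I.V (.inl p, true) k = I.φ (of p.1.1) * I.V (.inl p, false) k := by
  obtain ⟨h1, h2⟩ := (I.exists_tgt p).choose_spec
  obtain ⟨w, a1, a2, a3, a4⟩ := h2 k hk
  rw [V_src, a4]
  change Pv I.A (I.tgt p).1 (if (I.tgt p).2.2 then (I.tgt p).2.1 + k else
      (I.tgt p).2.1 - k : ℤ).toNat = _
  unfold tgt
  rw [← a1, Int.toNat_natCast]

lemma cell_ends (β : I.Ix × Bool) (k : ℕ) :
    (Pv I.A (I.S.line β) (I.S.cz β k).toNat = I.V β k ∧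
      Pv I.A (I.S.line β) (I.S.cz β k + 1).toNat = I.V β (k + 1)) ∨
    (Pv I.A (I.S.line β) (I.S.cz β k).toNat = I.V β (k + 1) ∧
      Pv I.A (I.S.line β) (I.S.cz β k + 1).toNat = I.V β k) := by
  unfold V Sys.cz Sys.pt
  split_ifs
  · exact Or.inl ⟨rfl, by congr 2; push_cast; ring⟩
  · exact Or.inr ⟨by congr 2; push_cast; ring, by congr 2; ring⟩

lemma mem_Ed {e : I.Ix × ℕ} (h : e ∈ I.S.Ed) :
    ∃ p k, e = (.inl p, k) ∧ k < p.1.2.2 - I.prev p := by
  rcases e with ⟨p | p | p, k⟩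
  · exact ⟨p, k, rfl, h⟩
  · exact absurd h (Nat.not_lt_zero _)
  · exact absurd h (Nat.not_lt_zero _)

lemma det_src (p p' : I.Pc) (k k' : ℕ) (h : k < p.1.2.2 - I.prev p) (h' : k' < p'.1.2.2 - I.prev p')
    (e1 : p.1.1 = p'.1.1) (e2 : p.1.2.1 = p'.1.2.1) (e3 : I.prev p + k = I.prev p' + k') :
    p = p' ∧ k = k' := by
  have : p = p' := by
    apply Subtype.ext
    refine Prod.ext e1 (Prod.ext e2 ?_)
    have a := (I.prev_spec p).2.2.2 p'.1.2.2 (by rw [e1, e2]; exact p'.2)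
    have b := (I.prev_spec p').2.2.2 p.1.2.2 (by rw [← e1, ← e2]; exact p.2)
    omega
  subst this
  exact ⟨rfl, by omega⟩

lemma det : DetG I.S.Ed I.S.cl fun e => I.D.lab e.1 := by
  intro e he e' he' s hl hc
  obtain ⟨p, k, rfl, h⟩ := I.mem_Ed he
  obtain ⟨p', k', rfl, h'⟩ := I.mem_Ed he'
  have e1 : p.1.1 = p'.1.1 := hl
  obtain ⟨c1, c2⟩ := Prod.mk.inj hc
  have : p.1.2.1 = p'.1.2.1 ∧ I.prev p + k = I.prev p' + k' := by
    cases s
    · refine ⟨c1, ?_⟩
      simp only [S, Sys.cz, if_true] at c2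
      omega
    · obtain ⟨h1, h2, h3, -⟩ := p.2
      obtain ⟨a1, a2, -⟩ := I.prev_spec p
      obtain ⟨h1', h2', h3', -⟩ := p'.2
      obtain ⟨a1', a2', -⟩ := I.prev_spec p'
      have b1 := I.cell_ends (.inl p, true) k
      have b2 := I.cell_ends (.inl p', true) k'
      simp only at c1 c2
      rw [c1, c2, I.V_tgt p k (by omega), I.V_tgt p (k + 1) (by omega), V_src, V_src] at b1
      rw [I.V_tgt p' k' (by omega), I.V_tgt p' (k' + 1) (by omega), V_src, V_src, ← e1] at b2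
      have key : Pv I.A p.1.2.1 (I.prev p + (k + 1)) = Pv I.A p'.1.2.1 (I.prev p' + (k' + 1)) := by
        rcases b1 with b1 | b1 <;> rcases b2 with b2 | b2
        · exact mul_left_cancel (b1.2.symm.trans b2.2)
        · have d1 := (Pv_eq (by omega) (by omega) (mul_left_cancel (b1.1.symm.trans b2.1))).1
          have d2 := (Pv_eq (by omega) (by omega) (mul_left_cancel (b1.2.symm.trans b2.2))).1
          omega
        · have d1 := (Pv_eq (by omega) (by omega) (mul_left_cancel (b1.1.symm.trans b2.1))).1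
          have d2 := (Pv_eq (by omega) (by omega) (mul_left_cancel (b1.2.symm.trans b2.2))).1
          omega
        · exact mul_left_cancel (b1.1.symm.trans b2.1)
      have d := (Pv_eq (by omega) (by omega) key).1
      refine ⟨?_, by omega⟩
      rcases lt_trichotomy p.1.2.1 p'.1.2.1 with h5 | h5 | h5
      · have := two_lines (by omega) (by omega) (by omega) key.symm h5
        omega
      · exact h5
      · have := two_lines (by omega) (by omega) (by omega) key h5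
        omega
  obtain ⟨rfl, rfl⟩ := I.det_src p p' k k' h h' e1 this.1 this.2
  rfl

lemma acyc : I.S.Acyc := by
  have hf : I.S.Ed.Finite := by
    refine ((Set.toFinite (Set.univ : Set I.Ix)).prod
      (Set.finite_lt_nat (Finset.univ.sup I.S.len))).subset fun e he => ⟨trivial, ?_⟩
    exact lt_of_lt_of_le he (Finset.le_sup (f := I.S.len) (Finset.mem_univ e.1))
  refine acg_of_pot _ _ _ I.det hf I.φ I.hφ
    (fun c => tl (Pv I.A c.1 c.2.toNat) (Pv I.A c.1 (c.2 + 1).toNat)) ?_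
  intro e he
  obtain ⟨p, k, rfl, h⟩ := I.mem_Ed he
  have h3 := p.2.2.2.1
  have adj : Adj (I.V (.inl p, false) k) (I.V (.inl p, false) (k + 1)) := by
    rw [V_src, V_src]
    exact adj_Pv (by omega)
  have e1 : ∀ s, Adj (I.V (.inl p, s) k) (I.V (.inl p, s) (k + 1)) →
      tl (Pv I.A (I.S.cl (.inl p, k) s).1 (I.S.cl (.inl p, k) s).2.toNat)
        (Pv I.A (I.S.cl (.inl p, k) s).1 ((I.S.cl (.inl p, k) s).2 + 1).toNat) =
      tl (I.V (.inl p, s) k) (I.V (.inl p, s) (k + 1)) := by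
    intro s hs
    rcases I.cell_ends (.inl p, s) k with b | b
    · exact congrArg₂ tl b.1 b.2
    · exact (congrArg₂ tl b.1 b.2).trans (tl_comm hs).symm
  have e2 := e1 true (by
    rw [I.V_tgt p k (by omega), I.V_tgt p (k + 1) (by omega)]; exact adj.mul _)
  simp only
  rw [e2, e1 false adj, I.V_tgt p k (by omega), I.V_tgt p (k + 1) (by omega), tl_mul]
  rfl

end Inp

end Pool.Agent.Lib.MP_16bc4e_al
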