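import Pool.Agent.Lib.MP_16bc4e_al.Defs

namespace Pool.Agent.Lib.MP_16bc4e_al

open FreeGroup

/-- length of the longest common initial segment -/
def lcp {β : Type*} [DecidableEq β] : List β → List β → ℕ
  | a :: l, b :: m => if a = b then lcp l m + 1 else 0
  | _, _ => 0

section
variable {β : Type*} [DecidableEq β]

lemma le_lcp_iff : ∀ (k : ℕ) (l m : List β),
    k ≤ lcp l m ↔ k ≤ l.length ∧ k ≤ m.length ∧ l.take k = m.take k
  | 0, l, m => by simp
  | k + 1, [], m => by simp [lcp]
  | k + 1, a :: l, [] => by simp [lcp]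
  | k + 1, a :: l, b :: m => by
    have := le_lcp_iff k l m
    by_cases h : a = b
    · simp [lcp, h, this]
    · simp [lcp, h]

lemma lcp_le_left (l m : List β) : lcp l m ≤ l.length := ((le_lcp_iff _ l m).1 le_rfl).1

lemma lcp_le_right (l m : List β) : lcp l m ≤ m.length := ((le_lcp_iff _ l m).1 le_rfl).2.1

lemma take_lcp (l m : List β) {k : ℕ} (h : k ≤ lcp l m) : l.take k = m.take k :=
  ((le_lcp_iff _ l m).1 h).2.2

lemma lcp_comm (l m : List β) : lcp l m = lcp m l := by
  apply le_antisymm <;> rw [le_lcp_iff]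
  · exact ⟨lcp_le_right _ _, lcp_le_left _ _, (take_lcp _ _ le_rfl).symm⟩
  · exact ⟨lcp_le_right _ _, lcp_le_left _ _, (take_lcp _ _ le_rfl).symm⟩

lemma lcp_trans (a b c : List β) {k : ℕ} (h1 : k ≤ lcp a b) (h2 : k ≤ lcp b c) : k ≤ lcp a c := by
  rw [le_lcp_iff] at h1 h2 ⊢
  exact ⟨h1.1, h2.2.1, h1.2.2.trans h2.2.2⟩

lemma lcp_ultra (a b c : List β) (h : lcp a b < lcp b c) : lcp a c = lcp a b := by
  apply le_antisymm
  · by_contra hn
    have h1 : lcp a b + 1 ≤ lcp a c := by omega
    have h2 : lcp a b + 1 ≤ lcp c b := by rw [lcp_comm c b]; omega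
    have := lcp_trans a c b h1 h2
    omega
  · exact lcp_trans a b c le_rfl h.le

lemma lcp_head : ∀ (l m : List β), ∀ x ∈ (l.drop (lcp l m)).head?,
    ∀ y ∈ (m.drop (lcp l m)).head?, x ≠ y
  | [], m => by simp
  | a :: l, [] => by simp [lcp]
  | a :: l, b :: m => by
    by_cases h : a = b
    · simpa [lcp, h] using lcp_head l m
    · simp [lcp, h]

end

variable {α : Type*}

/-- inverse letter -/
def bar (a : α × Bool) : α × Bool := (a.1, !a.2)

@[simp] lemma bar_bar (a : α × Bool) : bar (bar a) = a := by simp [bar]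

@[simp] lemma bar_fst (a : α × Bool) : (bar a).1 = a.1 := rfl

lemma bar_ne (a : α × Bool) : bar a ≠ a := by
  obtain ⟨x, b⟩ := a
  cases b <;> simp [bar]

lemma bar_inj {a b : α × Bool} (h : bar a = bar b) : a = b := by
  rw [← bar_bar a, h, bar_bar]

lemma red_iff (a b : α × Bool) : (a.1 = b.1 → a.2 = b.2) ↔ b ≠ bar a := by
  obtain ⟨x, s⟩ := a
  obtain ⟨y, t⟩ := b
  cases s <;> cases t <;> simp [bar, eq_comm]

lemma isReduced_cons_cons' {a b : α × Bool} {l : List (α × Bool)} :
    IsReduced (a :: b :: l) ↔ b ≠ bar a ∧ IsReduced (b :: l) := by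
  rw [isReduced_cons_cons, red_iff]

lemma isReduced_append {l m : List (α × Bool)} : IsReduced (l ++ m) ↔
    IsReduced l ∧ IsReduced m ∧ ∀ x ∈ l.getLast?, ∀ y ∈ m.head?, y ≠ bar x := by
  unfold FreeGroup.IsReduced
  rw [List.isChain_append]
  simp only [red_iff]

lemma isReduced_cons {a : α × Bool} {m : List (α × Bool)} : IsReduced (a :: m) ↔
    IsReduced m ∧ ∀ y ∈ m.head?, y ≠ bar a := by
  have := isReduced_append (l := [a]) (m := m)
  simpa using this

lemma invRev_eq (l : List (α × Bool)) : invRev l = (l.map bar).reverse := rfl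

lemma mk_bar (a : α × Bool) : mk [bar a] = (mk [a])⁻¹ := by
  rw [inv_mk]; rfl

lemma mk_cons (a : α × Bool) (l : List (α × Bool)) : mk (a :: l) = mk [a] * mk l := by
  rw [mul_mk]; rfl

variable [DecidableEq α]

lemma IsReduced.toWord_mk {l : List (α × Bool)} (h : IsReduced l) : (mk l).toWord = l := by
  rw [FreeGroup.toWord_mk, h.reduce_eq]

lemma IsReduced.norm_mk {l : List (α × Bool)} (h : IsReduced l) : norm (mk l) = l.length := by
  unfold FreeGroup.norm
  rw [IsReduced.toWord_mk h]

omit [DecidableEq α] in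
lemma IsReduced.invRev' {l : List (α × Bool)} (h : IsReduced l) : IsReduced (invRev l) := by
  classical
  rw [isReduced_iff_reduce_eq, reduce_invRev, h.reduce_eq]

omit [DecidableEq α] in
lemma IsReduced.drop' {l : List (α × Bool)} (h : IsReduced l) (k : ℕ) : IsReduced (l.drop k) :=
  (isReduced_append.1 ((List.take_append_drop k l).symm ▸ h)).2.1

omit [DecidableEq α] in
lemma IsReduced.take' {l : List (α × Bool)} (h : IsReduced l) (k : ℕ) : IsReduced (l.take k) :=
  (isReduced_append.1 ((List.take_append_drop k l).symm ▸ h)).1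

/-- Gromov product at the identity -/
def G (g h : FreeGroup α) : ℕ := lcp g.toWord h.toWord

lemma G_comm (g h : FreeGroup α) : G g h = G h g := lcp_comm _ _

lemma G_le_left (g h : FreeGroup α) : G g h ≤ norm g := lcp_le_left _ _

lemma G_le_right (g h : FreeGroup α) : G g h ≤ norm h := lcp_le_right _ _

lemma G_ultra (a b c : FreeGroup α) (h : G a b < G b c) : G a c = G a b := lcp_ultra _ _ _ h

lemma toWord_inv_mul (g h : FreeGroup α) : (g⁻¹ * h).toWord =
    invRev (g.toWord.drop (G g h)) ++ h.toWord.drop (G g h) := by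
  have h1 : IsReduced (invRev (g.toWord.drop (G g h)) ++ h.toWord.drop (G g h)) := by
    rw [isReduced_append]
    refine ⟨IsReduced.invRev' (IsReduced.drop' isReduced_toWord _),
      IsReduced.drop' isReduced_toWord _, ?_⟩
    intro x hx y hy
    rw [invRev_eq, List.getLast?_reverse, List.head?_map] at hx
    obtain ⟨x', h2, rfl⟩ := Option.mem_map.1 hx
    rw [bar_bar]
    exact (lcp_head _ _ x' h2 y hy).symm
  rw [← IsReduced.toWord_mk h1, ← mul_mk, ← inv_mk]
  congr 1
  have e1 : g = mk (g.toWord.take (G g h)) * mk (g.toWord.drop (G g h)) := by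
    rw [mul_mk, List.take_append_drop, mk_toWord]
  have e2 : h = mk (g.toWord.take (G g h)) * mk (h.toWord.drop (G g h)) := by
    rw [take_lcp g.toWord h.toWord (k := G g h) le_rfl, mul_mk, List.take_append_drop, mk_toWord]
  generalize mk (g.toWord.drop (G g h)) = A at e1 ⊢
  generalize mk (h.toWord.drop (G g h)) = B at e2 ⊢
  generalize mk (g.toWord.take (G g h)) = C at e1 e2
  rw [e1, e2]
  group

lemma norm_inv_mul (g h : FreeGroup α) : norm (g⁻¹ * h) + 2 * G g h = norm g + norm h := by
  have h1 := G_le_left g h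
  have h2 := G_le_right g h
  unfold FreeGroup.norm at *
  rw [toWord_inv_mul, List.length_append, invRev_length, List.length_drop, List.length_drop]
  omega

lemma norm_letter (a : α × Bool) : norm (mk [a]) = 1 := IsReduced.norm_mk IsReduced.singleton

lemma letter_mul_cases (a : α × Bool) (g : FreeGroup α) :
    (g.toWord.head? ≠ some (bar a) ∧ (mk [a] * g).toWord = a :: g.toWord) ∨
    (g.toWord = bar a :: (mk [a] * g).toWord) := by
  by_cases h : g.toWord.head? = some (bar a)
  · right
    obtain ⟨l, hl⟩ := List.head?_eq_some_iff.1 h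
    have h1 : IsReduced l := by
      have := isReduced_toWord (x := g)
      rw [hl, isReduced_cons] at this
      exact this.1
    have : mk [a] * g = mk l := by
      rw [← mk_toWord (x := g), hl, mk_cons (bar a), mk_bar]; group
    rw [this, IsReduced.toWord_mk h1, hl]
  · left
    refine ⟨h, ?_⟩
    have h1 : IsReduced (a :: g.toWord) := by
      rw [isReduced_cons]
      exact ⟨isReduced_toWord, fun y hy hn => h (by rw [← hn]; exact hy)⟩
    rw [← IsReduced.toWord_mk h1, mk_cons a g.toWord, mk_toWord]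

lemma norm_letter_mul (a : α × Bool) (g : FreeGroup α) :
    norm (mk [a] * g) = norm g + 1 ∨ norm (mk [a] * g) + 1 = norm g := by
  unfold FreeGroup.norm
  rcases letter_mul_cases a g with h | h
  · left; rw [h.2]; rfl
  · right; conv_rhs => rw [h]
    rfl

lemma head_of_norm_lt (a : α × Bool) (g : FreeGroup α) (h : norm g < norm (mk [a] * g)) :
    (mk [a] * g).toWord.head? = some a := by
  rcases letter_mul_cases a g with h1 | h1
  · rw [h1.2]; rfl
  · have := congrArg List.length h1
    unfold FreeGroup.norm at h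
    simp only [List.length_cons] at this
    omega

lemma letter_unique (a b : α × Bool) (g h : FreeGroup α) (e : mk [a] * g = mk [b] * h)
    (h1 : norm g < norm (mk [a] * g)) (h2 : norm h < norm (mk [b] * h)) : a = b := by
  have c1 := head_of_norm_lt a g h1
  have c2 := head_of_norm_lt b h h2
  rw [e, c2] at c1
  exact (Option.some.inj c1).symm

lemma exists_cyc (g : FreeGroup α) : ∃ (t c : List (α × Bool)), IsCyclicallyReduced c ∧
    g = mk t * mk c * (mk t)⁻¹ ∧ ∀ k, norm (g ^ (k + 1)) = 2 * t.length + (k + 1) * c.length := by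
  refine ⟨reduceCyclically.conjugator g.toWord, reduceCyclically g.toWord,
    reduceCyclically.isCyclicallyReduced isReduced_toWord, ?_, ?_⟩
  · rw [inv_mk, mul_mk, mul_mk, reduceCyclically.conj_conjugator_reduceCyclically, mk_toWord]
  · intro k
    unfold FreeGroup.norm
    rw [toWord_pow, reduceCyclically.reduce_flatten_replicate_succ isReduced_toWord]
    simp
    ring

/-- `lam g = |g²| - |g|` -/
def lam (g : FreeGroup α) : ℕ := norm (g * g) - norm g

lemma norm_le_sq (g : FreeGroup α) : norm g ≤ norm (g * g) := by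
  obtain ⟨t, c, -, -, h⟩ := exists_cyc g
  have h1 := h 0
  have h2 := h 1
  rw [zero_add, pow_one] at h1
  rw [show (1 + 1 : ℕ) = 2 from rfl, pow_two] at h2
  omega

lemma lam_le_norm_conj (g k : FreeGroup α) : lam g ≤ lam (k * g * k⁻¹) := by
  obtain ⟨t, c, -, -, h⟩ := exists_cyc g
  obtain ⟨t', c', -, -, h'⟩ := exists_cyc (k * g * k⁻¹)
  have e : ∀ (x : FreeGroup α) (t c : List (α × Bool)),
      (∀ k, norm (x ^ (k + 1)) = 2 * t.length + (k + 1) * c.length) → lam x = c.length := by
    intro x t c h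
    have h1 := h 0
    have h2 := h 1
    rw [zero_add, pow_one] at h1
    rw [show (1 + 1 : ℕ) = 2 from rfl, pow_two] at h2
    unfold lam; omega
  rw [e _ _ _ h, e _ _ _ h']
  by_contra hn
  set N := 2 * t'.length + 2 * norm k
  have h1 := h N
  have h2 := h' N
  have h3 : g ^ (N + 1) = k⁻¹ * (k * g * k⁻¹) ^ (N + 1) * k := by
    rw [conj_pow]; group
  have h4 := norm_mul_le (k⁻¹ * (k * g * k⁻¹) ^ (N + 1)) k
  have h5 := norm_mul_le k⁻¹ ((k * g * k⁻¹) ^ (N + 1))
  rw [← h3, h1] at h4
  rw [norm_inv_eq, h2] at h5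
  have h6 : (N + 1) * (c'.length + 1) ≤ (N + 1) * c.length := Nat.mul_le_mul_left _ (by omega)
  rw [mul_add] at h6
  omega

lemma lam_conj (g k : FreeGroup α) : lam (k * g * k⁻¹) = lam g := by
  apply le_antisymm _ (lam_le_norm_conj g k)
  have := lam_le_norm_conj (k * g * k⁻¹) k⁻¹
  rwa [show k⁻¹ * (k * g * k⁻¹) * k⁻¹⁻¹ = g by group] at this

lemma lam_le_norm (g : FreeGroup α) : lam g ≤ norm g := by
  have := norm_mul_le g g
  unfold lam; omega

omit [DecidableEq α] in
lemma cyc_append {c : List (α × Bool)} (h : IsCyclicallyReduced c) : IsReduced (c ++ c) := by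
  have := (h.flatten_replicate 2).isReduced
  simpa using this

lemma lam_cyc {c : List (α × Bool)} (h : IsCyclicallyReduced c) : lam (mk c) = c.length := by
  unfold lam
  rw [mul_mk, IsReduced.norm_mk (cyc_append h), IsReduced.norm_mk h.isReduced]
  simp

lemma cyclen_eq {n : ℕ} (g : FreeGroup (Fin n)) : cyclen g = lam g := by
  obtain ⟨t, c, hc, e, -⟩ := exists_cyc g
  have m : lam g ∈ {k | ∃ h : FreeGroup (Fin n), IsConj g h ∧ FreeGroup.norm h = k} := by
    refine ⟨mk c, (isConj_iff.2 ⟨mk t, e.symm⟩).symm, ?_⟩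
    rw [e, lam_conj, lam_cyc hc, IsReduced.norm_mk hc.isReduced]
  apply le_antisymm (Nat.sInf_le m)
  obtain ⟨h, h1, h2⟩ := Nat.sInf_mem ⟨_, m⟩
  obtain ⟨k, rfl⟩ := isConj_iff.1 h1
  rw [← h2, ← lam_conj g k]
  exact lam_le_norm _

end Pool.Agent.Lib.MP_16bc4e_al
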