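import Pool.Agent.Lib.MP_16bc4e_al.Lcp

namespace Pool.Agent.Lib.MP_16bc4e_al

open FreeGroup hiding map_inv map_mul map_one norm_one

/-- sum over adjacent pairs -/
def PS {β : Type*} (f : β → β → ℕ) : List β → ℕ
  | a :: b :: r => f a b + PS f (b :: r)
  | _ => 0

variable {X Y : Type*} [DecidableEq Y]

/-- cancellation between the images of two letters -/
def canc (ψ : FreeGroup X →* FreeGroup Y) (a b : X × Bool) : ℕ :=
  G (ψ (mk [bar a])) (ψ (mk [b]))

def NR (ψ : FreeGroup X →* FreeGroup Y) : Prop :=
  ∀ a b d, b ≠ bar a → d ≠ bar b → canc ψ a b + canc ψ b d < norm (ψ (mk [b]))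

lemma norm_mul_G (ψ : FreeGroup X →* FreeGroup Y) (a : X × Bool) (h : FreeGroup Y) :
    norm (ψ (mk [a]) * h) + 2 * G (ψ (mk [bar a])) h = norm (ψ (mk [a])) + norm h := by
  have := norm_inv_mul (ψ (mk [bar a])) h
  rw [mk_bar, map_inv, inv_inv, norm_inv_eq] at this
  rw [mk_bar, map_inv]
  exact this

lemma canc_symm (ψ : FreeGroup X →* FreeGroup Y) (a b : X × Bool) :
    canc ψ (bar b) (bar a) = canc ψ a b := by
  unfold canc; rw [bar_bar, G_comm]

lemma NR.head {ψ : FreeGroup X →* FreeGroup Y} (h : NR ψ) : ∀ (r : List (X × Bool)) (b : X × Bool),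
    IsReduced (b :: r) → ∀ a, b ≠ bar a → G (ψ (mk [bar a])) (ψ (mk (b :: r))) = canc ψ a b := by
  intro r
  induction r with
  | nil => intro b _ a _; rfl
  | cons d r ih =>
    intro b hr a ha
    rw [isReduced_cons_cons'] at hr
    have h1 := ih d hr.2 b hr.1
    have h2 := norm_mul_G ψ b (ψ (mk (d :: r)))
    have h3 := norm_inv_mul (ψ (mk [b])) (ψ (mk [b]) * ψ (mk (d :: r)))
    rw [inv_mul_cancel_left] at h3
    rw [mk_cons b, map_mul]
    have h4 := h a b d ha hr.1
    apply G_ultra _ (ψ (mk [b]))
    unfold canc at h4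
    rw [h1] at h2
    unfold canc at h2
    omega

lemma NR.norm_eq {ψ : FreeGroup X →* FreeGroup Y} (h : NR ψ) : ∀ (w : List (X × Bool)),
    IsReduced w → norm (ψ (mk w)) + 2 * PS (canc ψ) w = (w.map fun a => norm (ψ (mk [a]))).sum := by
  intro w
  induction w with
  | nil => intro _; simp [PS, ← one_eq_mk]
  | cons a w ih =>
    intro hr
    cases w with
    | nil => simp [PS]
    | cons b r =>
      rw [isReduced_cons_cons'] at hr
      have h1 := ih hr.2
      have h2 := norm_mul_G ψ a (ψ (mk (b :: r)))
      rw [h.head r b hr.2 a hr.1] at h2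
      rw [mk_cons a, map_mul, List.map_cons, List.sum_cons, PS, ← h1]
      omega

section nu
variable [DecidableEq X]

def nuH (a b : X × Bool) : FreeGroup X →* FreeGroup X :=
  lift fun x => if x = a.1 then (if a.2 then mk [a] * mk [b] else (mk [a] * mk [b])⁻¹) else of x

lemma nuH_self (a b : X × Bool) : nuH a b (mk [a]) = mk [a] * mk [b] := by
  obtain ⟨x, s⟩ := a
  cases s <;> simp [nuH]

lemma nuH_bar (a b : X × Bool) : nuH a b (mk [bar a]) = mk [bar b] * mk [bar a] := by
  rw [mk_bar, map_inv, nuH_self, mul_inv_rev, mk_bar]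

lemma nuH_other (a b x : X × Bool) (h : x.1 ≠ a.1) : nuH a b (mk [x]) = mk [x] := by
  obtain ⟨x, s⟩ := x
  simp only at h
  cases s
  · simp only [nuH, lift_mk, List.map_cons, List.map_nil, List.prod_cons, List.prod_nil, mul_one,
      if_neg h, cond_false]
    exact (mk_bar (x, true)).symm
  · simp only [nuH, lift_mk, List.map_cons, List.map_nil, List.prod_cons, List.prod_nil, mul_one,
      if_neg h, cond_true]
    rfl

omit [DecidableEq X] in
lemma eq_or_bar (x a : X × Bool) (h : x.1 = a.1) : x = a ∨ x = bar a := by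
  obtain ⟨x, s⟩ := x
  obtain ⟨y, t⟩ := a
  simp only at h
  subst h
  cases s <;> cases t <;> simp [bar]

lemma nuH_comp (a b : X × Bool) (h : b.1 ≠ a.1) :
    (nuH a (bar b)).comp (nuH a b) = MonoidHom.id _ := by
  have h1 : nuH a (bar b) (nuH a b (mk [a])) = mk [a] := by
    rw [nuH_self, map_mul, nuH_self, nuH_other a _ b h, mk_bar]; group
  ext x
  change nuH a (bar b) (nuH a b (mk [(x, true)])) = mk [(x, true)]
  by_cases hx : x = a.1
  · rcases eq_or_bar (x, true) a hx with h2 | h2
    · rw [h2, h1]
    · rw [h2, mk_bar, map_inv, map_inv, h1]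
  · rw [nuH_other a b _ hx, nuH_other a _ _ hx]

/-- the Nielsen automorphism `a ↦ a b` -/
def nu (a b : X × Bool) (h : b.1 ≠ a.1) : MulAut (FreeGroup X) :=
  MonoidHom.toMulEquiv (nuH a b) (nuH a (bar b)) (nuH_comp a b h)
    (by have := nuH_comp a (bar b) h; rwa [bar_bar] at this)

lemma nu_apply (a b : X × Bool) (h : b.1 ≠ a.1) (g : FreeGroup X) : nu a b h g = nuH a b g := rfl

end nu

lemma lex_append {β : Type*} {r : β → β → Prop} {p q : List β} (h : List.Lex r p q)
    (hl : p.length = q.length) (s : List β) : List.Lex r (p ++ s) (q ++ s) := by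
  induction h with
  | nil => simp at hl
  | rel h => exact List.Lex.rel h
  | cons _ ih => exact List.Lex.cons (ih (by simpa using hl))

lemma norm_letter_eq (ψ : FreeGroup X →* FreeGroup Y) (a : X × Bool) :
    norm (ψ (mk [a])) = norm (ψ (of a.1)) := by
  obtain ⟨x, s⟩ := a
  cases s
  · have := mk_bar (x, true)
    simp only [bar, Bool.not_true] at this
    rw [this, map_inv, norm_inv_eq]; rfl
  · rfl

theorem exists_NR [Fintype X] [DecidableEq X] (ψ : FreeGroup X →* FreeGroup ℕ)
    (hψ : Function.Injective ψ) :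
    ∃ α : MulAut (FreeGroup X), NR (ψ.comp (α : FreeGroup X →* FreeGroup X)) := by
  let m1 : MulAut (FreeGroup X) → ℕ := fun α => ∑ x, norm (ψ (α (of x)))
  let r : ℕ × Bool → ℕ × Bool → Prop := fun a b => Encodable.encode a < Encodable.encode b
  have : IsWellFounded _ (List.Shortlex r) :=
    ⟨List.Shortlex.wf (InvImage.wf Encodable.encode wellFounded_lt)⟩
  have : Std.Trichotomous r := ⟨fun a b h1 h2 => Encodable.encode_injective (by
    simp only [r] at h1 h2; omega)⟩
  let H : List (ℕ × Bool) → List (ℕ × Bool) := fun w => w.take (w.length / 2)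
  let m2 : MulAut (FreeGroup X) → (X × Bool → Ordinal.{0}) := fun α a =>
    IsWellFounded.rank (List.Shortlex r) (H (ψ (α (mk [a]))).toWord)
  obtain ⟨α0, hα0⟩ : ∃ α0, ∀ α, m1 α0 ≤ m1 α :=
    ⟨Function.argmin m1, fun α => Function.argmin_le m1 α⟩
  obtain ⟨α, hα, hmin⟩ := (InvImage.wf m2 wellFounded_lt).has_min {α | m1 α = m1 α0} ⟨α0, rfl⟩
  have hm : ∀ β, m1 α ≤ m1 β := fun β => le_trans (le_of_eq hα) (hα0 β)
  refine ⟨α, ?_⟩
  set χ := ψ.comp (α : FreeGroup X →* FreeGroup X) with hχ
  have hχa : ∀ g, ψ (α g) = χ g := fun g => rfl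
  have key : ∀ (a b : X × Bool) (h : b.1 ≠ a.1),
      m1 (α * nu a b h) + norm (χ (mk [a])) = m1 α + norm (χ (mk [a]) * χ (mk [b])) := by
    intro a b h
    simp only [m1]
    rw [← Finset.add_sum_erase _ _ (Finset.mem_univ a.1),
      ← Finset.add_sum_erase _ _ (Finset.mem_univ a.1)]
    have e1 : ∑ x ∈ Finset.univ.erase a.1, norm (ψ ((α * nu a b h) (of x))) =
        ∑ x ∈ Finset.univ.erase a.1, norm (ψ (α (of x))) := by
      apply Finset.sum_congr rfl
      intro x hx
      rw [MulAut.mul_apply, nu_apply]
      exact congrArg (fun g => norm (ψ (α g)))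
        (nuH_other a b (x, true) (Finset.mem_erase.1 hx).1)
    have e2 : norm (ψ ((α * nu a b h) (of a.1))) = norm (χ (mk [a]) * χ (mk [b])) := by
      have := norm_letter_eq (χ.comp (nuH a b)) a
      rw [MonoidHom.comp_apply, nuH_self, map_mul] at this
      exact this.symm
    have e3 := norm_letter_eq χ a
    rw [e1, e2, e3, hχa]
    omega
  have N2 : ∀ a b : X × Bool, b ≠ bar a → 2 * canc χ a b ≤ norm (χ (mk [b])) := by
    intro a b hab
    have h1 := norm_mul_G χ a (χ (mk [b]))
    by_cases h : b.1 = a.1
    · have := (eq_or_bar b a h).resolve_right hab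
      subst this
      have := norm_le_sq (χ (mk [b]))
      unfold canc; omega
    · have := key a b h
      have := hm (α * nu a b h)
      unfold canc; omega
  have N2' : ∀ a b : X × Bool, b ≠ bar a → 2 * canc χ a b ≤ norm (χ (mk [a])) := by
    intro a b hab
    have := N2 (bar b) (bar a) (by rw [bar_bar]; exact hab.symm)
    rwa [canc_symm, mk_bar, map_inv, norm_inv_eq] at this
  have hW : ∀ b : X × Bool, (χ (mk [bar b])).toWord = invRev (χ (mk [b])).toWord := by
    intro b; rw [mk_bar, map_inv, toWord_inv]
  have step : ∀ (b d : X × Bool) (k : ℕ), d ≠ bar b → canc χ b d = k →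
      norm (χ (mk [b])) = 2 * k →
      List.Shortlex r ((χ (mk [b])).toWord.take k) ((χ (mk [bar b])).toWord.take k) → False := by
    intro b d k hd hc hn hlt
    have hlen : (χ (mk [b])).toWord.length = 2 * k := hn
    have hq : (χ (mk [bar b])).toWord.take k = (χ (mk [d])).toWord.take k :=
      take_lcp _ _ (le_of_eq hc.symm)
    have hdb : (bar b).1 ≠ (bar d).1 := by
      intro h
      have := (eq_or_bar d b h.symm).resolve_right hd
      subst this
      rw [hq] at hlt
      exact absurd hlt (irrefl_of _ _)
    have h2k := N2 b d hd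
    rw [hc] at h2k
    have hdl : 2 * k ≤ (χ (mk [d])).toWord.length := h2k
    have e1 : (χ (mk [b]) * χ (mk [d])).toWord =
        (χ (mk [b])).toWord.take k ++ (χ (mk [d])).toWord.drop k := by
      have := toWord_inv_mul (χ (mk [bar b])) (χ (mk [d]))
      rw [show G (χ (mk [bar b])) (χ (mk [d])) = k from hc, hW] at this
      rw [mk_bar, map_inv, inv_inv] at this
      rw [this]
      congr 1
      rw [invRev_eq, invRev_eq, List.drop_reverse, List.map_reverse, List.reverse_reverse,
        List.length_map, hlen, ← List.map_take, List.map_map]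
      rw [show 2 * k - k = k by omega]
      simp [Function.comp_def]
    have e2 : (χ (mk [d])).toWord =
        (χ (mk [bar b])).toWord.take k ++ (χ (mk [d])).toWord.drop k := by
      rw [hq, List.take_append_drop]
    have l1 : ((χ (mk [b])).toWord.take k).length = k := by rw [List.length_take]; omega
    have l2 : ((χ (mk [bar b])).toWord.take k).length = k := by
      rw [List.length_take, hW, invRev_length]; omega
    have e3 : norm (χ (mk [b]) * χ (mk [d])) = norm (χ (mk [d])) := by
      have := norm_mul_G χ b (χ (mk [d]))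
      rw [show G (χ (mk [bar b])) (χ (mk [d])) = k from hc] at this
      omega
    have e3' : (χ (mk [b]) * χ (mk [d])).toWord.length = (χ (mk [d])).toWord.length := e3
    have f1 : ψ ((α * nu (bar d) (bar b) hdb) (mk [d])) = χ (mk [b]) * χ (mk [d]) := by
      have := nuH_bar (bar d) (bar b)
      rw [bar_bar, bar_bar] at this
      rw [MulAut.mul_apply, nu_apply, this, hχa, map_mul]
    have f2 : ψ ((α * nu (bar d) (bar b) hdb) (mk [bar d])) = (χ (mk [b]) * χ (mk [d]))⁻¹ := by
      rw [← f1, mk_bar, map_inv, map_inv]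
    have g1 : List.Shortlex r (H (χ (mk [b]) * χ (mk [d])).toWord) (H (χ (mk [d])).toWord) := by
      simp only [H]
      rw [e3']
      set h := (χ (mk [d])).toWord.length / 2 with hh
      rw [e1]
      conv_rhs => rw [e2]
      rw [List.take_append, List.take_append, List.take_of_length_le (by omega),
        List.take_of_length_le (l := (χ (mk [bar b])).toWord.take k) (by omega), l1, l2]
      apply List.Shortlex.of_lex
      · rw [List.length_append, List.length_append, l1, l2]
      · exact lex_append ((List.shortlex_iff_lex (by omega)).1 hlt) (by omega) _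
    have g2 : H ((χ (mk [b]) * χ (mk [d]))⁻¹).toWord = H (χ (mk [bar d])).toWord := by
      simp only [H]
      rw [hW, toWord_inv, invRev_length, invRev_length, e3']
      set h := (χ (mk [d])).toWord.length / 2 with hh
      rw [e1]
      conv_rhs => rw [e2]
      have : h ≤ (invRev ((χ (mk [d])).toWord.drop k)).length := by
        rw [invRev_length, List.length_drop]; omega
      rw [invRev_append, invRev_append, List.take_append_of_le_length this,
        List.take_append_of_le_length this]
    apply hmin (α * nu (bar d) (bar b) hdb)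
    · have h1 := key (bar d) (bar b) hdb
      rw [mk_bar, mk_bar, map_inv, map_inv, ← mul_inv_rev, norm_inv_eq, norm_inv_eq, e3] at h1
      have : m1 α = m1 α0 := hα
      show m1 _ = m1 α0
      omega
    · show m2 _ < m2 α
      rw [Pi.lt_def]
      refine ⟨fun a => ?_, d, ?_⟩
      · simp only [m2]
        by_cases ha : a.1 = d.1
        · rcases eq_or_bar a d ha with rfl | rfl
          · rw [f1]; exact (IsWellFounded.rank_lt_of_rel g1).le
          · rw [f2, g2]; exact le_rfl
        · rw [MulAut.mul_apply, nu_apply, nuH_other (bar d) _ a ha]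
      · simp only [m2]
        rw [f1]; exact IsWellFounded.rank_lt_of_rel g1
  intro a b d hab hbd
  by_contra hn
  have h1 := N2 a b hab
  have h2 := N2' b d hbd
  set k := canc χ b d with hk
  have hn2 : norm (χ (mk [b])) = 2 * k := by omega
  have hlen : (χ (mk [b])).toWord.length = 2 * k := hn2
  rcases trichotomous_of (List.Shortlex r) ((χ (mk [b])).toWord.take k)
    ((χ (mk [bar b])).toWord.take k) with h | h | h
  · exact step b d k hbd rfl hn2 h
  · have e : χ (mk [b]) = 1 := by
      have e1 : invRev ((χ (mk [bar b])).toWord.take k) = (χ (mk [b])).toWord.drop k := by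
        rw [hW, invRev_eq, invRev_eq, List.take_reverse, List.map_reverse, List.reverse_reverse,
          List.length_map, hlen, ← List.map_drop, List.map_map, show 2 * k - k = k by omega]
        simp [Function.comp_def]
      rw [← mk_toWord (x := χ (mk [b])), ← List.take_append_drop k (χ (mk [b])).toWord, ← e1, ← h,
        ← mul_mk, ← inv_mk, mul_inv_cancel]
    have : mk [b] = 1 := α.injective (hψ (by rw [hχa, e, map_one, map_one]))
    have h3 := norm_letter b
    rw [this, FreeGroup.norm_one] at h3
    omega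
  · refine step (bar b) (bar a) k (by rw [bar_bar]; exact hab.symm) (by rw [canc_symm]; omega)
      (by rw [mk_bar, map_inv, norm_inv_eq, hn2]) ?_
    rwa [bar_bar]

end Pool.Agent.Lib.MP_16bc4e_al
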