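import Pool.Agent.Lib.MP_16bc4e_al.Graph
import Pool.Agent.Lib.MP_16bc4e_al.Lcp

namespace Pool.Agent.Lib.MP_16bc4e_al

open FreeGroup hiding map_inv map_mul map_one norm_one

variable {E γ α : Type*}

/-- walking along labelled edges -/
def Reach (F : Set E) (cl : E → Bool → γ) (lab : E → α) : List (α × Bool) → γ → γ → Prop
  | [], a, c => a = c
  | x :: w, a, c => ∃ e ∈ F, lab e = x.1 ∧ cl e x.2 = c ∧ Reach F cl lab w a (cl e (!x.2))

/-- determinism -/
def DetG (F : Set E) (cl : E → Bool → γ) (lab : E → α) : Prop :=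
  ∀ e ∈ F, ∀ e' ∈ F, ∀ s, lab e = lab e' → cl e s = cl e' s → e = e'

lemma Reach.mono {F F' : Set E} {cl : E → Bool → γ} {lab : E → α} (h : F ⊆ F') :
    ∀ (w : List (α × Bool)) (a c : γ), Reach F cl lab w a c → Reach F' cl lab w a c
  | [], _, _, h1 => h1
  | _ :: w, a, _, ⟨e, he, h1, h2, h3⟩ => ⟨e, h he, h1, h2, Reach.mono h w a _ h3⟩

lemma Reach.uniq {F : Set E} {cl : E → Bool → γ} {lab : E → α} (hd : DetG F cl lab) :
    ∀ (w : List (α × Bool)) (a c c' : γ), Reach F cl lab w a c → Reach F cl lab w a c' → c = c'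
  | [], _, _, _, h1, h2 => h1.symm.trans h2
  | _ :: w, a, _, _, ⟨e, he, h1, h2, h3⟩, ⟨e', he', h1', h2', h3'⟩ => by
    have := hd e he e' he' _ (h1.trans h1'.symm) (Reach.uniq hd w a _ _ h3 h3')
    rw [← h2, ← h2', this]

lemma mk_true (x : α) : mk [(x, true)] = of x := rfl

lemma mk_false (x : α) : mk [(x, false)] = (of x)⁻¹ := mk_bar (x, true)

lemma pot_aux [DecidableEq α] (Ed : Set E) (cl : E → Bool → γ) (lab : E → α) (d : E → Bool → Bool)
    (ha : AcG Ed cl) (hd : DetG Ed cl lab) : ∀ (N : ℕ) (F : Set E), F ⊆ Ed → F.Finite →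
    F.ncard = N → ∃ (β : γ → γ) (ε : γ → Bool) (τ : γ → FreeGroup α),
      (∀ c, norm (τ c) ≤ N) ∧ (∀ c, Reach F cl lab (τ c).toWord (β c) c) ∧
      ∀ e ∈ F, τ (cl e true) = of (lab e) * τ (cl e false) ∧ β (cl e true) = β (cl e false) ∧
        (ε (cl e true) = d e true ↔ ε (cl e false) = d e false) := by
  classical
  intro N
  induction N with
  | zero =>
    intro F _ hf h0
    rw [Set.ncard_eq_zero hf] at h0
    subst h0
    exact ⟨id, fun _ => true, fun _ => 1, fun _ => by simp, fun _ => by simp [Reach], by simp⟩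
  | succ N ih =>
    intro F hF hf hN
    obtain ⟨e0, he0, s0, hs⟩ := ha F hF (Set.nonempty_of_ncard_ne_zero (by omega))
    obtain ⟨β, ε, τ, h1, h2, h3⟩ := ih (F \ {e0}) (Set.sdiff_subset.trans hF) (hf.sdiff)
      (by rw [Set.ncard_sdiff_singleton_of_mem he0]; omega)
    have hne : cl e0 (!s0) ≠ cl e0 s0 := fun h => by simpa using (hs e0 he0 _ h).2
    have hhead : (τ (cl e0 (!s0))).toWord.head? ≠ some (bar (lab e0, s0)) := by
      intro hh
      obtain ⟨l, hl⟩ := List.head?_eq_some_iff.1 hh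
      have := h2 (cl e0 (!s0))
      rw [hl] at this
      obtain ⟨e, he, a1, a2, -⟩ := this
      exact he.2 (hd e (hF he.1) e0 (hF he0) _ a1 a2)
    have hw : (mk [(lab e0, s0)] * τ (cl e0 (!s0))).toWord =
        (lab e0, s0) :: (τ (cl e0 (!s0))).toWord := by
      rcases letter_mul_cases (lab e0, s0) (τ (cl e0 (!s0))) with h | h
      · exact h.2
      · exact absurd (by rw [h]; rfl) hhead
    refine ⟨Function.update β (cl e0 s0) (β (cl e0 (!s0))),
      Function.update ε (cl e0 s0) (if ε (cl e0 (!s0)) = d e0 (!s0) then d e0 s0 else !d e0 s0),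
      Function.update τ (cl e0 s0) (mk [(lab e0, s0)] * τ (cl e0 (!s0))), ?_, ?_, ?_⟩
    · intro c
      by_cases hc : c = cl e0 s0
      · subst hc
        rw [Function.update_self]
        have := h1 (cl e0 (!s0))
        have := norm_letter_mul (lab e0, s0) (τ (cl e0 (!s0)))
        omega
      · rw [Function.update_of_ne hc]
        exact (h1 c).trans (Nat.le_succ _)
    · intro c
      by_cases hc : c = cl e0 s0
      · subst hc
        rw [Function.update_self, Function.update_self, hw]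
        exact ⟨e0, he0, rfl, rfl, Reach.mono Set.sdiff_subset _ _ _ (h2 _)⟩
      · rw [Function.update_of_ne hc, Function.update_of_ne hc]
        exact Reach.mono Set.sdiff_subset _ _ _ (h2 _)
    · intro e he
      by_cases hc : e = e0
      · subst hc
        cases s0
        · simp only [Bool.not_false] at hne ⊢
          simp only [Function.update_self, Function.update_of_ne hne, mk_false]
          refine ⟨by group, trivial, ?_⟩
          split_ifs with h <;> simp [h]
        · simp only [Bool.not_true] at hne ⊢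
          simp only [Function.update_self, Function.update_of_ne hne, mk_true]
          refine ⟨trivial, trivial, ?_⟩
          split_ifs with h <;> simp [h]
      · have a : ∀ s, cl e s ≠ cl e0 s0 := fun s h => hc (hs e he s h).1
        simp only [Function.update_of_ne (a _)]
        exact h3 e ⟨he, hc⟩

/-- potentials on an acyclic deterministic labelled graph -/
theorem exists_pot [DecidableEq α] (Ed : Set E) (cl : E → Bool → γ) (lab : E → α)
    (d : E → Bool → Bool) (ha : AcG Ed cl) (hd : DetG Ed cl lab) (hf : Ed.Finite) :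
    ∃ (β : γ → γ) (ε : γ → Bool) (τ : γ → FreeGroup α),
      (∀ c, norm (τ c) ≤ Ed.ncard) ∧ (∀ c c', β c = β c' → τ c = τ c' → c = c') ∧
      ∀ e ∈ Ed, τ (cl e true) = of (lab e) * τ (cl e false) ∧ β (cl e true) = β (cl e false) ∧
        (ε (cl e true) = d e true ↔ ε (cl e false) = d e false) := by
  obtain ⟨β, ε, τ, h1, h2, h3⟩ := pot_aux Ed cl lab d ha hd _ Ed le_rfl hf rfl
  refine ⟨β, ε, τ, h1, fun c c' a b => Reach.uniq hd _ _ _ _ (h2 c) ?_, h3⟩
  rw [a, b]
  exact h2 c'

/-- a deterministic graph with an equivariant potential is acyclic -/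
theorem acg_of_pot [DecidableEq α] {H : Type*} [Group H] (Ed : Set E) (cl : E → Bool → γ)
    (lab : E → α) (hd : DetG Ed cl lab) (hf : Ed.Finite) (φ : FreeGroup α →* H)
    (hφ : Function.Injective φ) (T : γ → H)
    (hT : ∀ e ∈ Ed, T (cl e true) = φ (of (lab e)) * T (cl e false)) : AcG Ed cl := by
  classical
  rintro F hF ⟨e0, he0⟩
  set t0 := T (cl e0 false)
  let A : Set (E × Bool) := {p | p.1 ∈ F ∧ ∃ h, T (cl p.1 p.2) = φ h * t0}
  have hA : A.Finite := ((hf.subset hF).prod (Set.toFinite (Set.univ : Set Bool))).subset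
    (fun p hp => ⟨hp.1, trivial⟩)
  let hh : E × Bool → FreeGroup α := fun p =>
    if h : ∃ h, T (cl p.1 p.2) = φ h * t0 then h.choose else 1
  have spec : ∀ p h, T (cl p.1 p.2) = φ h * t0 → hh p = h := by
    intro p h hp
    have ex : ∃ h, T (cl p.1 p.2) = φ h * t0 := ⟨h, hp⟩
    simp only [hh, dif_pos ex]
    exact hφ (mul_right_cancel (ex.choose_spec.symm.trans hp))
  obtain ⟨⟨e, s⟩, ⟨he, h, hp⟩, hmax⟩ := Set.exists_max_image A (fun p => norm (hh p)) hA
    ⟨(e0, false), he0, 1, by simp [t0]⟩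
  have key : ∀ e' ∈ F, ∀ s', cl e' s' = cl e s → ∃ k, h = mk [(lab e', s')] * k ∧
      norm k < norm (mk [(lab e', s')] * k) := by
    intro e' he' s' hc
    have a1 : T (cl e' (!s')) = φ ((mk [(lab e', s')])⁻¹ * h) * t0 := by
      have := hT e' (hF he')
      simp only at hp
      rw [map_mul, mul_assoc, ← hp, ← hc]
      cases s'
      · rw [mk_false, inv_inv]; exact this
      · rw [mk_true, this, map_inv]; simp
    have a2 := hmax (e', !s') ⟨he', _, a1⟩
    simp only [spec (e', !s') _ a1, spec (e, s) _ hp] at a2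
    refine ⟨(mk [(lab e', s')])⁻¹ * h, by group, ?_⟩
    have a3 := norm_letter_mul (lab e', s') ((mk [(lab e', s')])⁻¹ * h)
    rw [mul_inv_cancel_left] at a3 ⊢
    omega
  refine ⟨e, he, s, fun e' he' s' hc => ?_⟩
  obtain ⟨k, a1, a2⟩ := key e he s rfl
  obtain ⟨k', b1, b2⟩ := key e' he' s' hc
  have := letter_unique _ _ _ _ (b1.symm.trans a1) b2 a2
  obtain ⟨c1, c2⟩ := Prod.mk.inj this
  subst c2
  exact ⟨hd e' (hF he') e (hF he) _ c1 hc, rfl⟩

end Pool.Agent.Lib.MP_16bc4e_al
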