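import Pool.Agent.Lib.MP_16bc4e_al.Forward

namespace Pool.Agent.Lib.MP_16bc4e_al

variable {ι : Type} [DecidableEq ι] [Fintype ι]

def Sys.tot (S : Sys ι) : ℕ := ∑ j, S.len j

def Sys.nb (S : Sys ι) : ℕ := (Finset.univ.filter fun j => 0 < S.len j).card

def Sys.Two (S : Sys ι) (R : Finset (ι × Bool)) : Prop :=
  (∀ β ∈ R, 0 < S.len β.1) ∧ ∀ L, (R.filter fun β => S.line β = L).card ≤ 2

def Sys.Inv (τ : ℕ) (S : Sys ι) : Prop := ∃ R, S.Two R ∧ 2 * S.nb ≤ τ + R.card

def Sys.Clean (S : Sys ι) : Prop := ∀ β, S.act β → 0 < S.len β.1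

omit [Fintype ι] in
lemma Sys.Two.transfer {S X : Sys ι} {R : Finset (ι × Bool)} (h : S.Two R)
    (R0 : Finset (ι × Bool)) (h0 : R0 ⊆ R) (f : ι × Bool → ι × Bool)
    (h1 : ∀ β ∈ R0, 0 < X.len (f β).1)
    (h2 : ∀ β ∈ R0, ∀ β' ∈ R0, X.line (f β) = X.line (f β') → S.line β = S.line β') :
    X.Two (R0.image f) := by
  constructor
  · intro β hβ
    obtain ⟨β', h3, rfl⟩ := Finset.mem_image.1 hβ
    exact h1 _ h3
  · intro L
    by_cases hne : ∃ β0 ∈ R0, X.line (f β0) = L
    · obtain ⟨β0, a, b⟩ := hne
      refine le_trans (Finset.card_le_card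
        (t := (R.filter fun β => S.line β = S.line β0).image f) ?_)
        (le_trans Finset.card_image_le (h.2 (S.line β0)))
      intro β hβ
      obtain ⟨c, d⟩ := Finset.mem_filter.1 hβ
      obtain ⟨β', h3, rfl⟩ := Finset.mem_image.1 c
      exact Finset.mem_image.2 ⟨β', Finset.mem_filter.2 ⟨h0 h3, h2 _ h3 _ a (d.trans b.symm)⟩, rfl⟩
    · have : ((R0.image f).filter fun β => X.line β = L) = ∅ := by
        rw [Finset.filter_eq_empty_iff]
        intro β hβ hl
        obtain ⟨β', h3, rfl⟩ := Finset.mem_image.1 hβ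
        exact hne ⟨β', h3, hl⟩
      rw [this]; simp

omit [Fintype ι] in
lemma card_filter_ne (R : Finset (ι × Bool)) (j : ι) :
    R.card ≤ (R.filter fun β => β.1 ≠ j).card + 2 := by
  have h1 := Finset.card_filter_add_card_filter_not (s := R) (fun β => β.1 ≠ j)
  have h2 : (R.filter fun β => ¬ β.1 ≠ j).card ≤ 2 := by
    refine le_trans (Finset.card_le_card (t := {(j, true), (j, false)}) ?_) Finset.card_le_two
    rintro ⟨i, t⟩ hβ
    have := (Finset.mem_filter.1 hβ).2
    simp only [ne_eq, not_not] at this
    subst this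
    cases t <;> simp
  omega

omit [DecidableEq ι] in
lemma nb_of_zero {S X : Sys ι} (j : ι) (hj : 0 < S.len j) (h0 : X.len j = 0)
    (h : ∀ i, 0 < X.len i → 0 < S.len i) : X.nb + 1 ≤ S.nb := by
  unfold Sys.nb
  apply Finset.card_lt_card
  constructor
  · intro i hi
    simp only [Finset.mem_filter, Finset.mem_univ, true_and] at hi ⊢
    exact h i hi
  · intro hh
    have := hh (Finset.mem_filter.2 ⟨Finset.mem_univ j, hj⟩)
    simp only [Finset.mem_filter, Finset.mem_univ, true_and] at this
    omega

omit [DecidableEq ι] in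
lemma nb_le {S X : Sys ι} (h : ∀ i, 0 < X.len i → 0 < S.len i) : X.nb ≤ S.nb := by
  unfold Sys.nb
  apply Finset.card_le_card
  intro i hi
  simp only [Finset.mem_filter, Finset.mem_univ, true_and] at hi ⊢
  exact h i hi

lemma nb_le_succ {S X : Sys ι} (j' : ι) (h : ∀ i, i ≠ j' → 0 < X.len i → 0 < S.len i) :
    X.nb ≤ S.nb + 1 := by
  unfold Sys.nb
  refine le_trans (Finset.card_le_card ?_) (Finset.card_insert_le j' _)
  intro i hi
  simp only [Finset.mem_filter, Finset.mem_univ, true_and, Finset.mem_insert] at hi ⊢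
  by_cases a : i = j'
  · exact Or.inl a
  · exact Or.inr (h i a hi)

lemma nb_swap {S X : Sys ι} (j j' : ι) (h : ∀ i, 0 < X.len i → 0 < S.len (Equiv.swap j j' i)) :
    X.nb ≤ S.nb := by
  unfold Sys.nb
  apply Finset.card_le_card_of_injOn (Equiv.swap j j')
  · intro i hi
    simp only [Finset.coe_filter, Finset.mem_univ, true_and, Set.mem_ofPred_eq] at hi ⊢
    exact h i hi
  · exact (Equiv.injective _).injOn

lemma compose_step {S : Sys ι} {j1 j2 : ι} {s1 s2 : Bool} (h : HG S j1 s1 j2 s2) (hv : S.Val)
    (ha : S.Acyc) (hl : 0 < S.len j2) : ∃ X : Sys ι, Step S X ∧ X.Val ∧ X.Acyc ∧ X.tot < S.tot ∧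
      (∀ τ, S.Inv τ → X.Inv τ) ∧ X.nb ≤ S.nb := by
  have hne := h.ne
  have hnb : (S.cmp j1 s1 j2 s2).nb + 1 ≤ S.nb := by
    apply nb_of_zero j2 hl (by simp [Sys.cmp])
    intro i hi
    simp only [Sys.cmp] at hi
    split_ifs at hi <;> omega
  refine ⟨S.cmp j1 s1 j2 s2, Step.of_eqv h.eqv (h.hc.step (HG.val hv)), HG.val hv,
    h.hc.acyc_of (h.eqv.acyc hv ha), ?_, ?_, by omega⟩
  · unfold Sys.tot
    apply Finset.sum_lt_sum
    · intro i _; simp only [Sys.cmp]; split_ifs <;> omega
    · exact ⟨j2, Finset.mem_univ _, by simp [Sys.cmp, hl]⟩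
  · rintro τ ⟨R, hR, hc⟩
    let f : ι × Bool → ι × Bool := fun β => if β = (j2, !s2) then (j1, s1) else β
    let R0 := (R.erase (j1, s1)).erase (j2, s2)
    have hR0 : ∀ β ∈ R0, β ∈ R ∧ β ≠ (j1, s1) ∧ β ≠ (j2, s2) := by
      intro β hβ
      simp only [R0, Finset.mem_erase] at hβ
      exact ⟨hβ.2.2, hβ.2.1, hβ.1⟩
    have hline : ∀ β ∈ R0, (S.cmp j1 s1 j2 s2).line (f β) = S.line β := by
      intro β hβ
      obtain ⟨_, b, _⟩ := hR0 β hβ
      simp only [f, Sys.cmp]
      by_cases a : β = (j2, !s2)
      · simp [a]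
      · simp [a, b]
    refine ⟨R0.image f, hR.transfer R0 (fun β hβ => (hR0 β hβ).1) f ?_ ?_, ?_⟩
    · intro β hβ
      obtain ⟨a, b, c⟩ := hR0 β hβ
      have := hR.1 β a
      simp only [f, Sys.cmp]
      by_cases d : β = (j2, !s2)
      · simp only [d, if_true, if_neg hne, h.len, hl]
      · have : β.1 ≠ j2 := by
          obtain ⟨i, t⟩ := β
          rintro rfl
          rcases bool_cases t s2 with rfl | rfl
          · exact c rfl
          · exact d rfl
        simp only [if_neg d, if_neg this]; assumption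
    · intro β a β' b c
      rwa [hline β a, hline β' b] at c
    · rw [Finset.card_image_of_injOn]
      · have h1 : R.card ≤ R0.card + 2 := by
          have := Finset.pred_card_le_card_erase (s := R) (a := (j1, s1))
          have := Finset.pred_card_le_card_erase (s := R.erase (j1, s1)) (a := (j2, s2))
          simp only [R0]; omega
        omega
      · intro β a β' b c
        obtain ⟨_, a1, _⟩ := hR0 β a
        obtain ⟨_, b1, _⟩ := hR0 β' b
        simp only [f] at c
        split_ifs at c with d e e
        · rw [d, e]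
        · exact absurd c.symm b1
        · exact absurd c a1
        · exact c

omit [DecidableEq ι] [Fintype ι] in
lemma Sys.exists_param (X : Sys ι) (β : ι × Bool) (z : ℤ)
    (h : (X.pos (β, false) ≤ z ∧ z + 1 ≤ X.pos (β, true)) ∨
      (X.pos (β, true) ≤ z ∧ z + 1 ≤ X.pos (β, false))) : ∃ k < X.len β.1, X.cz β k = z := by
  simp only [Sys.pos_true, Sys.pos_false, Sys.cz] at h ⊢
  split_ifs at h ⊢
  · exact ⟨(z - X.x0 β).toNat, by omega, by omega⟩
  · exact ⟨(X.x0 β - 1 - z).toNat, by omega, by omega⟩

lemma cut_counts {S : Sys ι} {j j' : ι} {s : Bool} {k1 k2 : ℕ} {M : ι × Bool → Prop} {L' : ℕ}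
    (h : HF S j s j' k1 k2 M L') (hv : S.Val) (hlt : k1 < k2)
    (hL : 0 < k1 → ∃ β, 0 < S.len β.1 ∧ β ≠ (j, s) ∧ S.line β = S.line (j, s) ∧ ¬ M β)
    (hR : k2 < S.len j → ∃ β, 0 < S.len β.1 ∧ M β) :
    (S.cutA j s j' k1 k2 M L').tot < S.tot ∧
    (∀ τ, S.Inv τ → (S.cutA j s j' k1 k2 M L').Inv τ) ∧
    (S.cutA j s j' k1 k2 M L').nb ≤ S.nb + 1 ∧
    ((k1 = 0 ∨ k2 = S.len j) → (S.cutA j s j' k1 k2 M L').nb ≤ S.nb) := by
  have hne := h.ne
  have h2 := h.k2l
  have h0 : S.len j' = 0 := by
    by_contra h3
    exact h.a2 false (hv _ _ (by omega))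
  set X := S.cutA j s j' k1 k2 M L' with hX
  have lj : X.len j = k1 := by simp [hX, Sys.cutA]
  have lj' : X.len j' = S.len j - k2 := by simp [hX, Sys.cutA, hne.symm]
  have li : ∀ i, i ≠ j → i ≠ j' → X.len i = S.len i := by
    intro i a b; simp [hX, Sys.cutA, a, b]
  have hnj : ∀ β : ι × Bool, 0 < S.len β.1 → β.1 ≠ j' := fun β a b => by rw [b] at a; omega
  have hline : ∀ β β', X.line β = X.line β' →
      S.line (baseA j j' β) = S.line (baseA j j' β') := by
    intro β β' c
    have key : ∀ β, β = (j', s) ∨ M (baseA j j' β) → S.line (baseA j j' β) = S.line (j, s) := by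
      rintro β (rfl | a)
      · rw [baseA_self]
      · exact (h.hM _ a).1
    by_cases a : β = (j', s) ∨ M (baseA j j' β) <;> by_cases b : β' = (j', s) ∨ M (baseA j j' β')
    · rw [key β a, key β' b]
    · rw [hX, cutA_line_pos _ a, cutA_line_neg _ b] at c; exact absurd c.symm (h.fresh _)
    · rw [hX, cutA_line_neg _ a, cutA_line_pos _ b] at c; exact absurd c (h.fresh _)
    · rwa [hX, cutA_line_neg _ a, cutA_line_neg _ b] at c
  have n1 : X.nb ≤ S.nb + 1 := by
    apply nb_le_succ j'
    intro i a b
    by_cases c : i = j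
    · subst c; omega
    · rwa [li i c a] at b
  have n2 : k2 = S.len j → X.nb ≤ S.nb := by
    intro hk
    apply nb_le
    intro i b
    by_cases c : i = j
    · subst c; omega
    · by_cases a : i = j'
      · subst a; omega
      · rwa [li i c a] at b
  have n3 : k1 = 0 → X.nb ≤ S.nb := by
    intro hk
    apply nb_swap j j'
    intro i b
    by_cases c : i = j
    · subst c; omega
    · by_cases a : i = j'
      · subst a; rw [Equiv.swap_apply_right]; omega
      · rwa [Equiv.swap_apply_of_ne_of_ne c a, ← li i c a]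
  refine ⟨?_, ?_, n1, fun hk => hk.elim n3 n2⟩
  · unfold Sys.tot
    rw [← Finset.add_sum_erase _ _ (Finset.mem_univ j), ← Finset.add_sum_erase _ _ (Finset.mem_univ j),
      ← Finset.add_sum_erase _ _ (Finset.mem_erase.2 ⟨hne.symm, Finset.mem_univ j'⟩),
      ← Finset.add_sum_erase _ _ (Finset.mem_erase.2 ⟨hne.symm, Finset.mem_univ j'⟩)]
    have : ∑ x ∈ (Finset.univ.erase j).erase j', X.len x =
        ∑ x ∈ (Finset.univ.erase j).erase j', S.len x :=
      Finset.sum_congr rfl (fun i hi => li i (Finset.mem_erase.1 (Finset.mem_erase.1 hi).2).1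
        (Finset.mem_erase.1 hi).1)
    omega
  · rintro τ ⟨R, hT, hc⟩
    by_cases a1 : k1 = 0 <;> by_cases a2 : k2 = S.len j
    · have n4 : X.nb + 1 ≤ S.nb := by
        apply nb_of_zero j (by omega) (by omega)
        intro i b
        by_cases c : i = j
        · subst c; omega
        · by_cases a : i = j'
          · subst a; omega
          · rwa [li i c a] at b
      refine ⟨_, hT.transfer (R.filter fun β => β.1 ≠ j) (Finset.filter_subset _ _) id ?_ ?_, ?_⟩
      · intro β hβ
        obtain ⟨b1, b2⟩ := Finset.mem_filter.1 hβ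
        have := hT.1 β b1
        rwa [id, li _ b2 (hnj β this)]
      · intro β b1 β' b2 c
        have := hline _ _ c
        rwa [id, id, baseA_of_ne _ (hnj β (hT.1 β (Finset.mem_filter.1 b1).1)),
          baseA_of_ne _ (hnj β' (hT.1 β' (Finset.mem_filter.1 b2).1))] at this
      · have := card_filter_ne R j
        rw [Finset.image_id]
        omega
    · let f : ι × Bool → ι × Bool := fun β => if β.1 = j then (j', β.2) else β
      have hb : ∀ β ∈ R, baseA j j' (f β) = β := by
        intro β b
        simp only [f]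
        split_ifs with c
        · rw [baseA_self, ← c]
        · exact baseA_of_ne _ (hnj β (hT.1 β b))
      refine ⟨_, hT.transfer R (subset_refl _) f ?_ ?_, ?_⟩
      · intro β b
        simp only [f]
        split_ifs with c
        · simp only; omega
        · rw [li _ c (hnj β (hT.1 β b))]; exact hT.1 β b
      · intro β b1 β' b2 c
        have := hline _ _ c
        rwa [hb β b1, hb β' b2] at this
      · rw [Finset.card_image_of_injOn (fun β b1 β' b2 c => by rw [← hb β b1, ← hb β' b2, c])]
        have := n3 a1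
        omega
    · refine ⟨_, hT.transfer R (subset_refl _) id ?_ ?_, ?_⟩
      · intro β b
        by_cases c : β.1 = j
        · rw [id, c]; omega
        · rw [id, li _ c (hnj β (hT.1 β b))]; exact hT.1 β b
      · intro β b1 β' b2 c
        have := hline _ _ c
        rwa [id, id, baseA_of_ne _ (hnj β (hT.1 β b1)), baseA_of_ne _ (hnj β' (hT.1 β' b2))] at this
      · rw [Finset.image_id]
        have := n2 a2
        omega
    · obtain ⟨βL, l1, l2, l3, l4⟩ := hL (by omega)
      obtain ⟨βR, r1, r2⟩ := hR (by omega)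
      have r3 := h.hM _ r2
      have pos : ∀ β : ι × Bool, 0 < S.len β.1 → 0 < X.len β.1 := by
        intro β b
        by_cases c : β.1 = j
        · rw [c]; omega
        · rw [li _ c (hnj β b)]; exact b
      have e1 : X.line (j, s) = S.line (j, s) := h.line_js
      have e2 : X.line (j', s) = L' := h.line_js'
      have e3 : X.line βL = S.line (j, s) := by
        rw [hX, cutA_line_neg, baseA_of_ne _ (hnj _ l1), l3]
        rw [baseA_of_ne _ (hnj _ l1)]
        rintro (c | c)
        · exact hnj _ l1 (by rw [c])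
        · exact l4 c
      have e4 : X.line βR = L' := by
        rw [hX, cutA_line_pos]
        rw [baseA_of_ne _ (hnj _ r1)]
        exact Or.inr r2
      let R0 := R.filter fun β => S.line β ≠ S.line (j, s)
      have e5 : ∀ β ∈ R0, X.line β = S.line β := by
        intro β b
        obtain ⟨b1, b2⟩ := Finset.mem_filter.1 b
        have := hnj _ (hT.1 β b1)
        rw [hX, cutA_line_neg, baseA_of_ne _ this]
        rw [baseA_of_ne _ this]
        rintro (c | c)
        · exact this (by rw [c])
        · exact b2 (h.hM _ c).1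
      have fr := h.fresh (j, s)
      have c0 : R.card ≤ R0.card + 2 := by
        have h1 := Finset.card_filter_add_card_filter_not (s := R)
          (fun β => S.line β = S.line (j, s))
        have := hT.2 (S.line (j, s))
        simp only [R0, ne_eq]; omega
      have d1 : (j, s) ∉ insert βL (insert (j', s) (insert βR R0)) := by
        simp only [Finset.mem_insert, not_or]
        exact ⟨l2.symm, by simp [hne], r3.2.symm, fun b => (Finset.mem_filter.1 b).2 rfl⟩
      have d2 : βL ∉ (insert (j', s) (insert βR R0)) := by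
        simp only [Finset.mem_insert, not_or]
        exact ⟨fun c => hnj _ l1 (by rw [c]), fun c => l4 (c ▸ r2),
          fun b => (Finset.mem_filter.1 b).2 l3⟩
      have d3 : (j', s) ∉ (insert βR R0) := by
        simp only [Finset.mem_insert, not_or]
        exact ⟨fun c => hnj _ r1 (by rw [← c]),
          fun b => hnj _ (hT.1 _ (Finset.mem_filter.1 b).1) rfl⟩
      have d4 : βR ∉ R0 := fun b => (Finset.mem_filter.1 b).2 r3.1
      refine ⟨insert (j, s) (insert βL (insert (j', s) (insert βR R0))), ⟨?_, ?_⟩, ?_⟩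
      · intro β b
        simp only [Finset.mem_insert] at b
        rcases b with rfl | rfl | rfl | rfl | b
        · simp only; omega
        · exact pos _ l1
        · simp only; omega
        · exact pos _ r1
        · exact pos _ (hT.1 _ (Finset.mem_filter.1 b).1)
      · intro L
        by_cases c1 : L = S.line (j, s)
        · refine le_trans (Finset.card_le_card (t := {(j, s), βL}) ?_) Finset.card_le_two
          intro β b
          obtain ⟨b1, b2⟩ := Finset.mem_filter.1 b
          simp only [Finset.mem_insert] at b1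
          rcases b1 with rfl | rfl | rfl | rfl | b1
          · simp
          · simp
          · omega
          · omega
          · exact absurd ((e5 _ b1).symm.trans (b2.trans c1)) (Finset.mem_filter.1 b1).2
        by_cases c2 : L = L'
        · refine le_trans (Finset.card_le_card (t := {(j', s), βR}) ?_) Finset.card_le_two
          intro β b
          obtain ⟨b1, b2⟩ := Finset.mem_filter.1 b
          simp only [Finset.mem_insert] at b1
          rcases b1 with rfl | rfl | rfl | rfl | b1
          · omega
          · omega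
          · simp
          · simp
          · exact absurd ((e5 _ b1).symm.trans (b2.trans c2)) (h.fresh _)
        · refine le_trans (Finset.card_le_card ?_) (hT.2 L)
          intro β b
          obtain ⟨b1, b2⟩ := Finset.mem_filter.1 b
          simp only [Finset.mem_insert] at b1
          rcases b1 with rfl | rfl | rfl | rfl | b1
          · omega
          · omega
          · omega
          · omega
          · exact Finset.mem_filter.2 ⟨(Finset.mem_filter.1 b1).1, (e5 _ b1).symm.trans b2⟩
      · rw [Finset.card_insert_of_notMem d1, Finset.card_insert_of_notMem d2,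
          Finset.card_insert_of_notMem d3, Finset.card_insert_of_notMem d4]
        omega

end Pool.Agent.Lib.MP_16bc4e_al
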