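import Pool.Agent.Lib.MP_16bc4e_al.Graph

namespace Pool.Agent.Lib.MP_16bc4e_al

/-- Band systems: band `j` has two bases `(j, false)`, `(j, true)`. -/
structure Sys (ι : Type) where
  act : ι × Bool → Prop
  line : ι × Bool → ℕ
  dir : ι × Bool → Bool
  x0 : ι × Bool → ℤ
  len : ι → ℕ

variable {ι : Type}

/-- endpoints of bases -/
abbrev Ep (ι : Type) : Type := (ι × Bool) × Bool

namespace Sys

def pt (S : Sys ι) (β : ι × Bool) (k : ℤ) : ℤ := if S.dir β then S.x0 β + k else S.x0 β - k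

def pos (S : Sys ι) (e : Ep ι) : ℤ := if e.2 then S.pt e.1 (S.len e.1.1) else S.x0 e.1

def cz (S : Sys ι) (β : ι × Bool) (k : ℕ) : ℤ :=
  if S.dir β then S.x0 β + k else S.x0 β - k - 1

def cl (S : Sys ι) (e : ι × ℕ) (s : Bool) : ℕ × ℤ := (S.line (e.1, s), S.cz (e.1, s) e.2)

def Ed (S : Sys ι) : Set (ι × ℕ) := {e | e.2 < S.len e.1}

def Acyc (S : Sys ι) : Prop := AcG S.Ed S.cl

def Val (S : Sys ι) : Prop := ∀ j s, 0 < S.len j → S.act (j, s)

def rel (S : Sys ι) (e e' : Ep ι) : Prop :=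
  S.act e.1 ∧ S.act e'.1 ∧ S.line e.1 = S.line e'.1 ∧ S.pos e ≤ S.pos e'

/-- the order type -/
def ty (S : Sys ι) : (ι × Bool → Prop) × (Ep ι → Ep ι → Prop) :=
  (fun β => S.act β ∧ S.dir β = true, S.rel)

open Classical in
noncomputable def vec (S : Sys ι) : Ep ι → ℚ := fun e => if S.act e.1 then (S.pos e : ℚ) else 0

def Small (k : ℕ) (S : Sys ι) : Prop := ∀ e : Ep ι, S.act e.1 → |S.pos e| ≤ 8 ^ k

lemma pos_false (S : Sys ι) (β : ι × Bool) : S.pos (β, false) = S.x0 β := rfl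

lemma pos_true (S : Sys ι) (β : ι × Bool) :
    S.pos (β, true) = if S.dir β then S.x0 β + S.len β.1 else S.x0 β - S.len β.1 := rfl

end Sys

structure Sim (X Y : Sys ι) : Prop where
  act : ∀ β, X.act β ↔ Y.act β
  dir : ∀ β, X.act β → X.dir β = Y.dir β
  line : ∀ β β', X.act β → X.act β' → (X.line β = X.line β' ↔ Y.line β = Y.line β')
  le : ∀ e e' : Ep ι, X.act e.1 → X.act e'.1 → X.line e.1 = X.line e'.1 →
    (X.pos e ≤ X.pos e' ↔ Y.pos e ≤ Y.pos e')

lemma Sim.ty_eq {X Y : Sys ι} (h : Sim X Y) : X.ty = Y.ty := by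
  unfold Sys.ty
  congr 1
  · funext β
    apply propext
    constructor
    · rintro ⟨h1, h2⟩; exact ⟨(h.act β).1 h1, by rw [← h.dir β h1, h2]⟩
    · rintro ⟨h1, h2⟩
      have := (h.act β).2 h1
      exact ⟨this, by rw [h.dir β this, h2]⟩
  · funext e e'
    apply propext
    constructor
    · rintro ⟨h1, h2, h3, h4⟩
      exact ⟨(h.act _).1 h1, (h.act _).1 h2, (h.line _ _ h1 h2).1 h3, (h.le _ _ h1 h2 h3).1 h4⟩
    · rintro ⟨h1, h2, h3, h4⟩
      have a1 := (h.act _).2 h1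
      have a2 := (h.act _).2 h2
      have a3 := (h.line _ _ a1 a2).2 h3
      exact ⟨a1, a2, a3, (h.le _ _ a1 a2 a3).2 h4⟩

lemma Sim.of_ty_eq {X Y : Sys ι} (h : X.ty = Y.ty) : Sim X Y := by
  have h1 : ∀ β, (X.act β ∧ X.dir β = true) ↔ (Y.act β ∧ Y.dir β = true) := fun β =>
    iff_of_eq (congrFun (congrArg Prod.fst h) β)
  have h2 : ∀ e e', X.rel e e' ↔ Y.rel e e' := fun e e' =>
    iff_of_eq (congrFun (congrFun (congrArg Prod.snd h) e) e')
  have ha : ∀ β, X.act β ↔ Y.act β := by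
    intro β
    have := h2 (β, false) (β, false)
    simpa [Sys.rel] using this
  refine ⟨ha, ?_, ?_, ?_⟩
  · intro β hβ
    have := h1 β
    have hy := (ha β).1 hβ
    simp only [hβ, hy, true_and] at this
    exact Bool.eq_iff_iff.2 this
  · intro β β' a1 a2
    have b1 := (ha β).1 a1
    have b2 := (ha β').1 a2
    have c1 := h2 (β, false) (β', false)
    have c2 := h2 (β', false) (β, false)
    simp only [Sys.rel, a1, a2, b1, b2, true_and] at c1 c2
    constructor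
    · intro hl
      rcases le_total (X.pos (β, false)) (X.pos (β', false)) with h3 | h3
      · exact (c1.1 ⟨hl, h3⟩).1
      · exact (c2.1 ⟨hl.symm, h3⟩).1.symm
    · intro hl
      rcases le_total (Y.pos (β, false)) (Y.pos (β', false)) with h3 | h3
      · exact (c1.2 ⟨hl, h3⟩).1
      · exact (c2.2 ⟨hl.symm, h3⟩).1.symm
  · intro e e' a1 a2 hl
    have b1 := (ha _).1 a1
    have b2 := (ha _).1 a2
    have c1 := h2 e e'
    have c2 := h2 e' e
    simp only [Sys.rel, a1, a2, b1, b2, true_and] at c1 c2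
    have hl' : Y.line e.1 = Y.line e'.1 := by
      rcases le_total (X.pos e) (X.pos e') with h3 | h3
      · exact (c1.1 ⟨hl, h3⟩).1
      · exact (c2.1 ⟨hl.symm, h3⟩).1.symm
    simpa [hl, hl'] using c1

lemma Sim.symm {X Y : Sys ι} (h : Sim X Y) : Sim Y X := Sim.of_ty_eq h.ty_eq.symm

lemma Sim.trans {X Y Z : Sys ι} (h : Sim X Y) (h' : Sim Y Z) : Sim X Z :=
  Sim.of_ty_eq (h.ty_eq.trans h'.ty_eq)

lemma Sim.refl (X : Sys ι) : Sim X X := Sim.of_ty_eq rfl

lemma Sim.len_zero {X Y : Sys ι} (h : Sim X Y) (hY : Y.Val) (j : ι) (h0 : X.len j = 0) :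
    Y.len j = 0 := by
  by_contra hne
  have a := (h.act _).2 (hY j false (by omega))
  have h1 := (h.le ((j, false), false) ((j, false), true) a a rfl).1
  have h2 := (h.le ((j, false), true) ((j, false), false) a a rfl).1
  simp only [Sys.pos_false, Sys.pos_true, h0] at h1 h2
  split_ifs at h1 h2 <;> omega

/-- `X` and `Y` agree on active data -/
structure Eqv (X Y : Sys ι) : Prop where
  act : ∀ β, X.act β ↔ Y.act β
  dir : ∀ β, X.act β → X.dir β = Y.dir β
  line : ∀ β, X.act β → X.line β = Y.line β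
  x0 : ∀ β, X.act β → X.x0 β = Y.x0 β
  len : ∀ j, X.len j = Y.len j

lemma Eqv.pos {X Y : Sys ι} (h : Eqv X Y) (e : Ep ι) (he : X.act e.1) : X.pos e = Y.pos e := by
  unfold Sys.pos Sys.pt
  rw [h.dir _ he, h.x0 _ he, h.len]

lemma Eqv.sim {X Y : Sys ι} (h : Eqv X Y) : Sim X Y :=
  ⟨h.act, h.dir, fun β β' a b => by rw [h.line β a, h.line β' b],
    fun e e' a b _ => by rw [h.pos e a, h.pos e' b]⟩

lemma Eqv.vec {X Y : Sys ι} (h : Eqv X Y) : X.vec = Y.vec := by
  funext e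
  unfold Sys.vec
  by_cases he : X.act e.1
  · rw [if_pos he, if_pos ((h.act _).1 he), h.pos e he]
  · rw [if_neg he, if_neg (fun h' => he ((h.act _).2 h'))]

lemma Eqv.acyc {X Y : Sys ι} (h : Eqv X Y) (hv : X.Val) (ha : X.Acyc) : Y.Acyc := by
  have hc : ∀ e ∈ Y.Ed, ∀ s, Y.cl e s = X.cl e s := by
    intro e he s
    have : X.act (e.1, s) := hv _ _ (by have := h.len e.1; unfold Sys.Ed at he; simp at he; omega)
    unfold Sys.cl Sys.cz
    rw [h.dir _ this, h.x0 _ this, h.line _ this]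
  refine AcG.pull ha id (fun e he => ?_) ?_ (fun _ _ _ _ _ h _ => h)
  · have := h.len e.1
    unfold Sys.Ed at he ⊢; simp at he ⊢; omega
  · intro e1 h1 e2 h2 s1 s2 h3
    rwa [hc _ h1, hc _ h2] at h3

/-- the set of vectors of small acyclic systems of a given type -/
def AA (k : ℕ) (t : (ι × Bool → Prop) × (Ep ι → Ep ι → Prop)) : Set (Ep ι → ℚ) :=
  {v | ∃ X : Sys ι, X.Val ∧ X.Acyc ∧ X.Small k ∧ X.ty = t ∧ v = X.vec}

def Good (k : ℕ) (S : Sys ι) : Prop :=
  S.vec ∈ Submodule.span ℚ (AA k S.ty) ∧ (AA k S.ty).Nonempty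

def Step (S S' : Sys ι) : Prop := ∀ k, Good k S' → Good (k + 1) S

lemma Good.of_eqv {k : ℕ} {X Y : Sys ι} (h : Eqv X Y) (hg : Good k Y) : Good k X := by
  unfold Good
  rw [h.sim.ty_eq, h.vec]
  exact hg

lemma Step.of_eqv {X Y Z : Sys ι} (h : Eqv X Y) (hg : Step Y Z) : Step X Z :=
  fun k hk => Good.of_eqv h (hg k hk)

lemma step_gen {S S' : Sys ι} (f : (Ep ι → ℚ) → (Ep ι → ℚ)) (hf : IsLinearMap ℚ f)
    (δ : Ep ι → ℚ) (c : ℚ) (h0 : ∃ a : ℚ, S.vec = c • f S'.vec + a • δ)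
    (h : ∀ k (X : Sys ι), X.Val → X.Acyc → X.Small k → Sim S' X →
      ∃ y : ℚ, f X.vec + y • δ ∈ AA (k + 1) S.ty ∧ f X.vec + (y + 1) • δ ∈ AA (k + 1) S.ty) :
    Step S S' := by
  rintro k ⟨h1, v, X, hv, ha, hs, ht, rfl⟩
  obtain ⟨y, hy1, hy2⟩ := h k X hv ha hs (Sim.of_ty_eq ht.symm)
  refine ⟨?_, _, hy1⟩
  have hδ : δ ∈ Submodule.span ℚ (AA (k + 1) S.ty) := by
    have := Submodule.sub_mem _ (Submodule.subset_span (R := ℚ) hy2) (Submodule.subset_span hy1)
    convert this using 1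
    rw [add_smul, one_smul]; abel
  have key : ∀ w ∈ Submodule.span ℚ (AA k S'.ty), f w ∈ Submodule.span ℚ (AA (k + 1) S.ty) := by
    intro w hw
    induction hw using Submodule.span_induction with
    | mem w hw =>
      obtain ⟨X, hv, ha, hs, ht, rfl⟩ := hw
      obtain ⟨y, hy1, -⟩ := h k X hv ha hs (Sim.of_ty_eq ht.symm)
      have := Submodule.sub_mem _ (Submodule.subset_span (R := ℚ) hy1)
        (Submodule.smul_mem _ y hδ)
      simpa using this
    | zero => rw [hf.map_zero]; exact Submodule.zero_mem _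
    | add a b _ _ ha hb => rw [hf.map_add]; exact Submodule.add_mem _ ha hb
    | smul a b _ hb => rw [hf.map_smul]; exact Submodule.smul_mem _ _ hb
  obtain ⟨a, h0⟩ := h0
  rw [h0]
  exact Submodule.add_mem _ (Submodule.smul_mem _ _ (key _ h1)) (Submodule.smul_mem _ _ hδ)

lemma step_lin {S S' : Sys ι} (f : (Ep ι → ℚ) → (Ep ι → ℚ)) (hf : IsLinearMap ℚ f)
    (h0 : S.vec = f S'.vec)
    (h : ∀ k (X : Sys ι), X.Val → X.Acyc → X.Small k → Sim S' X →
      ∃ Y : Sys ι, Y.Val ∧ Y.Acyc ∧ Y.Small (k + 1) ∧ Sim S Y ∧ Y.vec = f X.vec) :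
    Step S S' := by
  apply step_gen f hf 0 1 ⟨0, by simp [h0]⟩
  intro k X hv ha hs hsim
  obtain ⟨Y, h1, h2, h3, h4, h5⟩ := h k X hv ha hs hsim
  have : f X.vec ∈ AA (k + 1) S.ty := ⟨Y, h1, h2, h3, h4.ty_eq.symm, h5.symm⟩
  exact ⟨0, by simpa using this, by simpa using this⟩

lemma AA_mono (k : ℕ) (t : (ι × Bool → Prop) × (Ep ι → Ep ι → Prop)) : AA k t ⊆ AA (k + 1) t := by
  rintro v ⟨X, h1, h2, h3, h4, h5⟩
  refine ⟨X, h1, h2, fun e he => le_trans (h3 e he) ?_, h4, h5⟩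
  rw [pow_succ]
  have : (0 : ℤ) < 8 ^ k := by positivity
  omega

lemma exists_stable [Fintype ι] : ∃ k ≤ 2 ^ (2 * Fintype.card ι + 16 * Fintype.card ι ^ 2) *
    (4 * Fintype.card ι + 1), ∀ S : Sys ι, Good (k + 1) S → Good k S := by
  classical
  let T := (ι × Bool → Prop) × (Ep ι → Ep ι → Prop)
  let g : ℕ → T → ℕ := fun k t =>
    Module.finrank ℚ (Submodule.span ℚ (AA k t)) + if (AA k t).Nonempty then 1 else 0
  let f : ℕ → ℕ := fun k => ∑ t : T, g k t
  have hE : Fintype.card (Ep ι) = 4 * Fintype.card ι := by simp [Ep]; ring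
  have hT : Fintype.card T = 2 ^ (2 * Fintype.card ι + 16 * Fintype.card ι ^ 2) := by
    simp only [T, Fintype.card_prod, Fintype.card_fun, Fintype.card_prop, hE, Fintype.card_bool]
    rw [← pow_mul, ← pow_add]
    congr 1; ring
  have hg : ∀ k t, g k t ≤ 4 * Fintype.card ι + 1 := by
    intro k t
    have := Submodule.finrank_le (Submodule.span ℚ (AA k t))
    rw [Module.finrank_fintype_fun_eq_card, hE] at this
    simp only [g]
    split_ifs <;> omega
  have hf : ∀ k, f k ≤ 2 ^ (2 * Fintype.card ι + 16 * Fintype.card ι ^ 2) *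
      (4 * Fintype.card ι + 1) := by
    intro k
    rw [← hT]
    have := Finset.sum_le_card_nsmul Finset.univ (g k) _ (fun t _ => hg k t)
    simpa using this
  have h1 : ∀ k (t : T), Module.finrank ℚ (Submodule.span ℚ (AA k t)) ≤
      Module.finrank ℚ (Submodule.span ℚ (AA (k + 1) t)) := fun k t =>
    Submodule.finrank_mono (Submodule.span_mono (AA_mono k t))
  have h2 : ∀ k (t : T), (if (AA k t).Nonempty then 1 else 0 : ℕ) ≤
      if (AA (k + 1) t).Nonempty then 1 else 0 := by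
    intro k t
    by_cases h : (AA k t).Nonempty
    · rw [if_pos h, if_pos (h.mono (AA_mono k t))]
    · rw [if_neg h]; omega
  have hm : ∀ k t, g k t ≤ g (k + 1) t := fun k t => Nat.add_le_add (h1 k t) (h2 k t)
  set N := 2 ^ (2 * Fintype.card ι + 16 * Fintype.card ι ^ 2) * (4 * Fintype.card ι + 1)
  have : ∃ k ≤ N, f (k + 1) ≤ f k := by
    by_contra hn
    push Not at hn
    have : ∀ k ≤ N + 1, k ≤ f k := by
      intro k
      induction k with
      | zero => intro _; omega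
      | succ k ih => intro hk; have := hn k (by omega); have := ih (by omega); omega
    have h3 := this (N + 1) le_rfl
    have h4 := hf (N + 1)
    omega
  obtain ⟨k, hk, hle⟩ := this
  refine ⟨k, hk, fun S hS => ?_⟩
  have heq : g k S.ty = g (k + 1) S.ty := by
    by_contra hne
    have : f k < f (k + 1) := Finset.sum_lt_sum (fun t _ => hm k t)
      ⟨S.ty, Finset.mem_univ _, lt_of_le_of_ne (hm k _) hne⟩
    omega
  have a1 := h1 k S.ty
  have a2 := h2 k S.ty
  simp only [g] at heq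
  have e1 : Submodule.span ℚ (AA k S.ty) = Submodule.span ℚ (AA (k + 1) S.ty) :=
    Submodule.eq_of_le_of_finrank_eq (Submodule.span_mono (AA_mono k _)) (by omega)
  refine ⟨e1 ▸ hS.1, ?_⟩
  by_contra hn
  rw [if_neg hn, if_pos hS.2] at heq
  omega

end Pool.Agent.Lib.MP_16bc4e_al
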