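import Pool.Agent.Lib.MP_16bc4e_al.Pot

namespace Pool.Agent.Lib.MP_16bc4e_al

open FreeGroup hiding map_inv map_mul map_one norm_one

variable {α : Type*} [DecidableEq α]

/-- vertex at depth `a` on the geodesic to `A i` -/
def Pv (A : ℕ → FreeGroup α) (i a : ℕ) : FreeGroup α := mk ((A i).toWord.take a)

def sA (A : ℕ → FreeGroup α) (i : ℕ) : ℕ := (Finset.range i).sup fun k => G (A i) (A k)

def InK (A : ℕ → FreeGroup α) (m : ℕ) (v : FreeGroup α) : Prop :=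
  ∃ k < m, ∃ a ≤ norm (A k), v = Pv A k a

def Sp (A : ℕ → FreeGroup α) (m : ℕ) (v : FreeGroup α) : Prop :=
  ∃ k < m, v = Pv A k (sA A k) ∨ v = A k

def Adj (p q : FreeGroup α) : Prop := norm (p⁻¹ * q) = 1

variable {A : ℕ → FreeGroup α} {m : ℕ}

lemma toWord_Pv (i a : ℕ) : (Pv A i a).toWord = (A i).toWord.take a :=
  IsReduced.toWord_mk (IsReduced.take' isReduced_toWord a)

lemma norm_Pv {i a : ℕ} (h : a ≤ norm (A i)) : norm (Pv A i a) = a := by
  unfold FreeGroup.norm at *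
  rw [toWord_Pv, List.length_take]
  omega

lemma Pv_norm (i : ℕ) : Pv A i (norm (A i)) = A i := by
  unfold Pv FreeGroup.norm
  rw [List.take_length, mk_toWord]

lemma Pv_zero (i : ℕ) : Pv A i 0 = 1 := rfl

lemma Pv_eq_of_le {i k a : ℕ} (h : a ≤ G (A i) (A k)) : Pv A i a = Pv A k a := by
  unfold Pv
  rw [take_lcp _ _ h]

lemma Pv_eq {i k a b : ℕ} (ha : a ≤ norm (A i)) (hb : b ≤ norm (A k))
    (h : Pv A i a = Pv A k b) : a = b ∧ a ≤ G (A i) (A k) := by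
  have : a = b := by rw [← norm_Pv ha, h, norm_Pv hb]
  subst this
  refine ⟨rfl, (le_lcp_iff _ _ _).2 ⟨ha, hb, ?_⟩⟩
  rw [← toWord_Pv, h, toWord_Pv]

lemma eq_of_le_G {v B : FreeGroup α} (h : norm v ≤ G v B) : v = mk (B.toWord.take (norm v)) := by
  rw [← take_lcp _ _ h]
  unfold FreeGroup.norm
  rw [List.take_length, mk_toWord]

lemma G_Pv {i a b : ℕ} (h : a ≤ b) (hb : b ≤ norm (A i)) : G (Pv A i a) (Pv A i b) = a := by
  apply le_antisymm ((G_le_left _ _).trans (norm_Pv (by omega)).le)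
  refine (le_lcp_iff _ _ _).2 ⟨(norm_Pv (by omega)).ge, h.trans (norm_Pv hb).ge, ?_⟩
  rw [toWord_Pv, toWord_Pv, List.take_take, List.take_take, min_self, min_eq_left h]

lemma le_sA {i k : ℕ} (h : k < i) : G (A i) (A k) ≤ sA A i :=
  Finset.le_sup (f := fun k => G (A i) (A k)) (Finset.mem_range.2 h)

lemma sA_le (i : ℕ) : sA A i ≤ norm (A i) := Finset.sup_le fun _ _ => G_le_left _ _

lemma sA_zero : sA A 0 = 0 := rfl

lemma exists_par (i : ℕ) (h : 0 < i) : ∃ k, k < i ∧ G (A i) (A k) = sA A i := by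
  obtain ⟨k, h1, h2⟩ := Finset.exists_mem_eq_sup (Finset.range i) ⟨0, Finset.mem_range.2 h⟩
    fun k => G (A i) (A k)
  exact ⟨k, Finset.mem_range.1 h1, h2.symm⟩

def parA (A : ℕ → FreeGroup α) (i : ℕ) : ℕ :=
  if h : 0 < i then Nat.find (exists_par (A := A) i h) else 0

lemma parA_spec {i : ℕ} (h : 0 < i) : parA A i < i ∧ G (A i) (A (parA A i)) = sA A i := by
  rw [parA, dif_pos h]
  exact Nat.find_spec (exists_par (A := A) i h)

lemma parA_le (i : ℕ) : parA A i ≤ i ∧ sA A (parA A i) ≤ sA A i ∧ sA A i ≤ norm (A (parA A i)) ∧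
    Pv A (parA A i) (sA A i) = Pv A i (sA A i) := by
  by_cases h : 0 < i
  · obtain ⟨h1, h2⟩ := parA_spec (A := A) h
    refine ⟨h1.le, Finset.sup_le fun k hk => ?_, h2 ▸ G_le_right _ _, (Pv_eq_of_le h2.ge).symm⟩
    have hk := Finset.mem_range.1 hk
    by_contra hn
    have h3 := G_ultra (A i) (A (parA A i)) (A k) (by omega)
    have h4 : k < Nat.find (exists_par (A := A) i h) := by rwa [parA, dif_pos h] at hk
    exact Nat.find_min _ h4 ⟨by omega, by omega⟩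
  · obtain rfl : i = 0 := by omega
    exact ⟨le_rfl, le_rfl, Nat.zero_le _, rfl⟩

lemma InK.rep {v : FreeGroup α} (h : InK A m v) : ∃ i < m, ∃ a, sA A i ≤ a ∧ a ≤ norm (A i) ∧
    v = Pv A i a ∧ (0 < a → sA A i < a) := by
  classical
  obtain ⟨h1, a, h2, h3⟩ := Nat.find_spec h
  have key : ∀ k < Nat.find h, G (A (Nat.find h)) (A k) < a := by
    intro k hk
    by_contra hn
    exact Nat.find_min h hk ⟨by omega, a, by have := G_le_right (A (Nat.find h)) (A k); omega,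
      h3.trans (Pv_eq_of_le (by omega))⟩
  have k2 : 0 < a → sA A (Nat.find h) < a := fun h0 =>
    (Finset.sup_lt_iff h0).2 fun k hk => key k (Finset.mem_range.1 hk)
  exact ⟨_, h1, a, Finset.sup_le fun k hk => (key k (Finset.mem_range.1 hk)).le, h2, h3, k2⟩

lemma Adj.symm {p q : FreeGroup α} (h : Adj p q) : Adj q p := by
  unfold Adj at *
  rw [← norm_inv_eq, mul_inv_rev, inv_inv, h]

lemma Adj.mul {p q : FreeGroup α} (h : Adj p q) (g : FreeGroup α) : Adj (g * p) (g * q) := by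
  unfold Adj at *
  rw [mul_inv_rev, mul_assoc, inv_mul_cancel_left, h]

lemma adj_Pv {i a : ℕ} (h : a + 1 ≤ norm (A i)) : Adj (Pv A i a) (Pv A i (a + 1)) := by
  have := norm_inv_mul (Pv A i a) (Pv A i (a + 1))
  rw [G_Pv (Nat.le_succ a) h, norm_Pv h, norm_Pv (show a ≤ norm (A i) by omega)] at this
  unfold Adj
  omega

lemma edge_aux {p q : FreeGroup α} (hq : InK A m q) (h : Adj p q) (hn : norm p ≤ norm q) :
    ∃ i < m, ∃ a, sA A i ≤ a ∧ a + 1 ≤ norm (A i) ∧ p = Pv A i a ∧ q = Pv A i (a + 1) := by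
  obtain ⟨i, h1, a, h2, h3, rfl, h5⟩ := hq.rep
  have e := norm_inv_mul p (Pv A i a)
  have g1 := G_le_left p (Pv A i a)
  unfold Adj at h
  rw [norm_Pv h3] at e hn
  obtain ⟨a, rfl⟩ : ∃ b, a = b + 1 := ⟨a - 1, by omega⟩
  refine ⟨i, h1, a, by omega, h3, ?_, rfl⟩
  have := eq_of_le_G (v := p) (B := Pv A i (a + 1)) (by omega)
  rw [toWord_Pv, List.take_take, show norm p = a by omega, min_eq_left (Nat.le_succ a)] at this
  exact this

lemma first_edge {p q : FreeGroup α} (hp : InK A m p) (hq : InK A m q) (h : Adj p q) :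
    ∃ i < m, ∃ a, sA A i ≤ a ∧ a + 1 ≤ norm (A i) ∧
      ((p = Pv A i a ∧ q = Pv A i (a + 1)) ∨ (q = Pv A i a ∧ p = Pv A i (a + 1))) := by
  rcases le_total (norm p) (norm q) with hn | hn
  · obtain ⟨i, a, b, c, d, e⟩ := edge_aux hq h hn
    exact ⟨i, a, b, c, d, Or.inl e⟩
  · obtain ⟨i, a, b, c, d, e⟩ := edge_aux hp h.symm hn
    exact ⟨i, a, b, c, d, Or.inr e⟩

lemma two_lines {i k a b : ℕ} (h1 : sA A i ≤ a) (h2 : a ≤ norm (A i)) (h3 : b ≤ norm (A k))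
    (h : Pv A i a = Pv A k b) (hk : k < i) : a = sA A i := by
  have := (Pv_eq h2 h3 h).2
  have := le_sA (A := A) hk
  omega

lemma same_line {i k a b : ℕ} (hi : i < m) (hk : k < m) (h1 : sA A i ≤ a) (h2 : a ≤ norm (A i))
    (h3 : sA A k ≤ b) (h4 : b ≤ norm (A k)) (h : Pv A i a = Pv A k b) (hs : ¬ Sp A m (Pv A i a)) :
    i = k := by
  rcases lt_trichotomy i k with h5 | h5 | h5
  · exact absurd ⟨k, hk, Or.inl (by rw [h, ← two_lines h3 h4 h2 h.symm h5])⟩ hs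
  · exact h5
  · exact absurd ⟨i, hi, Or.inl (by rw [← two_lines h1 h2 h4 h h5])⟩ hs

lemma next_edge {i a : ℕ} {q : FreeGroup α} (hi : i < m) (h1 : sA A i ≤ a) (h2 : a ≤ norm (A i))
    (hs : ¬ Sp A m (Pv A i a)) (hq : InK A m q) (h : Adj (Pv A i a) q) :
    (a + 1 ≤ norm (A i) ∧ q = Pv A i (a + 1)) ∨ (sA A i + 1 ≤ a ∧ q = Pv A i (a - 1)) := by
  obtain ⟨k, a1, b, a2, a3, a4 | a4⟩ := first_edge ⟨i, hi, a, h2, rfl⟩ hq h
  · obtain rfl := same_line hi a1 h1 h2 a2 (by omega) a4.1 hs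
    obtain rfl := (Pv_eq h2 (by omega) a4.1).1
    exact Or.inl ⟨a3, a4.2⟩
  · obtain rfl := same_line hi a1 h1 h2 (by omega) a3 a4.2 hs
    obtain rfl := (Pv_eq h2 a3 a4.2).1
    exact Or.inr ⟨by omega, a4.1⟩

lemma path_line (Q : ℕ → FreeGroup α) (l : ℕ) (h0 : 0 < l) (h1 : ∀ k ≤ l, InK A m (Q k))
    (h2 : ∀ k < l, Adj (Q k) (Q (k + 1))) (h3 : ∀ k, k + 2 ≤ l → Q (k + 2) ≠ Q k)
    (h4 : ∀ k, 0 < k → k < l → ¬ Sp A m (Q k)) :
    ∃ t : ℕ × ℤ × Bool, t.1 < m ∧ ∀ k ≤ l, ∃ w : ℕ,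
      (w : ℤ) = (if t.2.2 then t.2.1 + k else t.2.1 - k) ∧ sA A t.1 ≤ w ∧ w ≤ norm (A t.1) ∧
      Q k = Pv A t.1 w := by
  have main : ∀ (i : ℕ) (z : ℤ) (d : Bool), i < m →
      (∀ k : ℕ, k ≤ 1 → ∃ w : ℕ, (w : ℤ) = (if d then z + k else z - k) ∧ sA A i ≤ w ∧ w ≤ norm (A i) ∧
        Q k = Pv A i w) → ∀ k ≤ l, ∃ w : ℕ, (w : ℤ) = (if d then z + k else z - k) ∧ sA A i ≤ w ∧
        w ≤ norm (A i) ∧ Q k = Pv A i w := by
    intro i z d hi h k
    induction k using Nat.strong_induction_on with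
    | _ k ih =>
    intro hk
    by_cases h5 : k ≤ 1
    · exact h k h5
    obtain ⟨k, rfl⟩ : ∃ j, k = j + 2 := ⟨k - 2, by omega⟩
    obtain ⟨w0, a1, a2, a3, a4⟩ := ih k (by omega) (by omega)
    obtain ⟨w1, b1, b2, b3, b4⟩ := ih (k + 1) (by omega) (by omega)
    have c1 := h4 (k + 1) (by omega) (by omega)
    have c2 := h2 (k + 1) (by omega)
    have c3 := h3 k hk
    rw [b4] at c1 c2
    rw [a4] at c3
    rcases next_edge hi b2 b3 c1 (h1 _ hk) c2 with c | c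
    · refine ⟨w1 + 1, ?_, by omega, c.1, c.2⟩
      have : w1 + 1 ≠ w0 := fun e => c3 (by rw [← e]; exact c.2)
      split_ifs at a1 b1 ⊢ <;> omega
    · refine ⟨w1 - 1, ?_, by omega, by omega, c.2⟩
      have : w1 - 1 ≠ w0 := fun e => c3 (by rw [← e]; exact c.2)
      split_ifs at a1 b1 ⊢ <;> omega
  obtain ⟨i, a1, a, a2, a3, a4 | a4⟩ := first_edge (h1 0 (by omega)) (h1 1 h0) (h2 0 h0)
  · refine ⟨(i, a, true), a1, main i a true a1 fun k hk => ?_⟩
    interval_cases k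
    · exact ⟨a, by simp, a2, by omega, a4.1⟩
    · exact ⟨a + 1, by simp, by omega, a3, a4.2⟩
  · refine ⟨(i, a + 1, false), a1, main i (a + 1) false a1 fun k hk => ?_⟩
    interval_cases k
    · exact ⟨a + 1, by simp, by omega, a3, a4.2⟩
    · exact ⟨a, by simp, a2, by omega, a4.1⟩

lemma inK_of_G {v : FreeGroup α} {k : ℕ} (hk : k < m) (h : norm v ≤ G v (A k)) : InK A m v :=
  ⟨k, hk, norm v, h.trans (G_le_right _ _), eq_of_le_G h⟩

lemma inK_mul {i j k a : ℕ} (hi : i < m) (hj : j < m) (h : A j = A i * A k) (ha : a ≤ norm (A k)) :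
    InK A m (A i * Pv A k a) := by
  have e1 := norm_inv_mul (A i) (A i * Pv A k a)
  have e2 := norm_inv_mul (A i * Pv A k a) (A j)
  have e3 := norm_inv_mul (A i) (A j)
  have e4 := norm_inv_mul (Pv A k a) (A k)
  have e5 := G_Pv (A := A) ha le_rfl
  rw [Pv_norm] at e5
  rw [inv_mul_cancel_left, norm_Pv ha] at e1
  rw [show (A i * Pv A k a)⁻¹ * A j = (Pv A k a)⁻¹ * A k by rw [h]; group] at e2
  rw [show (A i)⁻¹ * A j = A k by rw [h]; group] at e3
  rw [e5, norm_Pv ha] at e4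
  rcases le_total (G (A i) (A i * Pv A k a)) (G (A i * Pv A k a) (A j)) with h1 | h1
  · have : G (A i) (A i * Pv A k a) ≤ G (A i) (A j) := lcp_trans _ _ _ le_rfl h1
    exact inK_of_G hj (by omega)
  · have : G (A i * Pv A k a) (A j) ≤ G (A i) (A j) := lcp_trans _ _ _ h1 le_rfl
    exact inK_of_G hi (by rw [G_comm]; omega)

open Classical in
/-- the tail of a positively oriented edge -/
noncomputable def tl (p q : FreeGroup α) : FreeGroup α := if ∃ y, p⁻¹ * q = of y then p else q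

omit [DecidableEq α] in
lemma tl_mul (g p q : FreeGroup α) : tl (g * p) (g * q) = g * tl p q := by
  unfold tl
  rw [mul_inv_rev, mul_assoc, inv_mul_cancel_left]
  split_ifs <;> rfl

lemma tl_comm {p q : FreeGroup α} (h : Adj p q) : tl p q = tl q p := by
  have k : ∀ x y : α, (of x)⁻¹ ≠ of y := by
    intro x y e
    have := congrArg toWord e
    rw [toWord_inv] at this
    simp [invRev] at this
  obtain ⟨⟨y, s⟩, hy⟩ := List.length_eq_one_iff.1 h
  have e : p⁻¹ * q = mk [(y, s)] := by rw [← hy, mk_toWord]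
  have e' : q⁻¹ * p = (mk [(y, s)])⁻¹ := by rw [← e]; group
  unfold tl
  cases s
  · rw [mk_false] at e e'
    rw [if_neg (by rintro ⟨x, hx⟩; exact k _ _ (e.symm.trans hx)), if_pos ⟨y, by simpa using e'⟩]
  · rw [mk_true] at e e'
    rw [if_pos ⟨y, e⟩, if_neg (by rintro ⟨x, hx⟩; exact k _ _ (e'.symm.trans hx))]

end Pool.Agent.Lib.MP_16bc4e_al
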